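import Pool.Agent.Lib.MP_a688ad_al.HW3

/-!
# The action of `gl_r` on `Sym^n(V ⊗ Sym^2 V)`
-/

set_option autoImplicit false

open MvPolynomial Finset

namespace Pool.Agent.Lib.MP_a688ad_al

variable {r : ℕ}

/-- Index set of the basis `x_u ⊗ x_v x_w` of `V ⊗ Sym^2 V`. -/
abbrev Ix (r : ℕ) := Fin r × Sym2 (Fin r)

/-- Kronecker delta. -/
noncomputable def dl (a b : Fin r) : ℂ := if a = b then 1 else 0

/-- The action on the second factor. -/
noncomputable def act2 (i j u : Fin r) : Sym2 (Fin r) → MvPolynomial (Ix r) ℂ :=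
  Sym2.lift ⟨fun v w => dl j v • X (u, s(i, w)) + dl j w • X (u, s(v, i)), fun v w => by
    show dl j v • X (u, s(i, w)) + dl j w • X (u, s(v, i))
      = dl j w • X (u, s(i, v)) + dl j v • X (u, s(w, i))
    rw [add_comm, Sym2.eq_swap (a := v) (b := i), Sym2.eq_swap (a := i) (b := w)]⟩

/-- The operator `x_i ∂/∂x_j`. -/
noncomputable def DE (i j : Fin r) : Derivation ℂ (MvPolynomial (Ix r) ℂ) (MvPolynomial (Ix r) ℂ) :=
  mkDerivation ℂ (fun p => dl j p.1 • X (i, p.2) + act2 i j p.1 p.2)

theorem DE_X (i j u v w : Fin r) : DE i j (X (u, s(v, w))) = dl j u • X (i, s(v, w))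
    + (dl j v • X (u, s(i, w)) + dl j w • X (u, s(v, i))) := by
  unfold DE
  rw [mkDerivation_X]
  rfl

theorem DE_comm (i j k l : Fin r) :
    ⁅(DE i j : Derivation ℂ (MvPolynomial (Ix r) ℂ) (MvPolynomial (Ix r) ℂ)), DE k l⁆
      = dl j k • DE i l - dl i l • DE k j := by
  apply derivation_ext
  rintro ⟨u, s⟩
  induction s using Sym2.ind with
  | _ v w =>
    rw [Derivation.commutator_apply]
    have h2 : (dl l i : ℂ) = dl i l := by unfold dl; simp only [eq_comm]
    simp only [DE_X, map_add, Derivation.map_smul, Derivation.sub_apply, Derivation.smul_apply]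
    simp only [smul_add, smul_smul]
    rw [h2]
    module

/-- The weight of a basis vector. -/
def wt (p : Ix r) : Fin r → ℤ := sg p.1 + Sym2.lift ⟨fun v w => sg v + sg w, fun _ _ => add_comm _ _⟩ p.2

theorem wt_mk (u v w : Fin r) : wt (u, s(v, w)) = sg u + (sg v + sg w) := rfl

/-- The weight together with the degree. -/
def WT (p : Ix r) : (Fin r → ℤ) × ℤ := (wt p, 1)

theorem sg_nonneg (i k : Fin r) : 0 ≤ sg i k := by
  unfold sg
  rw [Pi.single_apply]
  split_ifs <;> simp

theorem wt_nonneg (p : Ix r) (k : Fin r) : 0 ≤ wt p k := by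
  obtain ⟨u, s⟩ := p
  induction s using Sym2.ind with
  | _ v w =>
    rw [wt_mk]
    have := sg_nonneg u k
    have := sg_nonneg v k
    have := sg_nonneg w k
    simp only [Pi.add_apply]
    omega

theorem sum_wt (p : Ix r) : ∑ k, wt p k = 3 := by
  obtain ⟨u, s⟩ := p
  induction s using Sym2.ind with
  | _ v w =>
    rw [wt_mk]
    simp only [Pi.add_apply, Finset.sum_add_distrib, GlFam.sum_sg]
    norm_num

theorem DE_X_hom (i j : Fin r) (p : Ix r) :
    IsWeightedHomogeneous WT (DE i j (X p : MvPolynomial (Ix r) ℂ)) (WT p + (sg i - sg j, 0)) := by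
  obtain ⟨u, s⟩ := p
  induction s using Sym2.ind with
  | _ v w =>
    rw [DE_X]
    have key : ∀ (a : Fin r) (q : Ix r), (a = j → WT q = WT (u, s(v, w)) + (sg i - sg j, 0)) →
        IsWeightedHomogeneous WT (dl j a • X q : MvPolynomial (Ix r) ℂ)
          (WT (u, s(v, w)) + (sg i - sg j, 0)) := by
      intro a q h
      unfold dl
      split_ifs with h1
      · rw [one_smul, ← h h1.symm]
        exact isWeightedHomogeneous_X _ _ _
      · rw [zero_smul]
        exact isWeightedHomogeneous_zero _ _ _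
    refine (key _ _ ?_).add ((key _ _ ?_).add (key _ _ ?_))
    · rintro rfl
      simp only [WT, wt_mk, Prod.mk_add_mk, add_zero]
      congr 1
      abel
    · rintro rfl
      simp only [WT, wt_mk, Prod.mk_add_mk, add_zero]
      congr 1
      abel
    · rintro rfl
      simp only [WT, wt_mk, Prod.mk_add_mk, add_zero]
      congr 1
      abel

theorem DE_monomial (i j : Fin r) (d : Ix r →₀ ℕ) (c : ℂ) :
    DE i j (monomial d c)
      = c • d.sum fun p k => monomial (d - Finsupp.single p 1) (k : ℂ) • DE i j (X p) := by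
  unfold DE
  rw [mkDerivation_monomial]
  simp only [mkDerivation_X]

theorem DE_hom (i j : Fin r) {F : MvPolynomial (Ix r) ℂ} {m : (Fin r → ℤ) × ℤ}
    (hF : IsWeightedHomogeneous WT F m) :
    IsWeightedHomogeneous WT (DE i j F) (m + (sg i - sg j, 0)) := by
  rw [← support_sum_monomial_coeff F, map_sum]
  apply IsWeightedHomogeneous.sum
  intro d hd
  have hw : Finsupp.weight WT d = m := hF (mem_support_iff.1 hd)
  rw [DE_monomial]
  rw [← mem_weightedHomogeneousSubmodule ℂ]
  apply Submodule.smul_mem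
  rw [Finsupp.sum]
  apply Submodule.sum_mem
  intro p hp
  rw [mem_weightedHomogeneousSubmodule, smul_eq_mul]
  have hp0 : d p ≠ 0 := Finsupp.mem_support_iff.1 hp
  have h1 := isWeightedHomogeneous_monomial WT (d - Finsupp.single p 1) ((d p : ℕ) : ℂ) rfl
  have h2 := h1.mul (DE_X_hom i j p)
  have e : Finsupp.weight WT (d - Finsupp.single p 1) + (WT p + (sg i - sg j, 0))
      = m + (sg i - sg j, 0) := by
    rw [← add_assoc, Finsupp.weight_sub_single_add hp0, hw]
  rw [e] at h2
  exact h2

theorem DE_diag_X (i : Fin r) (p : Ix r) :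
    DE i i (X p : MvPolynomial (Ix r) ℂ) = (wt p i : ℂ) • X p := by
  obtain ⟨u, s⟩ := p
  induction s using Sym2.ind with
  | _ v w =>
    rw [DE_X, wt_mk]
    have h1 : ∀ (a : Fin r) (q : Ix r), (a = i → q = (u, s(v, w))) →
        (dl i a • X q : MvPolynomial (Ix r) ℂ) = ((sg a i : ℤ) : ℂ) • X (u, s(v, w)) := by
      intro a q h
      unfold dl sg
      rw [Pi.single_apply]
      split_ifs with h2
      · rw [h h2.symm]; simp
      · simp
    rw [h1 u (i, s(v, w)) (by rintro rfl; rfl), h1 v (u, s(i, w)) (by rintro rfl; rfl),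
      h1 w (u, s(v, i)) (by rintro rfl; rfl)]
    simp only [Pi.add_apply, Int.cast_add, add_smul]

theorem DE_diag (i : Fin r) {F : MvPolynomial (Ix r) ℂ} {m : (Fin r → ℤ) × ℤ}
    (hF : IsWeightedHomogeneous WT F m) : DE i i F = (m.1 i : ℂ) • F := by
  conv_lhs => rw [← support_sum_monomial_coeff F]
  conv_rhs => rw [← support_sum_monomial_coeff F]
  rw [map_sum, Finset.smul_sum]
  apply Finset.sum_congr rfl
  intro d hd
  have hw : Finsupp.weight WT d = m := hF (mem_support_iff.1 hd)
  rw [DE_monomial]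
  have h1 : (d.sum fun p k => monomial (d - Finsupp.single p 1) (k : ℂ) • DE i i (X p))
      = ∑ p ∈ d.support, (((d p : ℕ) : ℂ) * (wt p i : ℂ)) • monomial d (1 : ℂ) := by
    rw [Finsupp.sum]
    refine Finset.sum_congr rfl fun p hp => ?_
    have hp0 : d p ≠ 0 := Finsupp.mem_support_iff.1 hp
    rw [DE_diag_X, smul_eq_mul, mul_smul_comm, X, monomial_mul, Finsupp.sub_add_single_one_cancel hp0,
      mul_one, smul_monomial, smul_monomial]
    congr 1
    simp only [smul_eq_mul]
    ring
  rw [h1, ← Finset.sum_smul, ← hw, Finsupp.weight_apply, Finsupp.sum]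
  rw [smul_monomial, smul_monomial, smul_monomial]
  congr 1
  simp only [smul_eq_mul, mul_one]
  rw [mul_comm]
  congr 1
  rw [Prod.fst_sum, Finset.sum_apply]
  push_cast
  refine Finset.sum_congr rfl fun p _ => ?_
  simp [WT]

theorem weight_fst (d : Ix r →₀ ℕ) (i : Fin r) :
    (Finsupp.weight WT d).1 i = ∑ p ∈ d.support, (d p : ℤ) * wt p i := by
  rw [Finsupp.weight_apply, Finsupp.sum, Prod.fst_sum, Finset.sum_apply]
  refine Finset.sum_congr rfl fun p _ => ?_
  simp [WT]

theorem weight_snd (d : Ix r →₀ ℕ) : (Finsupp.weight WT d).2 = (d.degree : ℤ) := by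
  rw [Finsupp.weight_apply, Finsupp.sum, Prod.snd_sum, Finsupp.degree_apply]
  push_cast
  refine Finset.sum_congr rfl fun p _ => ?_
  simp [WT]

theorem finite_WT (m : (Fin r → ℤ) × ℤ) : {d : Ix r →₀ ℕ | Finsupp.weight WT d = m}.Finite := by
  apply (Finsupp.finite_of_degree_eq (σ := Ix r) m.2.toNat).subset
  intro d hd
  have h1 : Finsupp.weight WT d = m := hd
  have h2 := weight_snd d
  rw [h1] at h2
  show d.degree = m.2.toNat
  omega

/-- The weight spaces of `Sym^n(V ⊗ Sym^2 V)`. -/
noncomputable def Gl (r n : ℕ) : GlFam r (MvPolynomial (Ix r) ℂ) where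
  E := fun i j => (DE i j).toLinearMap
  comm := by
    intro i j k l v
    have h := congrArg (fun D => D v) (DE_comm i j k l)
    rw [Derivation.commutator_apply, Derivation.sub_apply, Derivation.smul_apply,
      Derivation.smul_apply] at h
    show DE i j (DE k l v) - DE k l (DE i j v) = (if j = k then DE i l v else 0)
      - (if i = l then DE k j v else 0)
    rw [h]
    unfold dl
    congr 1 <;> split_ifs <;> simp
  G := fun ν => weightedHomogeneousSubmodule ℂ WT (ν, (n : ℤ))
  fin := by
    intro ν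
    rw [weightedHomogeneousSubmodule_eq_finsupp_supported]
    have := (finite_WT (r := r) (ν, (n : ℤ))).to_subtype
    exact Module.Finite.of_basis
      (basisRestrictSupport ℂ {d : Ix r →₀ ℕ | Finsupp.weight WT d = (ν, (n : ℤ))})
  map := by
    intro ν i j v hv
    have h := DE_hom i j ((mem_weightedHomogeneousSubmodule _ _ _ _).1 hv)
    have e : ((ν, (n : ℤ)) : (Fin r → ℤ) × ℤ) + (sg i - sg j, 0) = (ν + sg i - sg j, (n : ℤ)) := by
      rw [Prod.mk_add_mk, add_zero, add_sub_assoc]
    rw [e] at h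
    exact h
  diag := by
    intro ν i v hv
    exact DE_diag i ((mem_weightedHomogeneousSubmodule _ _ _ _).1 hv)
  d0 := 3 * n
  nonneg := by
    intro ν i hi
    rw [Submodule.eq_bot_iff]
    intro F hF
    by_contra h0
    obtain ⟨d, hd⟩ := MvPolynomial.ne_zero_iff.1 h0
    have h1 : Finsupp.weight WT d = (ν, (n : ℤ)) := hF hd
    have h2 := weight_fst d i
    rw [h1] at h2
    have h3 : 0 ≤ ∑ p ∈ d.support, (d p : ℤ) * wt p i :=
      Finset.sum_nonneg fun p _ => mul_nonneg (Int.natCast_nonneg _) (wt_nonneg p i)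
    simp only at h2
    omega
  deg := by
    intro ν hν
    rw [Submodule.eq_bot_iff]
    intro F hF
    by_contra h0
    obtain ⟨d, hd⟩ := MvPolynomial.ne_zero_iff.1 h0
    have h1 : Finsupp.weight WT d = (ν, (n : ℤ)) := hF hd
    apply hν
    have h2 : ∀ i, ν i = ∑ p ∈ d.support, (d p : ℤ) * wt p i := by
      intro i
      rw [← weight_fst, h1]
    have h3 := weight_snd d
    rw [h1] at h3
    have h4 : (n : ℤ) = d.degree := h3
    simp only [h2]
    rw [Finset.sum_comm]
    simp only [← Finset.mul_sum, sum_wt]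
    rw [← Finset.sum_mul]
    have h5 : (d.degree : ℤ) = ∑ p ∈ d.support, (d p : ℤ) := by
      rw [Finsupp.degree_apply]; push_cast; rfl
    push_cast
    rw [h4, h5]
    ring

end Pool.Agent.Lib.MP_a688ad_al
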