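import Pool.Agent.Lib.MP_a688ad_al.Defs

/-!
# Coefficients at integer vectors and alternating sums
-/

set_option autoImplicit false

open MvPolynomial Finset Equiv

namespace Pool.Agent.Lib.MP_a688ad_al

variable {r : ℕ} {R : Type*} [CommRing R]

/-- Exponent of an integer vector. -/
noncomputable def toF (ν : Fin r → ℤ) : Fin r →₀ ℕ :=
  Finsupp.equivFunOnFinite.symm (fun i => (ν i).toNat)

/-- Coefficient at an integer vector. -/
noncomputable def cf (F : MvPolynomial (Fin r) R) (ν : Fin r → ℤ) : R :=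
  open Classical in if ∀ i, 0 ≤ ν i then coeff (toF ν) F else 0

/-- The coefficient of `x^κ` in `vdm * F`. -/
noncomputable def altc (F : MvPolynomial (Fin r) R) (κ : Fin r → ℤ) : R :=
  ∑ σ : Perm (Fin r), (Perm.sign σ : ℤ) * cf F (fun i => κ i - rho r (σ i))

theorem toF_apply (ν : Fin r → ℤ) (i : Fin r) : toF ν i = (ν i).toNat := rfl

theorem cf_nat (F : MvPolynomial (Fin r) R) (m : Fin r →₀ ℕ) :
    cf F (fun i => (m i : ℤ)) = coeff m F := by
  unfold cf
  rw [if_pos (fun i => Int.natCast_nonneg _)]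
  congr 1
  ext i
  simp [toF_apply]

theorem cf_neg (F : MvPolynomial (Fin r) R) {ν : Fin r → ℤ} {i : Fin r} (h : ν i < 0) :
    cf F ν = 0 := by
  unfold cf
  rw [if_neg]
  intro h'
  exact absurd (h' i) (by omega)

theorem cf_add (F G : MvPolynomial (Fin r) R) (ν : Fin r → ℤ) :
    cf (F + G) ν = cf F ν + cf G ν := by
  unfold cf
  split_ifs <;> simp

theorem cf_zero (ν : Fin r → ℤ) : cf (0 : MvPolynomial (Fin r) R) ν = 0 := by
  unfold cf
  split_ifs <;> simp

theorem cf_sum {ι : Type*} (s : Finset ι) (F : ι → MvPolynomial (Fin r) R) (ν : Fin r → ℤ) :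
    cf (∑ k ∈ s, F k) ν = ∑ k ∈ s, cf (F k) ν := by
  classical
  induction s using Finset.induction_on with
  | empty => simp [cf_zero]
  | insert a s ha ih => rw [Finset.sum_insert ha, Finset.sum_insert ha, cf_add, ih]

theorem cf_C_mul (c : R) (F : MvPolynomial (Fin r) R) (ν : Fin r → ℤ) :
    cf (C c * F) ν = c * cf F ν := by
  unfold cf
  split_ifs <;> simp

theorem cf_mul_monomial (F : MvPolynomial (Fin r) R) (m : Fin r →₀ ℕ) (ν : Fin r → ℤ) :
    cf (F * monomial m 1) ν = cf F (fun i => ν i - m i) := by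
  unfold cf
  by_cases h : ∀ i, 0 ≤ ν i - m i
  · have h1 : ∀ i, 0 ≤ ν i := fun i => by have := h i; omega
    rw [if_pos h1, if_pos h]
    have e : toF ν = toF (fun i => ν i - m i) + m := by
      ext i
      have := h i
      simp only [Finsupp.add_apply, toF_apply]
      omega
    rw [e, coeff_mul_monomial, mul_one]
  · rw [if_neg h]
    split_ifs with h1
    · rw [coeff_mul_monomial', if_neg]
      intro h2
      apply h
      intro i
      have h3 := h2 i
      have h4 := h1 i
      rw [toF_apply] at h3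
      omega
    · rfl

theorem altc_add (F G : MvPolynomial (Fin r) R) (κ : Fin r → ℤ) :
    altc (F + G) κ = altc F κ + altc G κ := by
  unfold altc
  simp only [cf_add, mul_add, Finset.sum_add_distrib]

theorem altc_zero (κ : Fin r → ℤ) : altc (0 : MvPolynomial (Fin r) R) κ = 0 := by
  unfold altc
  simp [cf_zero]

theorem altc_sum {ι : Type*} (s : Finset ι) (F : ι → MvPolynomial (Fin r) R) (κ : Fin r → ℤ) :
    altc (∑ k ∈ s, F k) κ = ∑ k ∈ s, altc (F k) κ := by
  classical
  induction s using Finset.induction_on with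
  | empty => simp [altc_zero]
  | insert a s ha ih => rw [Finset.sum_insert ha, Finset.sum_insert ha, altc_add, ih]

theorem altc_C_mul (c : R) (F : MvPolynomial (Fin r) R) (κ : Fin r → ℤ) :
    altc (C c * F) κ = c * altc F κ := by
  unfold altc
  rw [Finset.mul_sum]
  refine Finset.sum_congr rfl fun σ _ => ?_
  rw [cf_C_mul]
  ring

theorem altc_mul_monomial (F : MvPolynomial (Fin r) R) (m : Fin r →₀ ℕ) (κ : Fin r → ℤ) :
    altc (F * monomial m 1) κ = altc F (fun i => κ i - m i) := by
  unfold altc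
  refine Finset.sum_congr rfl fun σ _ => ?_
  rw [cf_mul_monomial]
  congr 2
  ext i
  ring

/-- Expansion of the Vandermonde product. -/
theorem vdm_eq : vdm R r = ∑ σ : Perm (Fin r), ((Perm.sign σ : ℤ) : MvPolynomial (Fin r) R) *
    monomial (Finsupp.equivFunOnFinite.symm (fun i => rho r (σ i))) 1 := by
  have h1 : vdm R r = (Matrix.projVandermonde (fun _ => (1 : MvPolynomial (Fin r) R)) X).det := by
    rw [Matrix.det_projVandermonde]
    unfold vdm prs
    rw [Finset.prod_filter, Fintype.prod_prod_type]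
    refine Finset.prod_congr rfl fun i _ => ?_
    rw [← Finset.prod_filter]
    have : (univ.filter (fun j => i < j) : Finset (Fin r)) = Finset.Ioi i := by
      ext j; simp
    simp only [this, one_mul]
  rw [h1, Matrix.det_apply]
  rw [← Equiv.sum_comp (Equiv.inv (Perm (Fin r)))]
  refine Finset.sum_congr rfl fun σ _ => ?_
  rw [Units.smul_def, zsmul_eq_mul]
  simp only [Equiv.inv_apply, Perm.sign_inv]
  congr 1
  rw [← Equiv.prod_comp σ]
  simp only [Equiv.Perm.inv_def, Equiv.symm_apply_apply, Matrix.projVandermonde_apply, one_pow, one_mul]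
  rw [monomial_eq]
  simp only [map_one, one_mul]
  rw [Finsupp.prod_fintype _ _ (by simp)]
  refine Finset.prod_congr rfl fun i _ => ?_
  congr 1
  simp only [Finsupp.equivFunOnFinite_symm_apply_apply, rho, Fin.val_rev]
  omega

theorem coeff_vdm_mul (F : MvPolynomial (Fin r) R) (κ : Fin r → ℤ) :
    cf (vdm R r * F) κ = altc F κ := by
  rw [vdm_eq, Finset.sum_mul, cf_sum]
  unfold altc
  refine Finset.sum_congr rfl fun σ _ => ?_
  have e : ((Perm.sign σ : ℤ) : MvPolynomial (Fin r) R) = C ((Perm.sign σ : ℤ) : R) := by simp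
  rw [e, mul_assoc, cf_C_mul, mul_comm (monomial _ _), cf_mul_monomial]
  rfl

theorem schurCoeff_eq (F : MvPolynomial (Fin r) ℤ) (lam : Fin r → ℕ) :
    schurCoeff F lam = altc F (fun i => (lam i : ℤ) + rho r i) := by
  rw [← coeff_vdm_mul]
  unfold schurCoeff
  rw [← cf_nat]
  rfl

/-- Symmetric functions give antisymmetric coefficients. -/
theorem altc_perm {F : MvPolynomial (Fin r) R} (hF : ∀ (τ : Perm (Fin r)) (ν : Fin r → ℤ),
    cf F (ν ∘ τ) = cf F ν) (κ : Fin r → ℤ) (τ : Perm (Fin r)) :
    altc F (κ ∘ τ) = (Perm.sign τ : ℤ) * altc F κ := by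
  unfold altc
  rw [Finset.mul_sum]
  rw [← Equiv.sum_comp (Equiv.mulRight τ)]
  refine Finset.sum_congr rfl fun σ _ => ?_
  simp only [Equiv.coe_mulRight, Perm.sign_mul, Units.val_mul, Int.cast_mul]
  have e : (fun i => (κ ∘ τ) i - (rho r ((σ * τ) i) : ℤ)) = (fun i => κ i - rho r (σ i)) ∘ τ := by
    ext i; simp
  rw [e, hF]
  ring

end Pool.Agent.Lib.MP_a688ad_al
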