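import Pool.Agent.Lib.MP_a688ad_al.Shift

/-!
# The shift by 24,12, and vanishing for long tails
-/

set_option autoImplicit false

namespace Pool.Agent.Lib.MP_a688ad_al

theorem ev_mv_two (A : List ℕ → ℤ) (k a b : ℕ) (q : List ℕ) (hab : b + k < a)
    (hb : ∀ y ∈ q, y + k < b) (hk : k ≤ b) :
    ev A (mv k (a :: b :: q)) = A ((a - k) :: b :: q) + A (a :: (b - k) :: q)
      + ev (fun q' => A (a :: b :: q')) (mv k q) := by
  have h1 : mv k (a :: b :: q) = ins (a - k) (b :: q) ++ (mv k (b :: q)).map (fun t => (t.1, a :: t.2)) := by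
    conv_lhs => rw [mv]
    rw [if_pos (by omega)]
  have h2 : mv k (b :: q) = ins (b - k) q ++ (mv k q).map (fun t => (t.1, b :: t.2)) := by
    conv_lhs => rw [mv]
    rw [if_pos hk]
  have h3 : ins (a - k) (b :: q) = [(false, (a - k) :: b :: q)] := by
    simp only [ins]
    rw [if_pos (by omega)]
  have h4 : ins (b - k) q = [(false, (b - k) :: q)] := by
    have := ins_append (b - k) [] q (fun z hz => by have := hb z hz; omega)
    simpa [ins] using this
  rw [h1, ev_append, ev_map, h2, ev_append, ev_map, h3, h4]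
  simp [ev]
  ring

/-- Relation between values at shifted arguments. -/
def Rel2 (s u : ℕ) (w : ℤ) (j : ℕ) (F G : List ℕ → ℤ) : Prop :=
  ∀ a b q, q.length = 4 → Sd (a :: b :: q) → b + j < a → (∀ y ∈ q, y + j < b) → j ≤ b →
    F ((a + s) :: (b + u) :: q) = F (a :: b :: q) + w * G (a :: b :: q)

theorem Rel2.step {s u : ℕ} (hus : u ≤ s) {w : ℤ} {j : ℕ} {F G : List ℕ → ℤ} (k : ℕ)
    (h : Rel2 s u w j F G) :
    Rel2 s u w (j + k) (fun l => ev F (mv k l)) (fun l => ev G (mv k l)) := by
  intro a b q hq hsd hab hb hj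
  simp only
  rw [sd_cons, sd_cons] at hsd
  rw [ev_mv_two F k (a + s) (b + u) q (by omega) (fun y hy => by have := hb y hy; omega) (by omega),
    ev_mv_two F k a b q (by omega) (fun y hy => by have := hb y hy; omega) (by omega),
    ev_mv_two G k a b q (by omega) (fun y hy => by have := hb y hy; omega) (by omega)]
  have e1 : a + s - k = a - k + s := by omega
  have e2 : b + u - k = b - k + u := by omega
  have t1 := h (a - k) b q hq (by
    rw [sd_cons, sd_cons]
    refine ⟨?_, hsd.2⟩
    intro y hy
    rcases List.mem_cons.1 hy with rfl | hy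
    · omega
    · have := hb y hy; omega) (by omega) (fun y hy => by have := hb y hy; omega) (by omega)
  have t2 := h a (b - k) q hq (by
    rw [sd_cons, sd_cons]
    refine ⟨?_, ?_, hsd.2.2⟩
    · intro y hy
      rcases List.mem_cons.1 hy with rfl | hy
      · omega
      · have := hb y hy; omega
    · intro y hy
      have := hb y hy; omega) (by omega) (fun y hy => by have := hb y hy; omega) (by omega)
  rw [e1, e2, t1, t2]
  have t3 : ev (fun q' => F ((a + s) :: (b + u) :: q')) (mv k q)
      = ev (fun q' => F (a :: b :: q') + w * G (a :: b :: q')) (mv k q) := by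
    apply ev_congr
    intro t ht
    have g1 := mv_length k q t ht
    obtain ⟨g2, g3, g4⟩ := mv_sd k q hsd.2.2 t ht
    have g5 : ∀ y ∈ t.2, y + (j + k) < b := by
      intro y hy
      obtain ⟨v, hv, hle⟩ := g4 y hy
      have := hb v hv
      omega
    apply h a b t.2 (by omega)
    · rw [sd_cons, sd_cons]
      refine ⟨?_, ?_, g2⟩
      · intro y hy
        rcases List.mem_cons.1 hy with rfl | hy
        · omega
        · have := g5 y hy; omega
      · intro y hy
        have := g5 y hy; omega
    · omega
    · intro y hy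
      have := g5 y hy; omega
    · omega
  rw [t3, ev_add, ev_mul]
  ring

/-- The leaf for counting. -/
def LC : List ℕ → ℤ
  | [_, _, _, x, _, _] => if x = 2 then 1 else 0
  | _ => 0

/-- The number of ways to reach the leaves. -/
def XC (l : List ℕ) : ℤ := ev (fun l1 => ev (fun l2 => ev LC (mv 1 l2)) (mv 1 l1)) (mv 1 l)

theorem M6_rel : Rel2 24 12 12 3 M6 XC := by
  have hK : Rel2 24 12 12 0 LK LC := by
    intro a b q hq hsd hab hb _
    match q, hq with
    | [c, x, y, z], _ =>
      have hc := hb c (by simp)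
      simp only [LK, LC]
      split_ifs with hx
      · have : min (a + 24 - (b + 12)) (b + 12 - c) = min (a - b) (b - c) + 12 := by omega
        rw [this]
        push_cast
        ring
      · ring
  have h2 : Rel2 24 12 0 0 L2 LC := by
    intro a b q hq hsd hab hb _
    match q, hq with
    | [c, x, y, z], _ =>
      have hc := hb c (by simp)
      simp only [L2, zero_mul, add_zero]
      have e1 : min (a + 24 - (b + 12)) (b + 12 - c) = min (a - b) (b - c) + 12 := by omega
      have e2 : (min (a - b) (b - c) + 12) % 2 = (min (a - b) (b - c)) % 2 := by omega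
      have e3 : (b + 12 - c ≤ a + 24 - (b + 12)) ↔ (b - c ≤ a - b) := by omega
      have e4 : (a + 24) % 2 = a % 2 := by omega
      simp only [e1, e2, e3, e4]
  have h3 : Rel2 24 12 0 0 L3 LC := by
    intro a b q hq hsd hab hb _
    match q, hq with
    | [c, x, y, z], _ =>
      simp only [L3, zero_mul, add_zero]
      have e4 : (a + 24) % 3 = a % 3 := by omega
      have e5 : (b + 12) % 3 = b % 3 := by omega
      simp only [e4, e5]
  have a1 := hK.step (by norm_num) 1
  have a2 := a1.step (by norm_num) 1
  have a3 := a2.step (by norm_num) 1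
  have b1 := h2.step (by norm_num) 1
  have b2 := b1.step (by norm_num) 2
  have c1 := h3.step (by norm_num) 3
  intro a b q hq hsd hab hb hj
  have r1 := a3 a b q hq hsd hab hb hj
  have r2 := b2 a b q hq hsd hab hb hj
  have r3 := c1 a b q hq hsd hab hb hj
  simp only at r1 r2 r3
  unfold M6 XC
  rw [r1, r2, r3]
  ring

theorem XC_rel {s u : ℕ} (hus : u ≤ s) : Rel2 s u 0 3 XC XC := by
  have h : Rel2 s u 0 0 LC LC := by
    intro a b q hq hsd hab hb _
    match q, hq with
    | [c, x, y, z], _ =>
      simp only [LC, zero_mul, add_zero]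
  have a1 := h.step hus 1
  have a2 := a1.step hus 1
  exact a2.step hus 1

theorem XC_le_base {c x y z : ℕ} (h1 : z < y) (h2 : y < x) (h3 : x + y + z ≤ 6) (h4 : x < c)
    (h5 : c ≤ x + 5) : XC [c + 8, c + 4, c, x, y, z] ≤ 27 := by
  have hz : z ≤ 1 := by omega
  have hy : y ≤ 2 := by omega
  have hx : x ≤ 5 := by omega
  have hc : c ≤ 10 := by omega
  interval_cases z <;> interval_cases y <;> interval_cases x <;>
    first
      | omega
      | (interval_cases c <;> first | omega | decide +kernel)

theorem XC_le {a b c x y z : ℕ} (h : Sd [a, b, c, x, y, z]) (h3 : x + y + z ≤ 6)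
    (h5 : c ≤ x + 5) (hab : b + 4 ≤ a) (hbc : c + 4 ≤ b) : XC [a, b, c, x, y, z] ≤ 27 := by
  have hS := h
  simp only [sd_cons, List.mem_cons, List.not_mem_nil, or_false, forall_eq_or_imp, forall_eq] at hS
  obtain ⟨⟨s1, -⟩, ⟨s2, -⟩, ⟨s3, -⟩, ⟨s4, -⟩, s5, -⟩ := hS
  have h0 : Sd [c + 8, c + 4, c, x, y, z] := by
    have h' := h
    simp only [sd_cons, List.mem_cons, List.not_mem_nil, or_false, forall_eq_or_imp, forall_eq] at h' ⊢
    obtain ⟨-, -, h''⟩ := h'
    refine ⟨⟨?_, ?_, ?_, ?_, ?_⟩, ⟨?_, ?_, ?_, ?_⟩, h''⟩ <;> omega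
  have hr := XC_rel (s := a - (c + 8)) (u := b - (c + 4)) (by omega) (c + 8) (c + 4) [c, x, y, z] rfl
    h0 (by omega) (by
      simp only [List.mem_cons, List.not_mem_nil, or_false, forall_eq_or_imp, forall_eq]
      omega) (by omega)
  have e1 : c + 8 + (a - (c + 8)) = a := by omega
  have e2 : c + 4 + (b - (c + 4)) = b := by omega
  rw [e1, e2, zero_mul, add_zero] at hr
  rw [hr]
  exact XC_le_base s5 s4 h3 s3 h5

/-- Shift by 24,12. -/
theorem M6_shift_d {a b c x y z : ℕ} (h : Sd [a, b, c, x, y, z]) (h3 : x + y + z ≤ 6)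
    (h5 : c ≤ x + 5) (hab : b + 4 ≤ a) (hbc : c + 4 ≤ b) :
    M6 [a + 24, b + 12, c, x, y, z] ≤ M6 [a, b, c, x, y, z] + 324 := by
  have hS := h
  simp only [sd_cons, List.mem_cons, List.not_mem_nil, or_false, forall_eq_or_imp, forall_eq] at hS
  obtain ⟨⟨s1, -⟩, ⟨s2, -⟩, ⟨s3, -⟩, ⟨s4, -⟩, s5, -⟩ := hS
  have hr := M6_rel a b [c, x, y, z] rfl h (by omega) (by
      simp only [List.mem_cons, List.not_mem_nil, or_false, forall_eq_or_imp, forall_eq]
      omega) (by omega)
  rw [hr]
  have := XC_le h h3 h5 hab hbc
  omega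

theorem ins_drop (y k : ℕ) (q : List ℕ) (h : ∀ z ∈ q, z ≤ y + k) (d : ℕ) :
    ∀ t ∈ ins y q, (q.drop d).sum ≤ (t.2.drop (d + 1)).sum + k := by
  induction q generalizing d with
  | nil => intro t _; simp
  | cons z zs ih =>
    intro t ht
    simp only [ins] at ht
    split_ifs at ht with h1 h2
    · simp only [List.mem_singleton] at ht
      subst ht
      simp
    · simp at ht
    · rw [List.mem_map] at ht
      obtain ⟨t', ht', rfl⟩ := ht
      cases d with
      | zero =>
        simp only [List.drop_zero, zero_add, List.drop_succ_cons, List.sum_cons]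
        have h3 : t'.2.sum = y + zs.sum := by
          clear ih
          have : ∀ (q : List ℕ), ∀ t ∈ ins y q, t.2.sum = y + q.sum := by
            intro q
            induction q with
            | nil =>
              intro t ht
              simp only [ins, List.mem_singleton] at ht
              subst ht
              simp
            | cons w ws ih =>
              intro t ht
              simp only [ins] at ht
              split_ifs at ht with g1 g2
              · simp only [List.mem_singleton] at ht
                subst ht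
                simp
              · simp at ht
              · rw [List.mem_map] at ht
                obtain ⟨t'', ht'', rfl⟩ := ht
                simp only [List.sum_cons, ih t'' ht'']
                ring
          exact this zs t' ht'
        have := h z (by simp)
        omega
      | succ d =>
        simp only [List.drop_succ_cons]
        exact ih (fun z' hz' => h z' (by simp [hz'])) d t' ht'

theorem mv_drop (k : ℕ) (q : List ℕ) (hq : Sd q) (d : ℕ) :
    ∀ t ∈ mv k q, (q.drop d).sum ≤ (t.2.drop d).sum + k := by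
  induction q generalizing d with
  | nil => intro t ht; simp [mv] at ht
  | cons x xs ih =>
    intro t ht
    cases d with
    | zero =>
      have := (mv_sd k (x :: xs) hq t ht).2.1
      simp only [List.drop_zero]
      omega
    | succ d =>
      rw [sd_cons] at hq
      simp only [mv, List.mem_append] at ht
      rcases ht with ht | ht
      · split_ifs at ht with h
        · simp only [List.drop_succ_cons]
          exact ins_drop (x - k) k xs (fun z hz => by have := hq.1 z hz; omega) d t ht
        · simp at ht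
      · rw [List.mem_map] at ht
        obtain ⟨t', ht', rfl⟩ := ht
        simp only [List.drop_succ_cons]
        exact ih hq.2 d t' ht'

theorem ev_zero {A : List ℕ → ℤ} {L : List (Bool × List ℕ)} (h : ∀ t ∈ L, A t.2 = 0) :
    ev A L = 0 := by
  induction L with
  | nil => rfl
  | cons t ts ih =>
    simp only [ev]
    rw [h t (by simp), ih (fun t' ht' => h t' (by simp [ht']))]
    simp

/-- Vanishing for tails of size more than three. -/
theorem M6_zero {l : List ℕ} (hl : l.length = 6) (hs : Sd l) (h : 7 ≤ (l.drop 3).sum) :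
    M6 l = 0 := by
  have key : ∀ l : List ℕ, l.length = 6 → Sd l → 4 ≤ (l.drop 3).sum →
      LK l = 0 ∧ L2 l = 0 ∧ L3 l = 0 := by
    intro l hl hs h
    match l, hl with
    | [a, b, c, x, y, z], _ =>
      obtain ⟨s1, s2, s3, s4, s5⟩ : b < a ∧ c < b ∧ x < c ∧ y < x ∧ z < y := by
        simp only [sd_cons, List.mem_cons, List.not_mem_nil, or_false, forall_eq_or_imp,
          forall_eq] at hs
        exact ⟨hs.1.1, hs.2.1.1, hs.2.2.1.1, hs.2.2.2.1.1, hs.2.2.2.2.1⟩
      simp only [List.drop_succ_cons, List.drop_zero, List.sum_cons, List.sum_nil] at h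
      have hx : x ≠ 2 := by omega
      simp [LK, L2, L3, hx]
  have st : ∀ (k : ℕ) (l : List ℕ), l.length = 6 → Sd l → ∀ t ∈ mv k l,
      t.2.length = 6 ∧ Sd t.2 ∧ (l.drop 3).sum ≤ (t.2.drop 3).sum + k := fun k l h1 h2 t ht =>
    ⟨(mv_length k l t ht).trans h1, (mv_sd k l h2 t ht).1, mv_drop k l h2 3 t ht⟩
  unfold M6
  have e1 : ev (fun l1 => ev (fun l2 => ev LK (mv 1 l2)) (mv 1 l1)) (mv 1 l) = 0 := by
    apply ev_zero
    intro t ht
    obtain ⟨b1, b2, b3⟩ := st 1 l hl hs t ht
    apply ev_zero
    intro t' ht'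
    obtain ⟨c1, c2, c3⟩ := st 1 _ b1 b2 t' ht'
    apply ev_zero
    intro t'' ht''
    obtain ⟨d1, d2, d3⟩ := st 1 _ c1 c2 t'' ht''
    exact (key _ d1 d2 (by omega)).1
  have e2 : ev (fun l1 => ev L2 (mv 1 l1)) (mv 2 l) = 0 := by
    apply ev_zero
    intro t ht
    obtain ⟨b1, b2, b3⟩ := st 2 l hl hs t ht
    apply ev_zero
    intro t' ht'
    obtain ⟨c1, c2, c3⟩ := st 1 _ b1 b2 t' ht'
    exact (key _ c1 c2 (by omega)).2.1
  have e3 : ev L3 (mv 3 l) = 0 := by
    apply ev_zero
    intro t ht
    obtain ⟨b1, b2, b3⟩ := st 3 l hl hs t ht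
    exact (key _ b1 b2 (by omega)).2.2
  rw [e1, e2, e3]
  ring

end Pool.Agent.Lib.MP_a688ad_al
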