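import Pool.Agent.Lib.MP_a688ad_al.Chr

/-!
# Superadditivity of the coefficients of `h_n[h_1 h_2]`
-/

set_option autoImplicit false

open MvPolynomial Finset

namespace Pool.Agent.Lib.MP_a688ad_al

section LM

open scoped Pointwise

variable {σ : Type*} (m : MonomialOrder σ)

/-- The leading exponents of the elements of a space of polynomials. -/
def LM (X : Submodule ℂ (MvPolynomial σ ℂ)) : Set m.syn :=
  {a | ∃ f ∈ X, f ≠ 0 ∧ m.toSyn (m.degree f) = a}

theorem linInd_LM (S : Finset m.syn) (f : m.syn → MvPolynomial σ ℂ)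
    (hf : ∀ a ∈ S, f a ≠ 0 ∧ m.toSyn (m.degree (f a)) = a) :
    LinearIndependent ℂ (fun a : S => f a) := by
  classical
  rw [linearIndependent_iff']
  intro s g hg
  by_contra hcon
  push Not at hcon
  obtain ⟨i0, hi0, hgi0⟩ := hcon
  have hne : (s.filter (fun i => g i ≠ 0)).Nonempty := ⟨i0, by simp [hi0, hgi0]⟩
  obtain ⟨i, hi, hmax⟩ := Finset.exists_max_image _ (fun i : S => (i : m.syn)) hne
  rw [Finset.mem_filter] at hi
  have h1 := congrArg (coeff (m.degree (f i))) hg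
  rw [coeff_sum, Finset.sum_eq_single i] at h1
  · rw [coeff_smul, smul_eq_mul, coeff_zero, mul_eq_zero] at h1
    rcases h1 with h1 | h1
    · exact hi.2 h1
    · exact (m.coeff_degree_ne_zero_iff.2 (hf i i.2).1) h1
  · intro j hj hji
    rw [coeff_smul, smul_eq_mul]
    by_cases hgj : g j = 0
    · rw [hgj, zero_mul]
    · rw [m.coeff_eq_zero_of_lt, mul_zero]
      show m.toSyn (m.degree (f j)) < m.toSyn (m.degree (f i))
      rw [(hf j j.2).2, (hf i i.2).2]
      refine lt_of_le_of_ne (hmax j (by simp [hj, hgj])) ?_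
      intro h
      exact hji (Subtype.ext h)
  · intro h; exact absurd hi.1 h

theorem card_le_LM (X : Submodule ℂ (MvPolynomial σ ℂ)) [FiniteDimensional ℂ X] (S : Finset m.syn)
    (hS : ∀ a ∈ S, a ∈ LM m X) : S.card ≤ Module.finrank ℂ X := by
  classical
  have h1 : ∀ a : m.syn, ∃ f : MvPolynomial σ ℂ, a ∈ S → (f ∈ X ∧ f ≠ 0 ∧ m.toSyn (m.degree f) = a) := by
    intro a
    by_cases ha : a ∈ S
    · obtain ⟨f, hf⟩ := hS a ha
      exact ⟨f, fun _ => hf⟩
    · exact ⟨0, fun h => absurd h ha⟩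
  choose f hf using h1
  have h2 := linInd_LM m S f (fun a ha => (hf a ha).2)
  have h3 : LinearIndependent ℂ (fun a : S => (⟨f a, (hf a a.2).1⟩ : X)) := by
    apply LinearIndependent.of_comp X.subtype
    exact h2
  have h4 := h3.fintype_card_le_finrank
  simpa using h4

theorem finite_LM (X : Submodule ℂ (MvPolynomial σ ℂ)) [FiniteDimensional ℂ X] :
    (LM m X).Finite := by
  by_contra h
  obtain ⟨S, hS, hc⟩ := Set.Infinite.exists_subset_card_eq h (Module.finrank ℂ X + 1)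
  have := card_le_LM m X S (fun a ha => hS ha)
  omega

theorem le_card_LM (X : Submodule ℂ (MvPolynomial σ ℂ)) (S : Finset m.syn)
    (hS : ∀ a ∈ LM m X, a ∈ S) : Module.finrank ℂ X ≤ S.card := by
  classical
  let φ : X →ₗ[ℂ] (S → ℂ) :=
    { toFun := fun f a => coeff (m.toSyn.symm a) (f : MvPolynomial σ ℂ)
      map_add' := fun f g => by ext a; simp
      map_smul' := fun c f => by ext a; simp }
  have hφ : Function.Injective φ := by
    rw [injective_iff_map_eq_zero]
    intro f hf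
    by_contra h0
    have h1 : (f : MvPolynomial σ ℂ) ≠ 0 := fun h => h0 (Subtype.ext h)
    have h2 : m.toSyn (m.degree (f : MvPolynomial σ ℂ)) ∈ S := hS _ ⟨f, f.2, h1, rfl⟩
    have h3 := congrFun hf ⟨_, h2⟩
    have h4 : coeff (m.toSyn.symm (m.toSyn (m.degree (f : MvPolynomial σ ℂ)))) (f : MvPolynomial σ ℂ)
      = 0 := h3
    rw [AddEquiv.symm_apply_apply] at h4
    exact (m.coeff_degree_ne_zero_iff.2 h1) h4
  have h5 := LinearMap.finrank_le_finrank_of_injective hφ
  simpa using h5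

end LM

theorem dim_mul {σ : Type*} [Finite σ] (X Y Z : Submodule ℂ (MvPolynomial σ ℂ))
    [FiniteDimensional ℂ X] [FiniteDimensional ℂ Y] [FiniteDimensional ℂ Z] (hX : X ≠ ⊥) (hY : Y ≠ ⊥)
    (h : ∀ f ∈ X, ∀ g ∈ Y, f * g ∈ Z) :
    Module.finrank ℂ X + Module.finrank ℂ Y ≤ Module.finrank ℂ Z + 1 := by
  classical
  open scoped Pointwise in
  obtain ⟨N, ⟨e⟩⟩ := Finite.exists_equiv_fin σ
  let _ : LinearOrder σ := LinearOrder.lift' e e.injective
  let m : MonomialOrder σ := MonomialOrder.lex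
  have fX := finite_LM m X
  have fY := finite_LM m Y
  have h1 := le_card_LM m X fX.toFinset (fun a ha => by simpa using ha)
  have h2 := le_card_LM m Y fY.toFinset (fun a ha => by simpa using ha)
  have nX : fX.toFinset.Nonempty := by
    obtain ⟨f, hf, hf0⟩ := Submodule.exists_mem_ne_zero_of_ne_bot hX
    exact ⟨m.toSyn (m.degree f), by simpa using ⟨f, hf, hf0, rfl⟩⟩
  have nY : fY.toFinset.Nonempty := by
    obtain ⟨f, hf, hf0⟩ := Submodule.exists_mem_ne_zero_of_ne_bot hY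
    exact ⟨m.toSyn (m.degree f), by simpa using ⟨f, hf, hf0, rfl⟩⟩
  have h3 := cauchy_davenport_add_of_linearOrder_isCancelAdd nX nY
  have h4 := card_le_LM m Z (fX.toFinset + fY.toFinset) (by
    intro a ha
    rw [Finset.mem_add] at ha
    obtain ⟨b, hb, c, hc, rfl⟩ := ha
    rw [Set.Finite.mem_toFinset] at hb hc
    obtain ⟨f, hf, hf0, rfl⟩ := hb
    obtain ⟨g, hg, hg0, rfl⟩ := hc
    exact ⟨f * g, h f hf g hg, mul_ne_zero hf0 hg0, by rw [m.degree_mul hf0 hg0, map_add]⟩)
  have := nX.card_pos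
  have := nY.card_pos
  omega

variable {r : ℕ}

instance (n : ℕ) (lam : Fin r → ℤ) : FiniteDimensional ℂ ((Gl r n).HW lam) := by
  have h : (Gl r n).HW lam ≤ (Gl r n).G lam := fun v hv => hv.1
  exact Submodule.finiteDimensional_of_le h

theorem HW_mul {n k : ℕ} {lam mu : Fin r → ℤ} {f g : MvPolynomial (Ix r) ℂ}
    (hf : f ∈ (Gl r n).HW lam) (hg : g ∈ (Gl r k).HW mu) : f * g ∈ (Gl r (n + k)).HW (lam + mu) := by
  refine ⟨?_, fun i j hij => ?_⟩
  · have h1 : IsWeightedHomogeneous WT f (lam, (n : ℤ)) := hf.1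
    have h2 : IsWeightedHomogeneous WT g (mu, (k : ℤ)) := hg.1
    have h3 := h1.mul h2
    have e : ((lam, (n : ℤ)) : (Fin r → ℤ) × ℤ) + (mu, (k : ℤ)) = (lam + mu, ((n + k : ℕ) : ℤ)) := by
      rw [Prod.mk_add_mk]; push_cast; rfl
    rw [e] at h3
    exact h3
  · have h1 : DE i j f = 0 := hf.2 i j hij
    have h2 : DE i j g = 0 := hg.2 i j hij
    show DE i j (f * g) = 0
    rw [Derivation.leibniz, h1, h2, smul_zero, smul_zero, add_zero]

/-- Nonnegativity. -/
theorem schurCoeff_nonneg (n : ℕ) {lam : Fin r → ℕ} (hl : Antitone lam) (hd : ∑ i, lam i = 3 * n) :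
    0 ≤ schurCoeff (pleth r n 3) lam := by
  rw [schurCoeff_HW n hl hd]
  exact Int.natCast_nonneg _

/-- **Superadditivity.** -/
theorem schurCoeff_super {n k : ℕ} {lam mu : Fin r → ℕ} (hl : Antitone lam) (hm : Antitone mu)
    (hd : ∑ i, lam i = 3 * n) (hk : ∑ i, mu i = 3 * k)
    (h1 : 0 < schurCoeff (pleth r n 3) lam) (h2 : 0 < schurCoeff (pleth r k 3) mu) :
    schurCoeff (pleth r n 3) lam + schurCoeff (pleth r k 3) mu
      ≤ schurCoeff (pleth r (n + k) 3) (lam + mu) + 1 := by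
  have hs : ∑ i, (lam + mu) i = 3 * (n + k) := by
    simp only [Pi.add_apply, Finset.sum_add_distrib, hd, hk]
    ring
  have hlm : Antitone (lam + mu) := hl.add hm
  rw [schurCoeff_HW n hl hd, schurCoeff_HW k hm hk, schurCoeff_HW (n + k) hlm hs]
  rw [schurCoeff_HW n hl hd] at h1
  rw [schurCoeff_HW k hm hk] at h2
  have e : (fun i => (((lam + mu) i : ℕ) : ℤ)) = (fun i => (lam i : ℤ)) + (fun i => (mu i : ℤ)) := by
    ext i; simp
  rw [e]
  have h3 := dim_mul ((Gl r n).HW (fun i => (lam i : ℤ))) ((Gl r k).HW (fun i => (mu i : ℤ)))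
    ((Gl r (n + k)).HW ((fun i => (lam i : ℤ)) + (fun i => (mu i : ℤ))))
    (by intro h; rw [h] at h1; simp at h1) (by intro h; rw [h] at h2; simp at h2)
    (fun f hf g hg => HW_mul hf hg)
  exact_mod_cast h3

end Pool.Agent.Lib.MP_a688ad_al
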