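import Pool.Agent.Lib.MP_a688ad_al.Fast
import Pool.Agent.Lib.MP_a688ad_al.Shift2
import Pool.Agent.Lib.MP_a688ad_al.Super

/-!
# The finite check
-/

set_option autoImplicit false

open Finset

namespace Pool.Agent.Lib.MP_a688ad_al

theorem co6_eq (n : ℕ) {a b c x y z : ℕ} (h : S6 a b c x y z) :
    co 6 n [a, b, c, x, y, z] = schurCoeff (pleth 6 n 3) ![a - 5, b - 4, c - 3, x - 2, y - 1, z] := by
  obtain ⟨h1, h2, h3, h4, h5⟩ := h
  rw [schurCoeff_eq]
  unfold co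
  congr 1
  ext i
  have r0 : rho 6 0 = 5 := rfl
  have r1 : rho 6 1 = 4 := rfl
  have r2 : rho 6 2 = 3 := rfl
  have r3 : rho 6 3 = 2 := rfl
  have r4 : rho 6 4 = 1 := rfl
  have r5 : rho 6 5 = 0 := rfl
  fin_cases i
  · show ((a : ℕ) : ℤ) = ((a - 5 : ℕ) : ℤ) + ((rho 6 0 : ℕ) : ℤ)
    rw [r0]; omega
  · show ((b : ℕ) : ℤ) = ((b - 4 : ℕ) : ℤ) + ((rho 6 1 : ℕ) : ℤ)
    rw [r1]; omega
  · show ((c : ℕ) : ℤ) = ((c - 3 : ℕ) : ℤ) + ((rho 6 2 : ℕ) : ℤ)
    rw [r2]; omega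
  · show ((x : ℕ) : ℤ) = ((x - 2 : ℕ) : ℤ) + ((rho 6 3 : ℕ) : ℤ)
    rw [r3]; omega
  · show ((y : ℕ) : ℤ) = ((y - 1 : ℕ) : ℤ) + ((rho 6 4 : ℕ) : ℤ)
    rw [r4]; omega
  · show ((z : ℕ) : ℤ) = ((z : ℕ) : ℤ) + ((rho 6 5 : ℕ) : ℤ)
    rw [r5]; omega

theorem antitone6 {p1 p2 p3 p4 p5 p6 : ℕ} (h1 : p2 ≤ p1) (h2 : p3 ≤ p2) (h3 : p4 ≤ p3) (h4 : p5 ≤ p4)
    (h5 : p6 ≤ p5) : Antitone ![p1, p2, p3, p4, p5, p6] := by
  rw [Fin.antitone_iff_succ_le]
  intro i
  fin_cases i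
  · exact h1
  · exact h2
  · exact h3
  · exact h4
  · exact h5

theorem sum6 (p1 p2 p3 p4 p5 p6 : ℕ) : ∑ i, (![p1, p2, p3, p4, p5, p6] : Fin 6 → ℕ) i
    = p1 + p2 + p3 + p4 + p5 + p6 := by
  simp [Fin.sum_univ_six]

theorem co6_nonneg {n a b c x y z : ℕ} (h : S6 a b c x y z) (hs : a + b + c + x + y + z = 3 * n + 15) :
    0 ≤ co 6 n [a, b, c, x, y, z] := by
  rw [co6_eq n h]
  obtain ⟨h1, h2, h3, h4, h5⟩ := h
  apply schurCoeff_nonneg
  · exact antitone6 (by omega) (by omega) (by omega) (by omega) (by omega)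
  · rw [sum6]; omega

theorem co6_super {n k a b c x y z d1 d2 d3 d4 d5 d6 : ℕ} (h : S6 a b c x y z)
    (hs : a + b + c + x + y + z = 3 * n + 15)
    (e1 : d2 ≤ d1) (e2 : d3 ≤ d2) (e3 : d4 ≤ d3) (e4 : d5 ≤ d4) (e5 : d6 ≤ d5)
    (hd : d1 + d2 + d3 + d4 + d5 + d6 = 3 * k)
    (p1 : 0 < co 6 n [a, b, c, x, y, z])
    (p2 : 0 < co 6 k [d1 + 5, d2 + 4, d3 + 3, d4 + 2, d5 + 1, d6]) :
    co 6 n [a, b, c, x, y, z] + co 6 k [d1 + 5, d2 + 4, d3 + 3, d4 + 2, d5 + 1, d6]
      ≤ co 6 (n + k) [a + d1, b + d2, c + d3, x + d4, y + d5, z + d6] + 1 := by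
  obtain ⟨h1, h2, h3, h4, h5⟩ := h
  have g1 : S6 a b c x y z := ⟨h1, h2, h3, h4, h5⟩
  have g2 : S6 (d1 + 5) (d2 + 4) (d3 + 3) (d4 + 2) (d5 + 1) d6 :=
    ⟨by omega, by omega, by omega, by omega, by omega⟩
  have g3 : S6 (a + d1) (b + d2) (c + d3) (x + d4) (y + d5) (z + d6) :=
    ⟨by omega, by omega, by omega, by omega, by omega⟩
  rw [co6_eq n g1] at p1 ⊢
  rw [co6_eq k g2] at p2 ⊢
  rw [co6_eq (n + k) g3]
  have key := schurCoeff_super (n := n) (k := k)
    (antitone6 (p1 := a - 5) (p2 := b - 4) (p3 := c - 3) (p4 := x - 2) (p5 := y - 1) (p6 := z)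
      (by omega) (by omega) (by omega) (by omega) (by omega))
    (antitone6 (p1 := d1 + 5 - 5) (p2 := d2 + 4 - 4) (p3 := d3 + 3 - 3) (p4 := d4 + 2 - 2)
      (p5 := d5 + 1 - 1) (p6 := d6) (by omega) (by omega) (by omega) (by omega) (by omega))
    (by rw [sum6]; omega) (by rw [sum6]; omega) p1 p2
  have e : (![a - 5, b - 4, c - 3, x - 2, y - 1, z] + ![d1 + 5 - 5, d2 + 4 - 4, d3 + 3 - 3, d4 + 2 - 2,
      d5 + 1 - 1, d6] : Fin 6 → ℕ) = ![a + d1 - 5, b + d2 - 4, c + d3 - 3, x + d4 - 2, y + d5 - 1,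
      z + d6] := by
    ext i
    fin_cases i
    · show a - 5 + (d1 + 5 - 5) = a + d1 - 5
      omega
    · show b - 4 + (d2 + 4 - 4) = b + d2 - 4
      omega
    · show c - 3 + (d3 + 3 - 3) = c + d3 - 3
      omega
    · show x - 2 + (d4 + 2 - 2) = x + d4 - 2
      omega
    · show y - 1 + (d5 + 1 - 1) = y + d5 - 1
      omega
    · rfl
  rw [e] at key
  exact key

/-- The tables. -/
def tS : ℕ → Tr
  | 1 => tS1
  | 2 => tS2
  | 3 => tS3
  | 4 => tS4
  | 5 => tS5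
  | 6 => tS6
  | _ => .nil

theorem good_tS (n : ℕ) : Good 6 n (tS n) := by
  match n with
  | 0 => intro l _ _ _ v hv; simp [tS, Tr.look] at hv
  | 1 => exact good_tS1
  | 2 => exact good_tS2
  | 3 => exact good_tS3
  | 4 => exact good_tS4
  | 5 => exact good_tS5
  | 6 => exact good_tS6
  | n + 7 => intro l _ _ _ v hv; simp [tS, Tr.look] at hv

theorem co6_look {n a b c x y z v : ℕ} (h : S6 a b c x y z) (hs : a + b + c + x + y + z = 3 * n + 15)
    (hn : n ≤ 6) (hv : (tS n).look (enc [a, b, c, x, y, z]) = some v) :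
    co 6 n [a, b, c, x, y, z] = v := by
  refine good_tS n _ rfl (S6_Sd h) ?_ v hv
  obtain ⟨h1, h2, h3, h4, h5⟩ := h
  intro w hw
  simp only [List.mem_cons, List.not_mem_nil, or_false] at hw
  rcases hw with rfl | rfl | rfl | rfl | rfl | rfl <;> omega

/-- Six times a lower bound for the coefficient. -/
def val6 (n a b c x y z : ℕ) : ℤ :=
  cond (Nat.ble n 6)
    (match (tS n).look (enc [a, b, c, x, y, z]) with
      | some v => ((6 * v : ℕ) : ℤ)
      | none => 0)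
    (cond (Nat.ble 4 c) (M6f a b c x y z) 0)

/-- One candidate for the decomposition. -/
structure Dl where
  k : ℕ
  d1 : ℕ
  d2 : ℕ
  d3 : ℕ
  d4 : ℕ
  v : ℕ

/-- Test of one candidate. -/
def tryd (n a b c x y z : ℕ) (need : ℤ) (d : Dl) : Bool :=
  Nat.ble (d.k + 1) n && (Nat.ble d.d4 x && (Nat.ble (b - d.d2 + 1) (a - d.d1) &&
  (Nat.ble (c - d.d3 + 1) (b - d.d2) && (Nat.ble (x - d.d4 + 1) (c - d.d3) && (Nat.ble (y + 1) (x - d.d4) &&
  (decide (0 < val6 (n - d.k) (a - d.d1) (b - d.d2) (c - d.d3) (x - d.d4) y z) &&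
    decide (need ≤ val6 (n - d.k) (a - d.d1) (b - d.d2) (c - d.d3) (x - d.d4) y z + 6 * (d.v - 1))))))))

/-- A correct candidate. -/
def Dl.ok (d : Dl) : Prop :=
  d.d2 ≤ d.d1 ∧ d.d3 ≤ d.d2 ∧ d.d4 ≤ d.d3 ∧ d.d1 + d.d2 + d.d3 + d.d4 = 3 * d.k ∧ 0 < d.v ∧
    ((d.v : ℕ) : ℤ) ≤ co 6 d.k [d.d1 + 5, d.d2 + 4, d.d3 + 3, d.d4 + 2, 1, 0]

/-- The inequality for one bead list. -/
def Ineq (n : ℕ) (a b c x y z : ℕ) : Prop := M6 [a, b, c, x, y, z] ≤ 6 * co 6 n [a, b, c, x, y, z]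

/-- The inequality for all bead lists of level `n`. -/
def Lev (n : ℕ) : Prop := ∀ a b c x y z : ℕ, S6 a b c x y z → a + b + c + x + y + z = 3 * n + 15 →
  4 ≤ c → Ineq n a b c x y z

theorem val6_spec {n a b c x y z : ℕ} (h : S6 a b c x y z) (hs : a + b + c + x + y + z = 3 * n + 15)
    (hL : 6 < n → Lev n) (hp : 0 < val6 n a b c x y z) :
    val6 n a b c x y z ≤ 6 * co 6 n [a, b, c, x, y, z] := by
  unfold val6 at hp ⊢
  rw [cond_ble] at hp ⊢
  split_ifs at hp ⊢ with hn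
  · cases hv : (tS n).look (enc [a, b, c, x, y, z]) with
    | none => rw [hv] at hp; simp at hp
    | some v =>
      rw [co6_look h hs hn hv]
      push_cast
      omega
  · rw [cond_ble] at hp ⊢
    split_ifs at hp ⊢ with hc
    · rw [← M6_eq h]
      exact hL (by omega) a b c x y z h hs hc
    · exact absurd hp (lt_irrefl _)

theorem tryd_spec {n a b c x y z : ℕ} {need : ℤ} {d : Dl} (h : S6 a b c x y z)
    (hs : a + b + c + x + y + z = 3 * n + 15) (hL : ∀ m, 6 < m → m < n → Lev m) (hd : d.ok)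
    (hk : 0 < d.k)
    (ht : tryd n a b c x y z need d = true) : need ≤ 6 * co 6 n [a, b, c, x, y, z] := by
  unfold tryd at ht
  simp only [Bool.and_eq_true, Nat.ble_eq, decide_eq_true_eq] at ht
  obtain ⟨t1, t2, t3, t4, t5, t6, t7, t8⟩ := ht
  obtain ⟨o1, o2, o3, o4, o5, o6⟩ := hd
  obtain ⟨h1, h2, h3, h4, h5⟩ := h
  have g1 : S6 (a - d.d1) (b - d.d2) (c - d.d3) (x - d.d4) y z := ⟨t3, t4, t5, t6, h5⟩
  have g2 : (a - d.d1) + (b - d.d2) + (c - d.d3) + (x - d.d4) + y + z = 3 * (n - d.k) + 15 := by omega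
  have g3 := val6_spec g1 g2 (fun h' => hL _ h' (by omega)) t7
  have g4 := co6_super (n := n - d.k) (k := d.k) g1 g2 o1 o2 o3 (Nat.zero_le _) le_rfl
    (by omega : d.d1 + d.d2 + d.d3 + d.d4 + 0 + 0 = 3 * d.k) (by omega) (by
      have : (0 : ℤ) < d.v := by exact_mod_cast o5
      exact lt_of_lt_of_le this o6)
  have e0 : n - d.k + d.k = n := by omega
  have e1 : a - d.d1 + d.d1 = a := by omega
  have e2 : b - d.d2 + d.d2 = b := by omega
  have e3 : c - d.d3 + d.d3 = c := by omega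
  have e4 : x - d.d4 + d.d4 = x := by omega
  simp only [e0, e1, e2, e3, e4, add_zero, zero_add] at g4
  omega

/-- The list of candidates. -/
def dls : List Dl := [⟨4, 6, 6, 0, 0, 3⟩, ⟨6, 11, 6, 1, 0, 32⟩, ⟨12, 24, 12, 0, 0, 57⟩,
  ⟨2, 2, 2, 2, 0, 1⟩, ⟨2, 4, 2, 0, 0, 3⟩, ⟨8, 16, 8, 0, 0, 24⟩, ⟨5, 8, 5, 1, 1, 25⟩,
  ⟨3, 4, 4, 1, 0, 4⟩, ⟨9, 16, 11, 0, 0, 24⟩, ⟨1, 2, 1, 0, 0, 1⟩]

theorem co_two (n a b : ℕ) (h : 4 ≤ b) (hab : b < a) :
    co 6 n [a, b, 3, 2, 1, 0] = co 2 n [a - 4, b - 4] := by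
  obtain ⟨a, rfl⟩ : ∃ a', a = a' + 4 := ⟨a - 4, by omega⟩
  obtain ⟨b, rfl⟩ : ∃ b', b = b' + 4 := ⟨b - 4, by omega⟩
  have h1 := altc_st_vec (pleth 6 n 3) (l := [a + 3, b + 3, 2, 1, 0]) rfl
  have h2 := altc_st_vec (pleth 5 n 3) (l := [a + 2, b + 2, 1, 0]) rfl
  have h3 := altc_st_vec (pleth 4 n 3) (l := [a + 1, b + 1, 0]) rfl
  have h4 := altc_st_vec (pleth 3 n 3) (l := [a, b]) rfl
  simp only [List.map_cons, List.map_nil, List.cons_append, List.nil_append, st_pleth] at h1 h2 h3 h4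
  unfold co
  rw [Nat.add_sub_cancel, Nat.add_sub_cancel]
  exact h1.trans (h2.trans (h3.trans h4))

theorem dls_ok : ∀ d ∈ dls, d.ok ∧ 0 < d.k := by
  have hv : ∀ {n a b c x y z v : ℕ}, S6 a b c x y z → a + b + c + x + y + z = 3 * n + 15 → n ≤ 6 →
      (tS n).look (enc [a, b, c, x, y, z]) = some v → co 6 n [a, b, c, x, y, z] = v :=
    fun h1 h2 h3 h4 => co6_look h1 h2 h3 h4
  have h2 : ∀ {n a b v : ℕ} {T : Tr}, Good 2 n T → b < a → a < 64 →
      T.look (enc [a, b]) = some v → co 2 n [a, b] = v := by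
    intro n a b v T hT hab ha hl
    refine hT [a, b] rfl ?_ ?_ v hl
    · simp [sd_cons, hab, Sd]
    · intro w hw
      simp only [List.mem_cons, List.not_mem_nil, or_false] at hw
      rcases hw with rfl | rfl <;> omega
  intro d hd
  simp only [dls, List.mem_cons, List.not_mem_nil, or_false] at hd
  rcases hd with rfl | rfl | rfl | rfl | rfl | rfl | rfl | rfl | rfl | rfl
  · refine ⟨⟨by decide, by decide, by decide, by decide, by decide, ?_⟩, by decide⟩
    exact (hv (by unfold S6; decide) (by norm_num) (by norm_num) (by decide +kernel)).ge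
  · refine ⟨⟨by decide, by decide, by decide, by decide, by decide, ?_⟩, by decide⟩
    exact (hv (by unfold S6; decide) (by norm_num) (by norm_num) (by decide +kernel)).ge
  · refine ⟨⟨by decide, by decide, by decide, by decide, by decide, ?_⟩, by decide⟩
    show ((57 : ℕ) : ℤ) ≤ co 6 12 [29, 16, 3, 2, 1, 0]
    rw [co_two 12 29 16 (by norm_num) (by norm_num)]
    exact (h2 good_tD12 (by norm_num) (by norm_num) (by decide +kernel)).ge
  · refine ⟨⟨by decide, by decide, by decide, by decide, by decide, ?_⟩, by decide⟩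
    exact (hv (by unfold S6; decide) (by norm_num) (by norm_num) (by decide +kernel)).ge
  · refine ⟨⟨by decide, by decide, by decide, by decide, by decide, ?_⟩, by decide⟩
    exact (hv (by unfold S6; decide) (by norm_num) (by norm_num) (by decide +kernel)).ge
  · refine ⟨⟨by decide, by decide, by decide, by decide, by decide, ?_⟩, by decide⟩
    show ((24 : ℕ) : ℤ) ≤ co 6 8 [21, 12, 3, 2, 1, 0]
    rw [co_two 8 21 12 (by norm_num) (by norm_num)]
    exact (h2 good_tD8 (by norm_num) (by norm_num) (by decide +kernel)).ge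
  · refine ⟨⟨by decide, by decide, by decide, by decide, by decide, ?_⟩, by decide⟩
    exact (hv (by unfold S6; decide) (by norm_num) (by norm_num) (by decide +kernel)).ge
  · refine ⟨⟨by decide, by decide, by decide, by decide, by decide, ?_⟩, by decide⟩
    exact (hv (by unfold S6; decide) (by norm_num) (by norm_num) (by decide +kernel)).ge
  · refine ⟨⟨by decide, by decide, by decide, by decide, by decide, ?_⟩, by decide⟩
    show ((24 : ℕ) : ℤ) ≤ co 6 9 [21, 15, 3, 2, 1, 0]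
    rw [co_two 9 21 15 (by norm_num) (by norm_num)]
    exact (h2 good_tD9 (by norm_num) (by norm_num) (by decide +kernel)).ge
  · refine ⟨⟨by decide, by decide, by decide, by decide, by decide, ?_⟩, by decide⟩
    exact (hv (by unfold S6; decide) (by norm_num) (by norm_num) (by decide +kernel)).ge

/-- Bounded universal quantifier. -/
def allN (f : ℕ → Bool) : ℕ → Bool
  | 0 => true
  | k + 1 => f k && allN f k

theorem allN_spec {f : ℕ → Bool} {k : ℕ} (h : allN f k = true) : ∀ j, j < k → f j = true := by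
  induction k with
  | zero => intro j hj; omega
  | succ k ih =>
    simp only [allN, Bool.and_eq_true] at h
    intro j hj
    rcases Nat.lt_succ_iff_lt_or_eq.1 hj with h1 | h1
    · exact ih h.2 j h1
    · rw [h1]; exact h.1

/-- Check of one bead list. -/
def chkl (n a b c x y z : ℕ) : Bool :=
  cond (Nat.ble n 18)
    (decide (M6f a b c x y z ≤ 0) || dls.any (tryd n a b c x y z (M6f a b c x y z)))
    (cond (decide (M6f a b c x y z ≤ 6)) (dls.any (tryd n a b c x y z 6))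
      (dls.any (tryd n a b c x y z (M6f a b c x y z))))

/-- Check of one level. -/
def chkn (n : ℕ) : Bool :=
  allN (fun x => allN (fun y => allN (fun z =>
    cond (Nat.ble (z + 1) y && (Nat.ble (y + 1) x && Nat.ble (x + y + z) 6))
      (allN (fun i => cond (Nat.ble 4 (x + 1 + i))
        (allN (fun b => cond (Nat.ble (x + 1 + i + 1) b
            && (Nat.ble (2 * b + (x + 1 + i) + x + y + z + 1) (3 * n + 15)
            && (!(Nat.ble b (n + 2) && Nat.ble (2 * b + (x + 1 + i) + x + y + z + 7) (3 * n + 15))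
            && !(Nat.ble (n + 8) b && Nat.ble (x + 1 + i + 10) b))))
          (chkl n (3 * n + 15 - (b + (x + 1 + i) + x + y + z)) b (x + 1 + i) x y z) true)
          (2 * n + 8)) true) 5) true) 2) 3) 6

/-- Check of one of the small levels. -/
def chk0 (n : ℕ) : Bool :=
  allN (fun x => allN (fun y => allN (fun z =>
    cond (Nat.ble (z + 1) y && (Nat.ble (y + 1) x && Nat.ble (x + y + z) 6))
      (allN (fun c => cond (Nat.ble (x + 1) c && Nat.ble 4 c)
        (allN (fun b => cond (Nat.ble (c + 1) b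
            && (Nat.ble (2 * b + c + x + y + z + 1) (3 * n + 15)))
          (decide (M6f (3 * n + 15 - (b + c + x + y + z)) b c x y z ≤ 0)
            || (match (tS n).look (enc [3 * n + 15 - (b + c + x + y + z), b, c, x, y, z]) with
              | some v => decide (M6f (3 * n + 15 - (b + c + x + y + z)) b c x y z ≤ ((6 * v : ℕ) : ℤ))
              | none => false)) true) (2 * n + 8)) true) (2 * n + 8)) true) 2) 3) 6

end Pool.Agent.Lib.MP_a688ad_al
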