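import Pool.Agent.Lib.MP_a688ad_al.Chk

/-!
# The finite check: part A
-/

set_option autoImplicit false
set_option maxRecDepth 100000

namespace Pool.Agent.Lib.MP_a688ad_al

theorem chk0_4 : chk0 4 = true := by decide +kernel

theorem chk0_5 : chk0 5 = true := by decide +kernel

theorem chk0_6 : chk0 6 = true := by decide +kernel

theorem chkn_7 : chkn 7 = true := by decide +kernel

theorem chkn_8 : chkn 8 = true := by decide +kernel

theorem chkn_9 : chkn 9 = true := by decide +kernel

theorem chkn_10 : chkn 10 = true := by decide +kernel

theorem chkn_11 : chkn 11 = true := by decide +kernel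

theorem chkn_12 : chkn 12 = true := by decide +kernel

theorem chkn_13 : chkn 13 = true := by decide +kernel

theorem chkn_14 : chkn 14 = true := by decide +kernel

end Pool.Agent.Lib.MP_a688ad_al
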