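import Pool.Agent.Lib.MP_a688ad_al.Chk

/-!
# The finite check: part B
-/

set_option autoImplicit false
set_option maxRecDepth 100000

namespace Pool.Agent.Lib.MP_a688ad_al

theorem chkn_15 : chkn 15 = true := by decide +kernel

theorem chkn_16 : chkn 16 = true := by decide +kernel

theorem chkn_17 : chkn 17 = true := by decide +kernel

theorem chkn_18 : chkn 18 = true := by decide +kernel

theorem chkn_19 : chkn 19 = true := by decide +kernel

end Pool.Agent.Lib.MP_a688ad_al
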