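import Pool.Agent.Lib.MP_a688ad_al.Chk

/-!
# The finite check: part C
-/

set_option autoImplicit false
set_option maxRecDepth 100000

namespace Pool.Agent.Lib.MP_a688ad_al

theorem chkn_20 : chkn 20 = true := by decide +kernel

theorem chkn_21 : chkn 21 = true := by decide +kernel

theorem chkn_22 : chkn 22 = true := by decide +kernel

theorem chkn_23 : chkn 23 = true := by decide +kernel

end Pool.Agent.Lib.MP_a688ad_al
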