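import Pool.Agent.Lib.MP_a688ad_al.Chk

/-!
# The finite check: part D
-/

set_option autoImplicit false
set_option maxRecDepth 100000

namespace Pool.Agent.Lib.MP_a688ad_al

theorem chkn_24 : chkn 24 = true := by decide +kernel

theorem chkn_25 : chkn 25 = true := by decide +kernel

theorem chkn_26 : chkn 26 = true := by decide +kernel

end Pool.Agent.Lib.MP_a688ad_al
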