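import Pool.Agent.Lib.MP_a688ad_al.Chk

/-!
# The finite check: part E
-/

set_option autoImplicit false
set_option maxRecDepth 100000

namespace Pool.Agent.Lib.MP_a688ad_al

theorem chkn_27 : chkn 27 = true := by decide +kernel

theorem chkn_28 : chkn 28 = true := by decide +kernel

theorem chkn_29 : chkn 29 = true := by decide +kernel

theorem chkn_30 : chkn 30 = true := by decide +kernel

end Pool.Agent.Lib.MP_a688ad_al
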