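import Pool.Agent.Lib.MP_a688ad_al.Act

/-!
# The character of `Sym^n(V ⊗ Sym^2 V)` is `h_n[h_1 h_2]`
-/

set_option autoImplicit false

open MvPolynomial Finset

namespace Pool.Agent.Lib.MP_a688ad_al

variable {r : ℕ}

theorem prod_monomial {ι σ R : Type*} [CommRing R] (f : ι → σ →₀ ℕ) (s : Multiset ι) :
    (s.map (fun p => (monomial (f p) (1 : R)))).prod = monomial (s.map f).sum 1 := by
  induction s using Multiset.induction_on with
  | empty => simp
  | cons a s ih =>
    rw [Multiset.map_cons, Multiset.prod_cons, ih, Multiset.map_cons, Multiset.sum_cons,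
      monomial_mul, one_mul]

/-- The exponent of `mono`. -/
noncomputable def mw {k : ℕ} (p : Fin r × Sym (Fin r) k) : Fin r →₀ ℕ :=
  Finsupp.single p.1 1 + (p.2.1.map (fun i => Finsupp.single i 1)).sum

theorem mono_eq (k : ℕ) (p : Fin r × Sym (Fin r) k) : mono r k p = monomial (mw p) 1 := by
  unfold mono mw
  have h : (p.2.1.map (X : Fin r → MvPolynomial (Fin r) ℤ)).prod
      = monomial (p.2.1.map (fun i => Finsupp.single i 1)).sum 1 :=
    prod_monomial (fun i => Finsupp.single i 1) p.2.1
  rw [h, X, monomial_mul, one_mul]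

theorem pleth_eq (a k : ℕ) : pleth r a (k + 1)
    = ∑ s : Sym (Fin r × Sym (Fin r) k) a, monomial (s.1.map mw).sum 1 := by
  unfold pleth hsymm
  rw [map_sum]
  refine Finset.sum_congr rfl fun s _ => ?_
  rw [map_multiset_prod, Multiset.map_map]
  have h : (s.1.map ((aeval (mono r (k + 1 - 1)) : MvPolynomial _ ℤ →ₐ[ℤ] _) ∘ X))
      = s.1.map (fun p => monomial (mw p) (1 : ℤ)) := by
    apply Multiset.map_congr rfl
    intro p _
    rw [Function.comp_apply, aeval_X]
    exact mono_eq k p
  rw [h, prod_monomial]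

theorem coeff_pleth (a k : ℕ) (m : Fin r →₀ ℕ) : coeff m (pleth r a (k + 1))
    = (Nat.card {s : Sym (Fin r × Sym (Fin r) k) a // (s.1.map mw).sum = m} : ℤ) := by
  classical
  rw [pleth_eq, coeff_sum]
  simp only [coeff_monomial]
  rw [Nat.card_eq_fintype_card, Fintype.card_subtype, Finset.card_filter]
  push_cast
  rfl

theorem finrank_Gl (n : ℕ) (ν : Fin r → ℤ) : Module.finrank ℂ ((Gl r n).G ν)
    = Nat.card {d : Ix r →₀ ℕ // Finsupp.weight WT d = (ν, (n : ℤ))} := by
  have e : (Gl r n).G ν = restrictSupport ℂ {d : Ix r →₀ ℕ | Finsupp.weight WT d = (ν, (n : ℤ))} :=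
    weightedHomogeneousSubmodule_eq_finsupp_supported _ _ _
  rw [e]
  exact Module.finrank_eq_nat_card_basis (basisRestrictSupport ℂ
    {d : Ix r →₀ ℕ | Finsupp.weight WT d = (ν, (n : ℤ))})

/-- The bijection of the index sets. -/
noncomputable def eIx (r : ℕ) : Fin r × Sym (Fin r) 2 ≃ Ix r :=
  Equiv.prodCongr (Equiv.refl _) (Sym2.equivSym (Fin r)).symm

theorem wt_eIx (p : Fin r × Sym (Fin r) 2) (i : Fin r) : wt (eIx r p) i = (mw p i : ℤ) := by
  obtain ⟨u, s⟩ := p
  obtain ⟨t, rfl⟩ := (Sym2.equivSym (Fin r)).surjective s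
  have e : eIx r (u, Sym2.equivSym (Fin r) t) = (u, t) := by
    unfold eIx
    simp
  rw [e]
  induction t using Sym2.ind with
  | _ v w =>
    have e2 : ((Sym2.equivSym (Fin r)) s(v, w)).1 = {v, w} := rfl
    rw [wt_mk]
    unfold mw
    simp only [e2]
    simp [sg, Pi.single_apply, Finsupp.single_apply, eq_comm]

theorem weight_toFinsupp {ι M : Type*} [AddCommMonoid M] [DecidableEq ι] (w : ι → M)
    (s : Multiset ι) : Finsupp.weight w (Multiset.toFinsupp s) = (s.map w).sum := by
  induction s using Multiset.induction_on with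
  | empty => simp
  | cons a s ih =>
    rw [← Multiset.singleton_add, map_add, map_add, ih, Multiset.map_add, Multiset.sum_add,
      Multiset.toFinsupp_singleton, Finsupp.weight_single]
    simp

theorem card_eq (n : ℕ) (m : Fin r →₀ ℕ) :
    Nat.card {s : Sym (Fin r × Sym (Fin r) 2) n // (s.1.map mw).sum = m}
      = Nat.card {d : Ix r →₀ ℕ // Finsupp.weight WT d = ((fun i => (m i : ℤ)), (n : ℤ))} := by
  classical
  have key : ∀ s : Multiset (Fin r × Sym (Fin r) 2),
      Finsupp.weight WT (Multiset.toFinsupp (s.map (eIx r)))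
        = ((fun i => (((s.map mw).sum i : ℕ) : ℤ)), (Multiset.card s : ℤ)) := by
    intro s
    rw [weight_toFinsupp, Multiset.map_map]
    induction s using Multiset.induction_on with
    | empty => simp; rfl
    | cons a s ih =>
      rw [Multiset.map_cons, Multiset.sum_cons, ih, Multiset.map_cons, Multiset.sum_cons,
        Multiset.card_cons, Function.comp_apply]
      refine Prod.ext ?_ ?_
      · ext i
        show wt (eIx r a) i + _ = _
        rw [wt_eIx]
        push_cast [Finsupp.add_apply]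
        rfl
      · show (1 : ℤ) + _ = _
        push_cast
        ring
  let f : {s : Sym (Fin r × Sym (Fin r) 2) n // (s.1.map mw).sum = m} →
      {d : Ix r →₀ ℕ // Finsupp.weight WT d = ((fun i => (m i : ℤ)), (n : ℤ))} := fun s =>
    ⟨Multiset.toFinsupp (s.1.1.map (eIx r)), by rw [key, s.2, s.1.2]⟩
  apply Nat.card_eq_of_bijective f
  constructor
  · intro s t hst
    have h1 : Multiset.toFinsupp (s.1.1.map (eIx r)) = Multiset.toFinsupp (t.1.1.map (eIx r)) :=
      congrArg Subtype.val hst
    have h2 := Multiset.toFinsupp.injective h1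
    have h3 := Multiset.map_injective (eIx r).injective h2
    exact Subtype.ext (Subtype.ext h3)
  · intro d
    have h0 : Multiset.toFinsupp (((Finsupp.toMultiset d.1).map (eIx r).symm).map (eIx r)) = d.1 := by
      rw [Multiset.map_map]
      simp
    have h1 := key ((Finsupp.toMultiset d.1).map (eIx r).symm)
    rw [h0, d.2] at h1
    have h2 : (n : ℤ) = (Multiset.card ((Finsupp.toMultiset d.1).map (eIx r).symm) : ℤ) :=
      congrArg Prod.snd h1
    have h3 : (fun i => (m i : ℤ)) = (fun i => (((((Finsupp.toMultiset d.1).map (eIx r).symm).map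
      mw).sum i : ℕ) : ℤ)) := congrArg Prod.fst h1
    refine ⟨⟨⟨(Finsupp.toMultiset d.1).map (eIx r).symm, ?_⟩, ?_⟩, ?_⟩
    · exact_mod_cast h2.symm
    · ext i
      have := congrFun h3 i
      exact_mod_cast this.symm
    · apply Subtype.ext
      exact h0

/-- The weight multiplicities are the coefficients of `h_n[h_1 h_2]`. -/
theorem dd_Gl (n : ℕ) (ν : Fin r → ℤ) : (Gl r n).dd ν = ((cf (pleth r n 3) ν : ℤ) : ℂ) := by
  unfold cf
  split_ifs with h
  · unfold GlFam.dd
    rw [finrank_Gl, coeff_pleth n 2, card_eq]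
    have e : (fun i => ((toF ν i : ℕ) : ℤ)) = ν := by
      ext i
      rw [toF_apply]
      exact Int.toNat_of_nonneg (h i)
    rw [e]
    push_cast
    rfl
  · push Not at h
    obtain ⟨i, hi⟩ := h
    rw [(Gl r n).dd_neg hi]
    simp

theorem altc_Gl (n : ℕ) (κ : Fin r → ℤ) : altc (Gl r n).ch κ = ((altc (pleth r n 3) κ : ℤ) : ℂ) := by
  unfold altc
  push_cast
  refine Finset.sum_congr rfl fun σ _ => ?_
  rw [GlFam.cf_ch, dd_Gl]

/-- **Highest weight vectors of `Sym^n(V ⊗ Sym^2 V)`**. -/
theorem schurCoeff_HW (n : ℕ) {lam : Fin r → ℕ} (hl : Antitone lam) (hd : ∑ i, lam i = 3 * n) :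
    schurCoeff (pleth r n 3) lam
      = (Module.finrank ℂ ((Gl r n).HW (fun i => (lam i : ℤ))) : ℤ) := by
  have h1 := (Gl r n).finrank_HW (lam := fun i => (lam i : ℤ))
    (fun i j h => by
      show (lam j : ℤ) ≤ lam i
      exact_mod_cast hl h) (fun i => Int.natCast_nonneg _)
    (by show ∑ i, (lam i : ℤ) = ((3 * n : ℕ) : ℤ); exact_mod_cast hd)
  rw [altc_Gl, ← schurCoeff_eq] at h1
  exact_mod_cast h1.symm

end Pool.Agent.Lib.MP_a688ad_al
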