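import Mathlib

/-!
# Plethysm coefficients of `h_a[h_1 h_{b-1}]`: definitions

* `mono r k p`: the monomials `x_i x^s` of the product `h_1 h_k` in `r` variables.
* `pleth r a b`: the plethysm `h_a[h_1 h_{b-1}]` in `r` variables.
* `vdm R r`: the product of the `x_i - x_j`, `i < j`.
* `schurCoeff F lam`: the coefficient of the Schur function `s_lam` in `F`.
-/

set_option autoImplicit false

open MvPolynomial Finset

namespace Pool.Agent.Lib.MP_a688ad_al

/-- The monomials `x_i x^s` of `h_1 h_k` in the variables `x_0, ..., x_{r-1}`. -/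
noncomputable def mono (r k : ℕ) (p : Fin r × Sym (Fin r) k) : MvPolynomial (Fin r) ℤ :=
  X p.1 * (p.2.1.map X).prod

/-- The plethysm `h_a[h_1 h_{b-1}]` in `r` variables: `h_a` evaluated at the monomials of
`h_1 h_{b-1}`. -/
noncomputable def pleth (r a b : ℕ) : MvPolynomial (Fin r) ℤ :=
  aeval (mono r (b - 1)) (hsymm (Fin r × Sym (Fin r) (b - 1)) ℤ a)

/-- The pairs `i < j`. -/
def prs (r : ℕ) : Finset (Fin r × Fin r) := univ.filter (fun p => p.1 < p.2)

/-- The product of the `x_i - x_j`, `i < j`. -/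
noncomputable def vdm (R : Type*) [CommRing R] (r : ℕ) : MvPolynomial (Fin r) R :=
  ∏ p ∈ prs r, (X p.1 - X p.2)

/-- The staircase r-1, r-2, ..., 0. -/
def rho (r : ℕ) (i : Fin r) : ℕ := r - 1 - i

/-- The coefficient of `s_lam` in the symmetric polynomial `F` in `r` variables (bialternant
formula): the coefficient of `x^(lam + rho)` in `F ∏_{i<j} (x_i - x_j)`. -/
noncomputable def schurCoeff {r : ℕ} (F : MvPolynomial (Fin r) ℤ) (lam : Fin r → ℕ) : ℤ :=
  coeff (Finsupp.equivFunOnFinite.symm (fun i => lam i + rho r i)) (vdm ℤ r * F)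

end Pool.Agent.Lib.MP_a688ad_al
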