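import Pool.Agent.Lib.MP_a688ad_al.TabData

/-!
# Faster evaluation
-/

set_option autoImplicit false

namespace Pool.Agent.Lib.MP_a688ad_al

theorem ev_mv1_cons2 (A : List ℕ → ℤ) (x z : ℕ) (zs : List ℕ) (h : z < x) :
    ev A (mv 1 (x :: z :: zs)) = (if z + 2 ≤ x then A ((x - 1) :: z :: zs) else 0)
      + ev (fun l => A (x :: l)) (mv 1 (z :: zs)) := by
  conv_lhs => rw [mv]
  rw [ev_append, ev_map, if_pos (by omega)]
  congr 1
  simp only [ins]
  by_cases h1 : z + 2 ≤ x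
  · rw [if_pos h1, if_pos (by omega)]
    simp [ev]
  · rw [if_neg h1, if_neg (by omega), if_pos (by omega)]
    rfl

theorem ev_mv1_single (A : List ℕ → ℤ) (x : ℕ) :
    ev A (mv 1 [x]) = if 1 ≤ x then A [x - 1] else 0 := by
  simp only [mv, List.map_nil, List.append_nil]
  split_ifs <;> simp [ins, ev]

/-- Remove one box (natural numbers). -/
def x1 (f : ℕ → ℕ → ℕ → ℕ → ℕ → ℕ → ℕ) (a b c x y z : ℕ) : ℕ :=
  cond (Nat.ble (b + 2) a) (f (a - 1) b c x y z) 0 + (cond (Nat.ble (c + 2) b) (f a (b - 1) c x y z) 0 +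
  (cond (Nat.ble (x + 2) c) (f a b (c - 1) x y z) 0 + (cond (Nat.ble (y + 2) x) (f a b c (x - 1) y z) 0 +
  (cond (Nat.ble (z + 2) y) (f a b c x (y - 1) z) 0 + cond (Nat.ble 1 z) (f a b c x y (z - 1)) 0))))

/-- Remove one box (integers). -/
def y1 (f : ℕ → ℕ → ℕ → ℕ → ℕ → ℕ → ℤ) (a b c x y z : ℕ) : ℤ :=
  cond (Nat.ble (b + 2) a) (f (a - 1) b c x y z) 0 + (cond (Nat.ble (c + 2) b) (f a (b - 1) c x y z) 0 +
  (cond (Nat.ble (x + 2) c) (f a b (c - 1) x y z) 0 + (cond (Nat.ble (y + 2) x) (f a b c (x - 1) y z) 0 +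
  (cond (Nat.ble (z + 2) y) (f a b c x (y - 1) z) 0 + cond (Nat.ble 1 z) (f a b c x y (z - 1)) 0))))

theorem cond_ble (m n : ℕ) {α : Type*} (p q : α) : cond (Nat.ble m n) p q = if m ≤ n then p else q := by
  by_cases h : m ≤ n
  · rw [if_pos h, Nat.ble_eq_true_of_le h]
    rfl
  · rw [if_neg h]
    have : Nat.ble m n = false := by
      rw [Bool.eq_false_iff]
      intro h'
      exact h (Nat.le_of_ble_eq_true h')
    rw [this]
    rfl

theorem cond_beq (m n : ℕ) {α : Type*} (p q : α) : cond (Nat.beq m n) p q = if m = n then p else q := by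
  by_cases h : m = n
  · subst h; simp
  · rw [if_neg h]
    have : Nat.beq m n = false := by
      rw [Bool.eq_false_iff]
      intro h'
      exact h (Nat.eq_of_beq_eq_true h')
    rw [this]
    rfl

/-- Six strictly decreasing numbers. -/
def S6 (a b c x y z : ℕ) : Prop := b < a ∧ c < b ∧ x < c ∧ y < x ∧ z < y

theorem ev_mv1 (A : List ℕ → ℤ) {a b c x y z : ℕ} (h : S6 a b c x y z) :
    ev A (mv 1 [a, b, c, x, y, z]) = y1 (fun a b c x y z => A [a, b, c, x, y, z]) a b c x y z := by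
  obtain ⟨h1, h2, h3, h4, h5⟩ := h
  rw [ev_mv1_cons2 _ _ _ _ h1, ev_mv1_cons2 _ _ _ _ h2, ev_mv1_cons2 _ _ _ _ h3,
    ev_mv1_cons2 _ _ _ _ h4, ev_mv1_cons2 _ _ _ _ h5, ev_mv1_single]
  simp only [y1, cond_ble]

theorem y1_congr {f g : ℕ → ℕ → ℕ → ℕ → ℕ → ℕ → ℤ} {a b c x y z : ℕ} (hs : S6 a b c x y z)
    (h : ∀ a b c x y z, S6 a b c x y z → f a b c x y z = g a b c x y z) :
    y1 f a b c x y z = y1 g a b c x y z := by
  obtain ⟨h1, h2, h3, h4, h5⟩ := hs
  simp only [y1, cond_ble]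
  congr 1
  · split_ifs
    · exact h _ _ _ _ _ _ ⟨by omega, by omega, by omega, by omega, by omega⟩
    · rfl
  congr 1
  · split_ifs
    · exact h _ _ _ _ _ _ ⟨by omega, by omega, by omega, by omega, by omega⟩
    · rfl
  congr 1
  · split_ifs
    · exact h _ _ _ _ _ _ ⟨by omega, by omega, by omega, by omega, by omega⟩
    · rfl
  congr 1
  · split_ifs
    · exact h _ _ _ _ _ _ ⟨by omega, by omega, by omega, by omega, by omega⟩
    · rfl
  congr 1
  · split_ifs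
    · exact h _ _ _ _ _ _ ⟨by omega, by omega, by omega, by omega, by omega⟩
    · rfl
  · split_ifs
    · exact h _ _ _ _ _ _ ⟨by omega, by omega, by omega, by omega, by omega⟩
    · rfl

theorem y1_cast (f : ℕ → ℕ → ℕ → ℕ → ℕ → ℕ → ℕ) (a b c x y z : ℕ) :
    y1 (fun a b c x y z => (f a b c x y z : ℤ)) a b c x y z = ((x1 f a b c x y z : ℕ) : ℤ) := by
  simp only [y1, x1, cond_ble]
  push_cast
  rfl

/-- The leaf for `X`. -/
def kk (a b c x _ _ : ℕ) : ℕ :=
  cond (Nat.beq x 2) (cond (Nat.ble (a - b) (b - c)) (a - b) (b - c)) 0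

theorem LK_eq (a b c x y z : ℕ) : LK [a, b, c, x, y, z] = ((kk a b c x y z : ℕ) : ℤ) := by
  simp only [LK, kk, cond_ble, cond_beq]
  by_cases h : x = 2
  · rw [if_pos h, if_pos h]
    congr 1
  · rw [if_neg h, if_neg h]
    rfl

/-- The leaf for `Y`. -/
def l2f (a b c x _ _ : ℕ) : ℤ :=
  cond (Nat.beq x 2) (cond (Nat.ble (b - c) (a - b))
    (cond (Nat.beq ((b - c) % 2) 0) 0 (cond (Nat.beq (c % 2) 1) 1 (-1)))
    (cond (Nat.beq ((a - b) % 2) 0) 0 (cond (Nat.beq (a % 2) 1) 1 (-1)))) 0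

theorem L2_eq (a b c x y z : ℕ) : L2 [a, b, c, x, y, z] = l2f a b c x y z := by
  simp only [L2, l2f, cond_ble, cond_beq]
  by_cases h : x = 2
  · rw [if_pos h, if_pos h]
    by_cases h1 : b - c ≤ a - b
    · rw [if_pos h1, if_pos h1, min_eq_right h1]
    · rw [if_neg h1, if_neg h1, min_eq_left (by omega)]
  · rw [if_neg h, if_neg h]

/-- Faster evaluation. -/
def y1L (f : ℕ → ℕ → ℕ → ℕ → ℕ → ℕ → ℤ) : List ℕ → ℤ
  | [a, b, c, x, y, z] => y1 f a b c x y z
  | _ => 0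

/-- Faster evaluation of `M6`. -/
def M6f (a b c x y z : ℕ) : ℤ :=
  ((x1 (x1 (x1 kk)) a b c x y z : ℕ) : ℤ) + 3 * ev (y1L l2f) (mv 2 [a, b, c, x, y, z])
    + 2 * ev L3 (mv 3 [a, b, c, x, y, z])

theorem Sd_S6 {a b c x y z : ℕ} (h : Sd [a, b, c, x, y, z]) : S6 a b c x y z := by
  simp only [sd_cons, List.mem_cons, List.not_mem_nil, or_false, forall_eq_or_imp, forall_eq] at h
  obtain ⟨⟨h1, -⟩, ⟨h2, -⟩, ⟨h3, -⟩, ⟨h4, -⟩, h5, -⟩ := h
  exact ⟨h1, h2, h3, h4, h5⟩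

theorem S6_Sd {a b c x y z : ℕ} (h : S6 a b c x y z) : Sd [a, b, c, x, y, z] := by
  obtain ⟨h1, h2, h3, h4, h5⟩ := h
  simp only [sd_cons, List.mem_cons, List.not_mem_nil, or_false, forall_eq_or_imp, forall_eq]
  refine ⟨⟨?_, ?_, ?_, ?_, ?_⟩, ⟨?_, ?_, ?_, ?_⟩, ⟨?_, ?_, ?_⟩, ⟨?_, ?_⟩, ?_, ?_, List.Pairwise.nil⟩ <;>
    first
      | omega
      | simp

theorem M6_eq {a b c x y z : ℕ} (h : S6 a b c x y z) : M6 [a, b, c, x, y, z] = M6f a b c x y z := by
  unfold M6 M6f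
  congr 1
  · congr 1
    · rw [ev_mv1 _ h, ← y1_cast]
      apply y1_congr h
      intro a b c x y z h'
      rw [ev_mv1 _ h', ← y1_cast]
      apply y1_congr h'
      intro a b c x y z h''
      rw [ev_mv1 _ h'', ← y1_cast]
      apply y1_congr h''
      intro a b c x y z _
      exact LK_eq a b c x y z
    · congr 1
      apply ev_congr
      intro t ht
      have h1 := mv_length 2 _ t ht
      have h2 := (mv_sd 2 _ (S6_Sd h) t ht).1
      revert h1 h2
      match t.2 with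
      | [a, b, c, x, y, z] =>
        intro _ h2
        rw [ev_mv1 _ (Sd_S6 h2)]
        exact y1_congr (Sd_S6 h2) (fun a b c x y z _ => L2_eq a b c x y z)
      | [] => intro h1; simp at h1
      | [_] => intro h1; simp at h1
      | [_, _] => intro h1; simp at h1
      | [_, _, _] => intro h1; simp at h1
      | [_, _, _, _] => intro h1; simp at h1
      | [_, _, _, _, _] => intro h1; simp at h1
      | _ :: _ :: _ :: _ :: _ :: _ :: _ :: _ => intro h1; simp at h1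

end Pool.Agent.Lib.MP_a688ad_al
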