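import Pool.Agent.Lib.MP_a688ad_al.ChkA
import Pool.Agent.Lib.MP_a688ad_al.ChkB
import Pool.Agent.Lib.MP_a688ad_al.ChkC
import Pool.Agent.Lib.MP_a688ad_al.ChkD
import Pool.Agent.Lib.MP_a688ad_al.ChkE

/-!
# The induction
-/

set_option autoImplicit false

open Finset

namespace Pool.Agent.Lib.MP_a688ad_al

theorem chkl_spec {n a b c x y z : ℕ} (h : S6 a b c x y z) (hs : a + b + c + x + y + z = 3 * n + 15)
    (hL : ∀ m, 6 < m → m < n → Lev m) (hc : chkl n a b c x y z = true) :
    Ineq n a b c x y z ∧ (19 ≤ n → 1 ≤ co 6 n [a, b, c, x, y, z]) := by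
  have key : ∀ need : ℤ, dls.any (tryd n a b c x y z need) = true →
      need ≤ 6 * co 6 n [a, b, c, x, y, z] := by
    intro need hn
    rw [List.any_eq_true] at hn
    obtain ⟨d, hd, ht⟩ := hn
    exact tryd_spec h hs hL (dls_ok d hd).1 (dls_ok d hd).2 ht
  have h0 := co6_nonneg h hs
  unfold chkl at hc
  unfold Ineq
  rw [M6_eq h]
  rw [cond_ble] at hc
  split_ifs at hc with h1
  · rw [Bool.or_eq_true, decide_eq_true_eq] at hc
    refine ⟨?_, fun h' => absurd h' (by omega)⟩
    rcases hc with hc | hc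
    · omega
    · exact key _ hc
  · cases hd : decide (M6f a b c x y z ≤ 6) with
    | true =>
      rw [hd] at hc
      rw [decide_eq_true_eq] at hd
      have := key _ hc
      exact ⟨by omega, fun _ => by omega⟩
    | false =>
      rw [hd] at hc
      rw [decide_eq_false_iff_not] at hd
      have := key _ hc
      exact ⟨by omega, fun _ => by omega⟩

theorem chkn_spec {n : ℕ} (hc : chkn n = true) {a b c x y z : ℕ} (h : S6 a b c x y z)
    (hs : a + b + c + x + y + z = 3 * n + 15) (h4 : 4 ≤ c) (h6 : x + y + z ≤ 6) (h5 : c ≤ x + 5)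
    (hb : ¬ (b ≤ n + 2 ∧ b + 7 ≤ a)) (hc' : ¬ (n + 8 ≤ b ∧ c + 10 ≤ b)) :
    chkl n a b c x y z = true := by
  obtain ⟨s1, s2, s3, s4, s5⟩ := h
  have k1 := allN_spec hc x (by omega)
  have k2 := allN_spec k1 y (by omega)
  have k3 := allN_spec k2 z (by omega)
  have e1 : (Nat.ble (z + 1) y && (Nat.ble (y + 1) x && Nat.ble (x + y + z) 6)) = true := by
    simp only [Bool.and_eq_true, Nat.ble_eq]
    omega
  rw [e1, cond_true] at k3
  have k4 := allN_spec k3 (c - (x + 1)) (by omega)
  have e2 : x + 1 + (c - (x + 1)) = c := by omega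
  simp only [e2] at k4
  rw [cond_ble, if_pos h4] at k4
  have k5 := allN_spec k4 b (by omega)
  have e3 : (Nat.ble (c + 1) b && (Nat.ble (2 * b + c + x + y + z + 1) (3 * n + 15)
            && (!(Nat.ble b (n + 2) && Nat.ble (2 * b + c + x + y + z + 7) (3 * n + 15))
            && !(Nat.ble (n + 8) b && Nat.ble (c + 10) b)))) = true := by
    simp only [Bool.and_eq_true, Nat.ble_eq, Bool.not_eq_true', Bool.and_eq_false_iff]
    refine ⟨by omega, by omega, ?_, ?_⟩
    · by_cases h' : b ≤ n + 2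
      · right
        rw [Bool.eq_false_iff]
        intro h''
        rw [Nat.ble_eq] at h''
        omega
      · left
        rw [Bool.eq_false_iff]
        intro h''
        rw [Nat.ble_eq] at h''
        omega
    · by_cases h' : n + 8 ≤ b
      · right
        rw [Bool.eq_false_iff]
        intro h''
        rw [Nat.ble_eq] at h''
        omega
      · left
        rw [Bool.eq_false_iff]
        intro h''
        rw [Nat.ble_eq] at h''
        omega
  rw [e3, cond_true] at k5
  have e4 : 3 * n + 15 - (b + c + x + y + z) = a := by omega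
  rw [e4] at k5
  exact k5

theorem chk0_spec {n : ℕ} (hn : n ≤ 6) (hc : chk0 n = true) : Lev n := by
  intro a b c x y z h hs h4
  unfold Ineq
  have h0 := co6_nonneg h hs
  obtain ⟨s1, s2, s3, s4, s5⟩ := h
  have h : S6 a b c x y z := ⟨s1, s2, s3, s4, s5⟩
  by_cases h6 : x + y + z ≤ 6
  · have k1 := allN_spec hc x (by omega)
    have k2 := allN_spec k1 y (by omega)
    have k3 := allN_spec k2 z (by omega)
    have e1 : (Nat.ble (z + 1) y && (Nat.ble (y + 1) x && Nat.ble (x + y + z) 6)) = true := by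
      simp only [Bool.and_eq_true, Nat.ble_eq]
      omega
    rw [e1, cond_true] at k3
    have k4 := allN_spec k3 c (by omega)
    have e2 : (Nat.ble (x + 1) c && Nat.ble 4 c) = true := by
      simp only [Bool.and_eq_true, Nat.ble_eq]
      omega
    rw [e2, cond_true] at k4
    have k5 := allN_spec k4 b (by omega)
    have e3 : (Nat.ble (c + 1) b && (Nat.ble (2 * b + c + x + y + z + 1) (3 * n + 15))) = true := by
      simp only [Bool.and_eq_true, Nat.ble_eq]
      omega
    rw [e3, cond_true] at k5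
    have e4 : 3 * n + 15 - (b + c + x + y + z) = a := by omega
    rw [e4, Bool.or_eq_true, decide_eq_true_eq] at k5
    rw [M6_eq h]
    rcases k5 with k5 | k5
    · omega
    · cases hv : (tS n).look (enc [a, b, c, x, y, z]) with
      | none => rw [hv] at k5; simp at k5
      | some v =>
        rw [hv] at k5
        simp only [decide_eq_true_eq] at k5
        rw [co6_look h hs hn hv]
        push_cast at k5
        exact k5
  · rw [M6_zero rfl (S6_Sd h) (by simp; omega)]
    omega

theorem co_3 : co 6 1 [8, 4, 3, 2, 1, 0] = 1 :=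
  co6_look (by unfold S6; decide) (by norm_num) (by norm_num) (by decide +kernel)

theorem co_222 : co 6 2 [7, 6, 5, 2, 1, 0] = 1 :=
  co6_look (by unfold S6; decide) (by norm_num) (by norm_num) (by decide +kernel)

theorem co_66 : co 6 4 [11, 10, 3, 2, 1, 0] = 3 :=
  co6_look (by unfold S6; decide) (by norm_num) (by norm_num) (by decide +kernel)

theorem co_2412 : (57 : ℤ) ≤ co 6 12 [29, 16, 3, 2, 1, 0] := by
  have h := (dls_ok ⟨12, 24, 12, 0, 0, 57⟩ (by simp [dls])).1
  exact h.2.2.2.2.2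

/-- Positivity in the window. -/
def Pos (n : ℕ) : Prop := ∀ a b c x y z : ℕ, S6 a b c x y z → a + b + c + x + y + z = 3 * n + 15 →
  4 ≤ c → x + y + z ≤ 6 → c ≤ x + 5 → n + 3 ≤ b → b ≤ n + 7 → 1 ≤ co 6 n [a, b, c, x, y, z]

theorem red_a {n a b c x y z : ℕ} (h : S6 a b c x y z) (hs : a + b + c + x + y + z = 3 * n + 15)
    (hn : 6 ≤ n) (hL : Lev (n - 2)) (hc : x + 6 ≤ c) : Ineq n a b c x y z := by
  obtain ⟨s1, s2, s3, s4, s5⟩ := h
  have h : S6 a b c x y z := ⟨s1, s2, s3, s4, s5⟩
  have h' : S6 (a - 2) (b - 2) (c - 2) x y z := ⟨by omega, by omega, by omega, by omega, by omega⟩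
  have hs' : a - 2 + (b - 2) + (c - 2) + x + y + z = 3 * (n - 2) + 15 := by omega
  have e1 := M6_shift_a (S6_Sd h') (by omega)
  have ea : a - 2 + 2 = a := by omega
  have eb : b - 2 + 2 = b := by omega
  have ec : c - 2 + 2 = c := by omega
  rw [ea, eb, ec] at e1
  have h1 := hL _ _ _ _ _ _ h' hs' (by omega)
  have h0 := co6_nonneg h hs
  unfold Ineq at h1 ⊢
  by_cases hp : M6 [a, b, c, x, y, z] ≤ 0
  · omega
  · have h2 := co6_super (n := n - 2) (k := 2) (d1 := 2) (d2 := 2) (d3 := 2) (d4 := 0) (d5 := 0)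
      (d6 := 0) h' hs' le_rfl le_rfl (by norm_num) le_rfl le_rfl (by norm_num) (by omega)
      (by rw [co_222]; norm_num)
    have e0 : n - 2 + 2 = n := by omega
    simp only [e0, ea, eb, ec, add_zero, zero_add, Nat.reduceAdd] at h2
    rw [co_222] at h2
    omega

theorem red_b {n a b c x y z : ℕ} (h : S6 a b c x y z) (hs : a + b + c + x + y + z = 3 * n + 15)
    (hn : 5 ≤ n) (h4 : 4 ≤ c) (hL : Lev (n - 1)) (hb : b ≤ n + 2) (hab : b + 7 ≤ a) :
    Ineq n a b c x y z := by
  obtain ⟨s1, s2, s3, s4, s5⟩ := h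
  have h : S6 a b c x y z := ⟨s1, s2, s3, s4, s5⟩
  have h' : S6 (a - 3) b c x y z := ⟨by omega, by omega, by omega, by omega, by omega⟩
  have hs' : a - 3 + b + c + x + y + z = 3 * (n - 1) + 15 := by omega
  have e1 := M6_shift_b (S6_Sd h') (by omega) (by omega)
  have ea : a - 3 + 3 = a := by omega
  rw [ea] at e1
  have h1 := hL _ _ _ _ _ _ h' hs' h4
  have h0 := co6_nonneg h hs
  unfold Ineq at h1 ⊢
  by_cases hp : M6 [a, b, c, x, y, z] ≤ 0
  · omega
  · have h2 := co6_super (n := n - 1) (k := 1) (d1 := 3) (d2 := 0) (d3 := 0) (d4 := 0) (d5 := 0)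
      (d6 := 0) h' hs' (by norm_num) le_rfl le_rfl le_rfl le_rfl (by norm_num) (by omega)
      (by
        show 0 < co 6 1 [8, 4, 3, 2, 1, 0]
        rw [co_3]; norm_num)
    have e0 : n - 1 + 1 = n := by omega
    simp only [e0, ea, add_zero, zero_add, Nat.reduceAdd] at h2
    rw [co_3] at h2
    omega

theorem red_c {n a b c x y z : ℕ} (h : S6 a b c x y z) (hs : a + b + c + x + y + z = 3 * n + 15)
    (hn : 8 ≤ n) (h4 : 4 ≤ c) (hL : Lev (n - 4)) (hb : n + 8 ≤ b) (hbc : c + 10 ≤ b) :
    Ineq n a b c x y z := by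
  obtain ⟨s1, s2, s3, s4, s5⟩ := h
  have h : S6 a b c x y z := ⟨s1, s2, s3, s4, s5⟩
  have h' : S6 (a - 6) (b - 6) c x y z := ⟨by omega, by omega, by omega, by omega, by omega⟩
  have hs' : a - 6 + (b - 6) + c + x + y + z = 3 * (n - 4) + 15 := by omega
  have e1 := M6_shift_c (S6_Sd h') (by omega) (by omega)
  have ea : a - 6 + 6 = a := by omega
  have eb : b - 6 + 6 = b := by omega
  rw [ea, eb] at e1
  have h1 := hL _ _ _ _ _ _ h' hs' h4
  have h0 := co6_nonneg h hs
  unfold Ineq at h1 ⊢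
  by_cases hp : M6 [a, b, c, x, y, z] ≤ 0
  · omega
  · have h2 := co6_super (n := n - 4) (k := 4) (d1 := 6) (d2 := 6) (d3 := 0) (d4 := 0) (d5 := 0)
      (d6 := 0) h' hs' le_rfl (by norm_num) le_rfl le_rfl le_rfl (by norm_num) (by omega)
      (by
        show 0 < co 6 4 [11, 10, 3, 2, 1, 0]
        rw [co_66]; norm_num)
    have e0 : n - 4 + 4 = n := by omega
    simp only [e0, ea, eb, add_zero, zero_add, Nat.reduceAdd] at h2
    rw [co_66] at h2
    omega

theorem red_d {n a b c x y z : ℕ} (h : S6 a b c x y z) (hs : a + b + c + x + y + z = 3 * n + 15)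
    (hn : 31 ≤ n) (h4 : 4 ≤ c) (h6 : x + y + z ≤ 6) (h5 : c ≤ x + 5) (hL : Lev (n - 12))
    (hP : Pos (n - 12)) (hb : n + 3 ≤ b) (hb' : b ≤ n + 7) :
    Ineq n a b c x y z ∧ 1 ≤ co 6 n [a, b, c, x, y, z] := by
  obtain ⟨s1, s2, s3, s4, s5⟩ := h
  have h : S6 a b c x y z := ⟨s1, s2, s3, s4, s5⟩
  have h' : S6 (a - 24) (b - 12) c x y z := ⟨by omega, by omega, by omega, by omega, by omega⟩
  have hs' : a - 24 + (b - 12) + c + x + y + z = 3 * (n - 12) + 15 := by omega
  have e1 := M6_shift_d (S6_Sd h') h6 h5 (by omega) (by omega)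
  have ea : a - 24 + 24 = a := by omega
  have eb : b - 12 + 12 = b := by omega
  rw [ea, eb] at e1
  have h1 := hL _ _ _ _ _ _ h' hs' h4
  have hp := hP _ _ _ _ _ _ h' hs' h4 h6 h5 (by omega) (by omega)
  obtain ⟨C, hC, hc⟩ : ∃ C, co 6 12 [29, 16, 3, 2, 1, 0] = C ∧ 57 ≤ C := ⟨_, rfl, co_2412⟩
  unfold Ineq at h1 ⊢
  have h2 := co6_super (n := n - 12) (k := 12) (d1 := 24) (d2 := 12) (d3 := 0) (d4 := 0) (d5 := 0)
    (d6 := 0) h' hs' (by norm_num) (by norm_num) le_rfl le_rfl le_rfl (by norm_num) (by omega)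
    (by
      show 0 < co 6 12 [29, 16, 3, 2, 1, 0]
      rw [hC]
      exact lt_of_lt_of_le (by norm_num) hc)
  have e0 : n - 12 + 12 = n := by omega
  simp only [e0, ea, eb, add_zero, zero_add, Nat.reduceAdd] at h2
  rw [hC] at h2
  constructor <;> omega

theorem chk_all {n : ℕ} (h1 : 7 ≤ n) (h2 : n ≤ 30) : chkn n = true := by
  interval_cases n
  · exact chkn_7
  · exact chkn_8
  · exact chkn_9
  · exact chkn_10
  · exact chkn_11
  · exact chkn_12
  · exact chkn_13
  · exact chkn_14
  · exact chkn_15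
  · exact chkn_16
  · exact chkn_17
  · exact chkn_18
  · exact chkn_19
  · exact chkn_20
  · exact chkn_21
  · exact chkn_22
  · exact chkn_23
  · exact chkn_24
  · exact chkn_25
  · exact chkn_26
  · exact chkn_27
  · exact chkn_28
  · exact chkn_29
  · exact chkn_30

theorem main_ind (n : ℕ) : 4 ≤ n → Lev n ∧ (19 ≤ n → Pos n) := by
  induction n using Nat.strong_induction_on with
  | _ n ih =>
    intro hn
    rcases Nat.lt_or_ge n 7 with h7 | h7
    · refine ⟨?_, fun h => absurd h (by omega)⟩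
      interval_cases n
      · exact chk0_spec (by norm_num) chk0_4
      · exact chk0_spec (by norm_num) chk0_5
      · exact chk0_spec (by norm_num) chk0_6
    · have hL : ∀ m, 4 ≤ m → m < n → Lev m := fun m h1 h2 => (ih m h2 h1).1
      have hL' : ∀ m, 6 < m → m < n → Lev m := fun m h1 h2 => (ih m h2 (by omega)).1
      rcases Nat.lt_or_ge n 31 with h31 | h31
      · have hchk := chk_all h7 (by omega)
        constructor
        · intro a b c x y z h hs h4
          by_cases h6 : x + y + z ≤ 6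
          · by_cases h5 : c ≤ x + 5
            · by_cases hb : b ≤ n + 2 ∧ b + 7 ≤ a
              · exact red_b h hs (by omega) h4 (hL _ (by omega) (by omega)) hb.1 hb.2
              · by_cases hc : n + 8 ≤ b ∧ c + 10 ≤ b
                · have hn8 : 8 ≤ n := by
                    obtain ⟨s1, s2, s3, s4, s5⟩ := h
                    omega
                  exact red_c h hs hn8 h4 (hL _ (by omega) (by omega)) hc.1 hc.2
                · exact (chkl_spec h hs hL' (chkn_spec hchk h hs h4 h6 h5 hb hc)).1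
            · exact red_a h hs (by omega) (hL _ (by omega) (by omega)) (by omega)
          · unfold Ineq
            rw [M6_zero rfl (S6_Sd h) (by simp; omega)]
            have := co6_nonneg h hs
            omega
        · intro h19 a b c x y z h hs h4 h6 h5 hb1 hb2
          exact (chkl_spec h hs hL' (chkn_spec hchk h hs h4 h6 h5 (by omega) (by omega))).2 h19
      · constructor
        · intro a b c x y z h hs h4
          by_cases h6 : x + y + z ≤ 6
          · by_cases h5 : c ≤ x + 5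
            · obtain ⟨s1, s2, s3, s4, s5⟩ := h
              have h : S6 a b c x y z := ⟨s1, s2, s3, s4, s5⟩
              by_cases hb : b ≤ n + 2
              · exact red_b h hs (by omega) h4 (hL _ (by omega) (by omega)) hb (by omega)
              · by_cases hc : n + 8 ≤ b
                · exact red_c h hs (by omega) h4 (hL _ (by omega) (by omega)) hc (by omega)
                · exact (red_d h hs h31 h4 h6 h5 (hL _ (by omega) (by omega))
                    ((ih (n - 12) (by omega) (by omega)).2 (by omega)) (by omega) (by omega)).1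
            · exact red_a h hs (by omega) (hL _ (by omega) (by omega)) (by omega)
          · unfold Ineq
            rw [M6_zero rfl (S6_Sd h) (by simp; omega)]
            have := co6_nonneg h hs
            omega
        · intro _ a b c x y z h hs h4 h6 h5 hb1 hb2
          exact (red_d h hs h31 h4 h6 h5 (hL _ (by omega) (by omega))
            ((ih (n - 12) (by omega) (by omega)).2 (by omega)) hb1 hb2).2

/-- The case of six variables. -/
theorem six_vars {n : ℕ} (hn : 3 < n) {mu : ℕ → ℕ} (h : ∀ i, mu (i + 1) ≤ mu i)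
    (hs : ∑ i : Fin 6, mu i = 3 * n) (h2 : mu 2 ≠ 0) :
    schurCoeff (pleth 6 3 n) (fun i : Fin 6 => mu i) ≤ schurCoeff (pleth 6 n 3) (fun i : Fin 6 => mu i) := by
  have g0 : mu 1 ≤ mu 0 := h 0
  have g1 : mu 2 ≤ mu 1 := h 1
  have g2 : mu 3 ≤ mu 2 := h 2
  have g3 : mu 4 ≤ mu 3 := h 3
  have g4 : mu 5 ≤ mu 4 := h 4
  have hs' : mu 0 + mu 1 + mu 2 + mu 3 + mu 4 + mu 5 = 3 * n := by
    rw [Fin.sum_univ_six] at hs
    exact hs
  have hS : S6 (mu 0 + 5) (mu 1 + 4) (mu 2 + 3) (mu 3 + 2) (mu 4 + 1) (mu 5) :=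
    ⟨by omega, by omega, by omega, by omega, by omega⟩
  have hsum : mu 0 + 5 + (mu 1 + 4) + (mu 2 + 3) + (mu 3 + 2) + (mu 4 + 1) + mu 5 = 3 * n + 15 := by
    omega
  have key := (main_ind n (by omega)).1 _ _ _ _ _ _ hS hsum (by omega)
  unfold Ineq at key
  have hM := altc_M6 (n := n) (by omega) (l := [mu 0 + 5, mu 1 + 4, mu 2 + 3, mu 3 + 2, mu 4 + 1, mu 5])
    rfl (S6_Sd hS) (by simp only [List.sum_cons, List.sum_nil]; omega)
  have hv : vec 6 [mu 0 + 5, mu 1 + 4, mu 2 + 3, mu 3 + 2, mu 4 + 1, mu 5]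
      = fun i : Fin 6 => ((mu i : ℕ) : ℤ) + rho 6 i := by
    ext i
    fin_cases i
    · show ((mu 0 + 5 : ℕ) : ℤ) = (mu 0 : ℤ) + ((5 : ℕ) : ℤ)
      push_cast; ring
    · show ((mu 1 + 4 : ℕ) : ℤ) = (mu 1 : ℤ) + ((4 : ℕ) : ℤ)
      push_cast; ring
    · show ((mu 2 + 3 : ℕ) : ℤ) = (mu 2 : ℤ) + ((3 : ℕ) : ℤ)
      push_cast; ring
    · show ((mu 3 + 2 : ℕ) : ℤ) = (mu 3 : ℤ) + ((2 : ℕ) : ℤ)
      push_cast; ring
    · show ((mu 4 + 1 : ℕ) : ℤ) = (mu 4 : ℤ) + ((1 : ℕ) : ℤ)
      push_cast; ring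
    · show ((mu 5 : ℕ) : ℤ) = (mu 5 : ℤ) + ((0 : ℕ) : ℤ)
      push_cast; ring
  rw [schurCoeff_eq, schurCoeff_eq]
  unfold co at key
  rw [hv] at key hM
  omega

theorem schurCoeff_stable (a b r : ℕ) {mu : ℕ → ℕ} (h : mu r = 0) :
    schurCoeff (pleth (r + 1) a b) (fun i : Fin (r + 1) => mu i)
      = schurCoeff (pleth r a b) (fun i : Fin r => mu i) := by
  rw [schurCoeff_eq, schurCoeff_eq]
  have h1 := altc_st (pleth (r + 1) a b) (fun i : Fin r => ((mu i : ℕ) : ℤ) + rho r i + 1)
  rw [st_pleth] at h1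
  have e1 : (Fin.snoc (α := fun _ => ℤ) (fun i : Fin r => ((mu i : ℕ) : ℤ) + rho r i + 1) 0 :
      Fin (r + 1) → ℤ) = fun i : Fin (r + 1) => ((mu i : ℕ) : ℤ) + rho (r + 1) i := by
    ext i
    refine Fin.lastCases ?_ (fun j => ?_) i
    · rw [Fin.snoc_last]
      simp [rho, h]
    · rw [Fin.snoc_castSucc]
      have := j.2
      simp only [rho, Fin.val_castSucc]
      omega
  have e2 : (fun i : Fin r => ((mu i : ℕ) : ℤ) + rho r i + 1 - 1)
      = fun i : Fin r => ((mu i : ℕ) : ℤ) + rho r i := by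
    ext i; ring
  rw [e1, e2] at h1
  exact h1

theorem schurCoeff_stable' (a b : ℕ) {mu : ℕ → ℕ} (r k : ℕ) (h : ∀ i, r ≤ i → mu i = 0) :
    schurCoeff (pleth (r + k) a b) (fun i : Fin (r + k) => mu i)
      = schurCoeff (pleth r a b) (fun i : Fin r => mu i) := by
  induction k with
  | zero => rfl
  | succ k ih =>
    rw [← ih]
    exact schurCoeff_stable a b (r + k) (h _ (by omega))

/-- All numbers of variables. -/
theorem all_vars {n : ℕ} (hn : 3 < n) {r : ℕ} {mu : ℕ → ℕ} (h : ∀ i, mu (i + 1) ≤ mu i)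
    (hr : ∀ i, r ≤ i → mu i = 0) (hs : ∑ i : Fin r, mu i = 3 * n) (h2 : mu 2 ≠ 0) :
    schurCoeff (pleth r 3 n) (fun i : Fin r => mu i) ≤ schurCoeff (pleth r n 3) (fun i : Fin r => mu i) := by
  have hanti : Antitone mu := antitone_nat_of_succ_le h
  by_cases h6 : mu 6 = 0
  · have h6' : ∀ i, 6 ≤ i → mu i = 0 := fun i hi => by
      have := hanti hi
      omega
    rcases Nat.le_total r 6 with hr6 | hr6
    · obtain ⟨k, hk⟩ := Nat.exists_eq_add_of_le hr6
      have e1 := schurCoeff_stable' 3 n r k hr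
      have e2 := schurCoeff_stable' n 3 r k hr
      rw [← e1, ← e2, ← hk]
      apply six_vars hn h _ h2
      rw [← hs, hk]
      rw [Fin.sum_univ_eq_sum_range (fun i => mu i) (r + k), Fin.sum_univ_eq_sum_range (fun i => mu i) r,
        Finset.sum_range_add]
      simp only [add_eq_left]
      apply Finset.sum_eq_zero
      intro i _
      exact hr _ (by omega)
    · obtain ⟨k, hk⟩ := Nat.exists_eq_add_of_le hr6
      subst hk
      rw [schurCoeff_stable' 3 n 6 k h6', schurCoeff_stable' n 3 6 k h6']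
      apply six_vars hn h _ h2
      rw [← hs]
      rw [Fin.sum_univ_eq_sum_range (fun i => mu i) (6 + k), Fin.sum_univ_eq_sum_range (fun i => mu i) 6,
        Finset.sum_range_add]
      simp only [left_eq_add]
      apply Finset.sum_eq_zero
      intro i _
      exact h6' _ (by omega)
  · have hr7 : 6 < r := by
      by_contra hcon
      exact h6 (hr 6 (by omega))
    have ha : Antitone (fun i : Fin r => mu i) := fun i j hij => hanti hij
    have h0 := schurCoeff_nonneg n ha hs
    rw [schurCoeff_eq (pleth r 3 n)]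
    rw [altc_pleth_zero n (i := ⟨6, hr7⟩) _ rfl]
    · exact h0
    · show ((rho r ⟨6, hr7⟩ : ℕ) : ℤ) < ((mu 6 : ℕ) : ℤ) + ((rho r ⟨6, hr7⟩ : ℕ) : ℤ)
      omega
    · apply strictAnti_of
      intro i j hij
      have h3 : mu j ≤ mu i := hanti (by omega)
      have := i.2
      have := j.2
      simp only [rho]
      omega

end Pool.Agent.Lib.MP_a688ad_al
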