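import Pool.Agent.Lib.MP_a688ad_al.Defs

/-!
# The Laplacian of Vandermonde times a character
-/

set_option autoImplicit false

open MvPolynomial Finset

namespace Pool.Agent.Lib.MP_a688ad_al

variable {r : ℕ}

/-- The Euler operator in the variable `i`. -/
noncomputable def De (i : Fin r) (F : MvPolynomial (Fin r) ℂ) : MvPolynomial (Fin r) ℂ :=
  X i * pderiv i F

/-- The Laplacian: `x^m ↦ |m|² x^m`. -/
noncomputable def Lap (F : MvPolynomial (Fin r) ℂ) : MvPolynomial (Fin r) ℂ :=
  ∑ i, De i (De i F)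

theorem De_mul (i : Fin r) (F G : MvPolynomial (Fin r) ℂ) :
    De i (F * G) = De i F * G + F * De i G := by
  unfold De
  rw [pderiv_mul]
  ring

theorem De_add (i : Fin r) (F G : MvPolynomial (Fin r) ℂ) :
    De i (F + G) = De i F + De i G := by
  unfold De
  rw [map_add]
  ring

theorem De_sub (i : Fin r) (F G : MvPolynomial (Fin r) ℂ) :
    De i (F - G) = De i F - De i G := by
  unfold De
  rw [map_sub]
  ring

theorem De_sum {ι : Type*} (s : Finset ι) (i : Fin r) (F : ι → MvPolynomial (Fin r) ℂ) :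
    De i (∑ k ∈ s, F k) = ∑ k ∈ s, De i (F k) := by
  unfold De
  rw [map_sum, Finset.mul_sum]

theorem De_X (i k : Fin r) : De i (X k : MvPolynomial (Fin r) ℂ) = if k = i then X i else 0 := by
  unfold De
  rw [pderiv_X]
  by_cases h : k = i
  · subst h; simp
  · simp [h, Pi.single_apply, Ne.symm h]

theorem De_monomial (i : Fin r) (m : Fin r →₀ ℕ) (c : ℂ) :
    De i (monomial m c) = monomial m ((m i : ℂ) * c) := by
  unfold De
  rw [pderiv_monomial]
  by_cases h : m i = 0
  · simp [h]
  · have e : (Finsupp.single i 1 : Fin r →₀ ℕ) + (m - Finsupp.single i 1) = m := by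
      ext k
      by_cases hk : k = i
      · subst hk; simp; omega
      · simp [Finsupp.single_apply, Ne.symm hk]
    rw [X, monomial_mul, e, one_mul, mul_comm]

theorem coeff_De (i : Fin r) (F : MvPolynomial (Fin r) ℂ) (m : Fin r →₀ ℕ) :
    coeff m (De i F) = (m i : ℂ) * coeff m F := by
  induction F using MvPolynomial.induction_on' with
  | monomial u a =>
    rw [De_monomial, coeff_monomial, coeff_monomial]
    split_ifs with h
    · rw [h]
    · simp
  | add p q hp hq =>
    rw [De_add, coeff_add, coeff_add, hp, hq]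
    ring

theorem coeff_Lap (F : MvPolynomial (Fin r) ℂ) (m : Fin r →₀ ℕ) :
    coeff m (Lap F) = (∑ i, (m i : ℂ) ^ 2) * coeff m F := by
  unfold Lap
  rw [coeff_sum, Finset.sum_mul]
  refine Finset.sum_congr rfl fun i _ => ?_
  rw [coeff_De, coeff_De]
  ring

theorem Lap_mul (F G : MvPolynomial (Fin r) ℂ) :
    Lap (F * G) = Lap F * G + 2 * ∑ i, De i F * De i G + F * Lap G := by
  unfold Lap
  rw [Finset.sum_mul, Finset.mul_sum, Finset.mul_sum, ← Finset.sum_add_distrib,
    ← Finset.sum_add_distrib]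
  refine Finset.sum_congr rfl fun i _ => ?_
  rw [De_mul, De_add, De_mul, De_mul]
  ring

/-- `vdm` without the factor `p`. -/
noncomputable def Qp (p : Fin r × Fin r) : MvPolynomial (Fin r) ℂ :=
  ∏ q ∈ (prs r).erase p, (X q.1 - X q.2)

theorem Qp_mul {p : Fin r × Fin r} (hp : p ∈ prs r) :
    Qp p * (X p.1 - X p.2) = vdm ℂ r := by
  unfold Qp vdm
  rw [mul_comm, Finset.mul_prod_erase (prs r) (fun q => (X q.1 - X q.2 : MvPolynomial (Fin r) ℂ)) hp]

theorem De_prod {ι : Type*} [DecidableEq ι] (i : Fin r) (s : Finset ι)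
    (F : ι → MvPolynomial (Fin r) ℂ) :
    De i (∏ k ∈ s, F k) = ∑ k ∈ s, (∏ l ∈ s.erase k, F l) * De i (F k) := by
  induction s using Finset.induction_on with
  | empty => simp [De]
  | insert a s ha ih =>
    rw [Finset.prod_insert ha, De_mul, ih, Finset.sum_insert ha, Finset.erase_insert ha,
      Finset.mul_sum]
    congr 1
    · ring
    · refine Finset.sum_congr rfl fun k hk => ?_
      have hak : a ≠ k := fun h => ha (h ▸ hk)
      rw [Finset.erase_insert_of_ne hak, Finset.prod_insert]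
      · ring
      · simp [ha]

theorem De_vdm (F : Fin r → MvPolynomial (Fin r) ℂ) :
    ∑ i, De i (vdm ℂ r) * F i
      = ∑ p ∈ prs r, Qp p * (X p.1 * F p.1 - X p.2 * F p.2) := by
  have h : ∀ i, De i (vdm ℂ r) * F i
      = ∑ p ∈ prs r, Qp p * ((if p.1 = i then X i else 0) - (if p.2 = i then X i else 0)) * F i := by
    intro i
    unfold vdm
    rw [De_prod, Finset.sum_mul]
    refine Finset.sum_congr rfl fun p _ => ?_
    rw [De_sub, De_X, De_X]
    rfl
  simp only [h]
  rw [Finset.sum_comm]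
  refine Finset.sum_congr rfl fun p _ => ?_
  have h2 : ∀ i, Qp p * ((if p.1 = i then X i else 0) - (if p.2 = i then X i else 0)) * F i
      = Qp p * ((if p.1 = i then X i * F i else 0) - (if p.2 = i then X i * F i else 0)) := by
    intro i
    split_ifs <;> ring
  simp only [h2]
  rw [← Finset.mul_sum, Finset.sum_sub_distrib, Finset.sum_ite_eq, Finset.sum_ite_eq]
  simp

theorem sum_prs (f : Fin r → MvPolynomial (Fin r) ℂ) :
    ∑ p ∈ prs r, (f p.1 + f p.2) = ((r : MvPolynomial (Fin r) ℂ) - 1) * ∑ i, f i := by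
  have h1 : ∑ p ∈ prs r, (f p.1 + f p.2)
      = ∑ i, ∑ j, (if i < j then f i + f j else 0) := by
    unfold prs
    rw [Finset.sum_filter, Fintype.sum_prod_type]
  have h2 : ∑ i, ∑ j, (if i < j then f i + f j else 0)
      = ∑ i, ∑ j, (if i < j then f i else 0) + ∑ i, ∑ j, (if j < i then f i else 0) := by
    rw [Finset.sum_comm (f := fun i j => if j < i then f i else 0), ← Finset.sum_add_distrib]
    refine Finset.sum_congr rfl fun i _ => ?_
    rw [← Finset.sum_add_distrib]
    refine Finset.sum_congr rfl fun j _ => ?_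
    split_ifs <;> simp
  rw [h1, h2, ← Finset.sum_add_distrib, Finset.mul_sum]
  refine Finset.sum_congr rfl fun i _ => ?_
  rw [← Finset.sum_add_distrib]
  have h3 : ∀ j, ((if i < j then f i else 0) + (if j < i then f i else 0))
      = f i - (if i = j then f i else 0) := by
    intro j
    rcases lt_trichotomy i j with h | h | h
    · simp [h, h.ne, not_lt.2 h.le]
    · simp [h]
    · simp [h, h.ne', not_lt.2 h.le]
  simp only [h3]
  rw [Finset.sum_sub_distrib, Finset.sum_const, Finset.sum_ite_eq]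
  simp
  ring

/-- The main identity. `X` character, `T i j` the traces. -/
theorem Lap_vdm_mul (c D R2 : ℂ) (ch : MvPolynomial (Fin r) ℂ)
    (T : Fin r → Fin r → MvPolynomial (Fin r) ℂ)
    (h1 : ∀ p ∈ prs r, (X p.1 - X p.2) * T p.1 p.2 = De p.1 ch - De p.2 ch)
    (h2 : C c * ch = Lap ch + ∑ p ∈ prs r, (X p.1 + X p.2) * T p.1 p.2)
    (h3 : ∑ i, De i ch = C D * ch)
    (h4 : Lap (vdm ℂ r) = C R2 * vdm ℂ r) :
    Lap (vdm ℂ r * ch) = C (c + ((r : ℂ) - 1) * D + R2) * (vdm ℂ r * ch) := by
  have e1 : 2 * ∑ i, De i (vdm ℂ r) * De i ch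
      = vdm ℂ r * (∑ p ∈ prs r, (X p.1 + X p.2) * T p.1 p.2)
        + vdm ℂ r * ∑ p ∈ prs r, (De p.1 ch + De p.2 ch) := by
    rw [De_vdm, Finset.mul_sum, Finset.mul_sum, Finset.mul_sum, ← Finset.sum_add_distrib]
    refine Finset.sum_congr rfl fun p hp => ?_
    rw [← Qp_mul hp]
    have := h1 p hp
    linear_combination (- Qp p * (X p.1 + X p.2)) * this
  rw [Lap_mul, e1, sum_prs (fun i => De i ch), h3, h4]
  have h2' : Lap ch = C c * ch - ∑ p ∈ prs r, (X p.1 + X p.2) * T p.1 p.2 := by
    rw [h2]; ring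
  rw [h2']
  simp only [map_add, map_mul, map_sub, map_one, map_natCast]
  ring

end Pool.Agent.Lib.MP_a688ad_al
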