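import Pool.Agent.Lib.MP_a688ad_al.HW1
import Pool.Agent.Lib.MP_a688ad_al.Alt

/-!
# Graded `gl_r`-modules: traces and the Casimir operator
-/

set_option autoImplicit false

open MvPolynomial Finset

namespace Pool.Agent.Lib.MP_a688ad_al

variable {r : ℕ}

/-- The unit vector. -/
def sg (i : Fin r) : Fin r → ℤ := Pi.single i 1

theorem Lap_vdm : Lap (vdm ℂ r) = C (∑ i, (rho r i : ℂ) ^ 2) * vdm ℂ r := by
  ext m
  rw [coeff_Lap, coeff_C_mul]
  by_cases h : coeff m (vdm ℂ r) = 0
  · rw [h]; simp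
  · have : ∃ σ : Equiv.Perm (Fin r), ∀ i, m i = rho r (σ i) := by
      by_contra hcon
      push Not at hcon
      apply h
      rw [vdm_eq, coeff_sum]
      apply Finset.sum_eq_zero
      intro σ _
      obtain ⟨i, hi⟩ := hcon σ
      have e : ((Equiv.Perm.sign σ : ℤ) : MvPolynomial (Fin r) ℂ)
        = C ((Equiv.Perm.sign σ : ℤ) : ℂ) := by simp
      rw [e, coeff_C_mul, coeff_monomial, if_neg, mul_zero]
      intro h2
      apply hi
      rw [← h2]
      rfl
    obtain ⟨σ, hσ⟩ := this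
    congr 1
    simp only [hσ]
    exact Equiv.sum_comp σ (fun i => (rho r i : ℂ) ^ 2)

/-- A family of weight spaces closed under the action of `gl_r`. -/
structure GlFam (r : ℕ) (V : Type*) [AddCommGroup V] [Module ℂ V] where
  E : Fin r → Fin r → V →ₗ[ℂ] V
  comm : ∀ i j k l v, E i j (E k l v) - E k l (E i j v)
    = (if j = k then E i l v else 0) - (if i = l then E k j v else 0)
  G : (Fin r → ℤ) → Submodule ℂ V
  fin : ∀ ν, FiniteDimensional ℂ (G ν)
  map : ∀ ν i j v, v ∈ G ν → E i j v ∈ G (ν + sg i - sg j)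
  diag : ∀ ν i v, v ∈ G ν → E i i v = (ν i : ℂ) • v
  d0 : ℕ
  nonneg : ∀ (ν : Fin r → ℤ) (i : Fin r), ν i < 0 → G ν = ⊥
  deg : ∀ ν : Fin r → ℤ, ∑ i, ν i ≠ (d0 : ℤ) → G ν = ⊥

namespace GlFam

variable {V : Type*} [AddCommGroup V] [Module ℂ V] (S : GlFam r V)

attribute [instance] GlFam.fin

/-- The operator `E i j` between two weight spaces. -/
noncomputable def res (i j : Fin r) (ν ν' : Fin r → ℤ) (h : ν' = ν + sg i - sg j) :
    S.G ν →ₗ[ℂ] S.G ν' :=
  (S.E i j).restrict (fun v hv => h ▸ S.map ν i j v hv)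

/-- `E i j E j i` on the weight space. -/
noncomputable def EE (i j : Fin r) (ν : Fin r → ℤ) : S.G ν →ₗ[ℂ] S.G ν :=
  (S.res i j (ν + sg j - sg i) ν (by abel)) ∘ₗ (S.res j i ν (ν + sg j - sg i) rfl)

theorem EE_apply (i j : Fin r) (ν : Fin r → ℤ) (v : S.G ν) :
    (S.EE i j ν v : V) = S.E i j (S.E j i v) := rfl

noncomputable def T (i j : Fin r) (ν : Fin r → ℤ) : ℂ := LinearMap.trace ℂ (S.G ν) (S.EE i j ν)

noncomputable def dd (ν : Fin r → ℤ) : ℂ := (Module.finrank ℂ (S.G ν) : ℂ)

theorem T_swap (i j : Fin r) (ν : Fin r → ℤ) : S.T i j ν = S.T j i (ν + sg j - sg i) := by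
  unfold T EE
  rw [LinearMap.trace_comp_comm']
  congr 1

theorem T_sub {i j : Fin r} (ν : Fin r → ℤ) :
    S.T i j ν - S.T j i ν = ((ν i : ℂ) - ν j) * S.dd ν := by
  unfold T dd
  rw [← map_sub]
  have e : S.EE i j ν - S.EE j i ν = ((ν i : ℂ) - ν j) • LinearMap.id := by
    ext v
    have h1 := S.comm i j j i v
    rw [if_pos rfl, if_pos rfl, S.diag ν i v v.2, S.diag ν j v v.2] at h1
    simp only [LinearMap.sub_apply, LinearMap.smul_apply, LinearMap.id_apply, Submodule.coe_sub,
      Submodule.coe_smul, EE_apply]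
    rw [h1, sub_smul]
  rw [e, map_smul, LinearMap.trace_id, smul_eq_mul]

theorem dd_neg {ν : Fin r → ℤ} {i : Fin r} (h : ν i < 0) : S.dd ν = 0 := by
  unfold dd
  rw [S.nonneg ν i h]
  simp

theorem dd_deg {ν : Fin r → ℤ} (h : ∑ i, ν i ≠ S.d0) : S.dd ν = 0 := by
  unfold dd
  rw [S.deg ν h]
  simp

theorem T_of_bot (i j : Fin r) {ν : Fin r → ℤ} (h : S.G ν = ⊥) : S.T i j ν = 0 := by
  unfold T
  have : S.EE i j ν = 0 := by
    ext v
    have hv : (v : V) = 0 := by
      have h' : (v : V) ∈ (⊥ : Submodule ℂ V) := by rw [← h]; exact v.2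
      exact (Submodule.mem_bot ℂ).1 h'
    rw [EE_apply, hv]
    simp
  rw [this, map_zero]

theorem T_of_bot' (i j : Fin r) {ν : Fin r → ℤ} (h : S.G (ν + sg j - sg i) = ⊥) :
    S.T i j ν = 0 := by
  rw [T_swap]
  exact S.T_of_bot _ _ h

/-- The character as a polynomial. -/
noncomputable def ch : MvPolynomial (Fin r) ℂ :=
  ∑ m ∈ finsuppAntidiag univ S.d0, monomial m (S.dd (fun i => (m i : ℤ)))

theorem coeff_ch (m : Fin r →₀ ℕ) : coeff m S.ch = S.dd (fun i => (m i : ℤ)) := by
  unfold ch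
  rw [coeff_sum]
  simp only [coeff_monomial]
  rw [Finset.sum_ite_eq']
  split_ifs with h
  · rfl
  · rw [S.dd_deg]
    intro h2
    apply h
    rw [mem_finsuppAntidiag]
    refine ⟨?_, Finset.subset_univ _⟩
    exact_mod_cast h2

/-- The polynomial of the traces. -/
noncomputable def TP (i j : Fin r) : MvPolynomial (Fin r) ℂ :=
  ∑ m ∈ finsuppAntidiag univ (S.d0 - 1), monomial m (S.T i j ((fun k => (m k : ℤ)) + sg i))

theorem sum_sg (i : Fin r) : ∑ k, sg i k = 1 := by
  unfold sg
  simp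

theorem coeff_TP (i j : Fin r) (m : Fin r →₀ ℕ) :
    coeff m (S.TP i j) = S.T i j ((fun k => (m k : ℤ)) + sg i) := by
  unfold TP
  rw [coeff_sum]
  simp only [coeff_monomial]
  rw [Finset.sum_ite_eq']
  split_ifs with h
  · rfl
  · symm
    apply S.T_of_bot
    apply S.deg
    intro h2
    apply h
    rw [mem_finsuppAntidiag]
    refine ⟨?_, Finset.subset_univ _⟩
    have h3 : ∑ k, ((m k : ℤ) + sg i k) = S.d0 := h2
    rw [Finset.sum_add_distrib, sum_sg] at h3
    have h4 : ((∑ k, m k : ℕ) : ℤ) + 1 = S.d0 := by push_cast; exact h3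
    have h5 : ∑ k, m k = S.d0 - 1 := by omega
    exact h5

theorem coeff_X_TP {i j : Fin r} (hij : i ≠ j) (m : Fin r →₀ ℕ) :
    coeff m (X i * S.TP i j) = S.T i j (fun k => (m k : ℤ)) := by
  rw [mul_comm, X, coeff_mul_monomial']
  split_ifs with h
  · rw [coeff_TP, mul_one]
    congr 1
    ext k
    by_cases hk : k = i
    · subst hk
      have := h k
      simp only [Finsupp.single_eq_same] at this
      simp [sg]
      omega
    · simp [sg, hk, Finsupp.single_apply, Ne.symm hk]
  · symm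
    apply S.T_of_bot'
    apply S.nonneg _ i
    have : m i = 0 := by
      by_contra h0
      apply h
      intro k
      by_cases hk : k = i
      · subst hk; simp; omega
      · simp [Finsupp.single_apply, Ne.symm hk]
    simp [sg, this, hij]

theorem coeff_X_TP' {i j : Fin r} (hij : i ≠ j) (m : Fin r →₀ ℕ) :
    coeff m (X j * S.TP i j) = S.T j i (fun k => (m k : ℤ)) := by
  have h2 : S.T j i (fun k => (m k : ℤ)) = S.T i j ((fun k => (m k : ℤ)) + sg i - sg j) :=
    S.T_swap j i _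
  rw [mul_comm, X, coeff_mul_monomial']
  split_ifs with h
  · rw [coeff_TP, mul_one, h2]
    congr 1
    ext k
    by_cases hk : k = j
    · subst hk
      have := h k
      simp only [Finsupp.single_eq_same] at this
      simp [sg, hij.symm]
      omega
    · simp [sg, hk, Finsupp.single_apply, Ne.symm hk]
  · have : m j = 0 := by
      by_contra h0
      apply h
      intro k
      by_cases hk : k = j
      · subst hk; simp; omega
      · simp [Finsupp.single_apply, Ne.symm hk]
    rw [h2]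
    symm
    apply S.T_of_bot
    apply S.nonneg _ j
    simp [sg, this, hij.symm]

theorem TP_rel {i j : Fin r} (hij : i ≠ j) :
    (X i - X j) * S.TP i j = De i S.ch - De j S.ch := by
  ext m
  rw [sub_mul, coeff_sub, coeff_sub, coeff_X_TP S hij, coeff_X_TP' S hij, coeff_De, coeff_De,
    coeff_ch, T_sub]
  push_cast
  ring

theorem sum_De_ch : ∑ i, De i S.ch = C (S.d0 : ℂ) * S.ch := by
  ext m
  rw [coeff_sum, coeff_C_mul]
  simp only [coeff_De]
  rw [← Finset.sum_mul]
  by_cases h : ∑ i, (m i : ℤ) = S.d0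
  · congr 1
    exact_mod_cast h
  · rw [coeff_ch, S.dd_deg h]
    simp

/-- The Casimir operator. -/
noncomputable def Cas : V →ₗ[ℂ] V := ∑ i, ∑ j, S.E i j ∘ₗ S.E j i

theorem Cas_apply (v : V) : S.Cas v = ∑ i, ∑ j, S.E i j (S.E j i v) := by
  simp [Cas, LinearMap.sum_apply]

theorem Cas_comm (k l : Fin r) (v : V) : S.Cas (S.E k l v) = S.E k l (S.Cas v) := by
  rw [Cas_apply, Cas_apply, map_sum]
  simp only [map_sum]
  rw [← sub_eq_zero, ← Finset.sum_sub_distrib]
  have h : ∀ i, (∑ j, S.E i j (S.E j i (S.E k l v))) - ∑ j, S.E k l (S.E i j (S.E j i v))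
      = ∑ j, ((if i = k then S.E i j (S.E j l v) else 0) - (if j = l then S.E i j (S.E k i v) else 0)
        + (if j = k then S.E i l (S.E j i v) else 0) - (if i = l then S.E k j (S.E j i v) else 0)) := by
    intro i
    rw [← Finset.sum_sub_distrib]
    refine Finset.sum_congr rfl fun j _ => ?_
    have h1 := S.comm j i k l v
    have h2 := S.comm i j k l (S.E j i v)
    have h3 := congrArg (S.E i j) h1
    rw [map_sub, map_sub] at h3
    have e1 : S.E i j (if i = k then S.E j l v else 0) = if i = k then S.E i j (S.E j l v) else 0 := by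
      split_ifs <;> simp
    have e2 : S.E i j (if j = l then S.E k i v else 0) = if j = l then S.E i j (S.E k i v) else 0 := by
      split_ifs <;> simp
    rw [e1, e2] at h3
    calc S.E i j (S.E j i (S.E k l v)) - S.E k l (S.E i j (S.E j i v))
        = (S.E i j (S.E j i (S.E k l v)) - S.E i j (S.E k l (S.E j i v)))
          + (S.E i j (S.E k l (S.E j i v)) - S.E k l (S.E i j (S.E j i v))) := by abel
      _ = _ := by rw [h3, h2]; abel
  simp only [h, Finset.sum_add_distrib, Finset.sum_sub_distrib]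
  rw [Finset.sum_comm (f := fun i j => if i = k then S.E i j (S.E j l v) else 0)]
  simp only [Finset.sum_ite_eq', Finset.mem_univ, if_true]
  rw [Finset.sum_comm (f := fun i j => if i = l then S.E k j (S.E j i v) else 0)]
  simp only [Finset.sum_ite_eq', Finset.mem_univ, if_true]
  abel

theorem Cas_mem {ν : Fin r → ℤ} {v : V} (hv : v ∈ S.G ν) : S.Cas v ∈ S.G ν := by
  rw [Cas_apply]
  refine Submodule.sum_mem _ fun i _ => Submodule.sum_mem _ fun j _ => ?_
  have h1 := S.map ν j i v hv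
  have h2 := S.map _ i j _ h1
  have e : ν + sg j - sg i + sg i - sg j = ν := by abel
  rwa [e] at h2

theorem trace_Cas (ν : Fin r → ℤ) :
    LinearMap.trace ℂ (S.G ν) (S.Cas.restrict (fun _ hv => S.Cas_mem hv))
      = (∑ i, (ν i : ℂ) ^ 2) * S.dd ν + ∑ p ∈ prs r, (S.T p.1 p.2 ν + S.T p.2 p.1 ν) := by
  have e : S.Cas.restrict (fun _ hv => S.Cas_mem hv) = ∑ i, ∑ j, S.EE i j ν := by
    ext v
    simp only [LinearMap.sum_apply, LinearMap.coe_restrict_apply]
    rw [Cas_apply]
    simp only [AddSubmonoidClass.coe_finsetSum, EE_apply]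
  rw [e, map_sum]
  simp only [map_sum]
  have h1 : ∀ i j, LinearMap.trace ℂ (S.G ν) (S.EE i j ν)
      = (if i = j then ((ν i : ℂ) ^ 2) * S.dd ν else 0) + ((if i < j then S.T i j ν else 0)
        + (if j < i then S.T i j ν else 0)) := by
    intro i j
    rcases lt_trichotomy i j with h | h | h
    · simp [h, h.ne, not_lt.2 h.le, T]
    · subst h
      simp only [if_true, lt_irrefl, if_false, add_zero]
      have : S.EE i i ν = ((ν i : ℂ) ^ 2) • LinearMap.id := by
        ext v
        rw [EE_apply, S.diag ν i v v.2, map_smul, S.diag ν i v v.2, smul_smul]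
        simp [pow_two]
      rw [this, map_smul, LinearMap.trace_id]
      rfl
    · simp [h, h.ne', not_lt.2 h.le, T]
  simp only [h1, Finset.sum_add_distrib]
  congr 1
  · simp only [Finset.sum_ite_eq, Finset.mem_univ, if_true]
    rw [Finset.sum_mul]
  · rw [Finset.sum_comm (f := fun i j => if j < i then S.T i j ν else 0)]
    unfold prs
    rw [Finset.sum_filter, Finset.sum_filter, Fintype.sum_prod_type, Fintype.sum_prod_type]

/-- On a family where `Cas - c` is nilpotent. -/
theorem Lap_ch (c : ℂ)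
    (hc : ∀ ν, LinearMap.trace ℂ (S.G ν) (S.Cas.restrict (fun _ hv => S.Cas_mem hv))
      = c * S.dd ν) :
    Lap (vdm ℂ r * S.ch) = C (c + ((r : ℂ) - 1) * S.d0 + ∑ i, (rho r i : ℂ) ^ 2)
      * (vdm ℂ r * S.ch) := by
  apply Lap_vdm_mul c (S.d0 : ℂ) (∑ i, (rho r i : ℂ) ^ 2) S.ch S.TP
  · intro p hp
    have : p.1 < p.2 := by simpa [prs] using hp
    exact S.TP_rel this.ne
  · ext m
    rw [coeff_C_mul, coeff_ch, ← hc, trace_Cas, coeff_add, coeff_Lap, coeff_ch, coeff_sum]
    push_cast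
    congr 1
    refine Finset.sum_congr rfl fun p hp => ?_
    have : p.1 < p.2 := by simpa [prs] using hp
    rw [add_mul, coeff_add, coeff_X_TP S this.ne, coeff_X_TP' S this.ne]
  · exact S.sum_De_ch
  · exact Lap_vdm

theorem cf_ch (ν : Fin r → ℤ) : cf S.ch ν = S.dd ν := by
  unfold cf
  split_ifs with h
  · rw [coeff_ch]
    congr 1
    ext i
    rw [toF_apply, Int.toNat_of_nonneg (h i)]
  · push Not at h
    obtain ⟨i, hi⟩ := h
    rw [S.dd_neg hi]

/-- The coefficients of `vdm * ch` vanish outside a sphere. -/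
theorem altc_ch_ne (c : ℂ)
    (hc : ∀ ν, LinearMap.trace ℂ (S.G ν) (S.Cas.restrict (fun _ hv => S.Cas_mem hv))
      = c * S.dd ν) (κ : Fin r → ℤ) (hκ : ∀ i, 0 ≤ κ i) (h : altc S.ch κ ≠ 0) :
    ∑ i, (κ i : ℂ) ^ 2 = c + ((r : ℂ) - 1) * S.d0 + ∑ i, (rho r i : ℂ) ^ 2 := by
  have h1 := congrArg (coeff (toF κ)) (S.Lap_ch c hc)
  rw [coeff_Lap, coeff_C_mul] at h1
  have h2 : coeff (toF κ) (vdm ℂ r * S.ch) = altc S.ch κ := by
    rw [← coeff_vdm_mul]
    unfold cf
    rw [if_pos hκ]
  rw [h2] at h1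
  have h3 := mul_right_cancel₀ h h1
  rw [← h3]
  refine Finset.sum_congr rfl fun i _ => ?_
  have e1 := congrArg (Int.cast : ℤ → ℂ) (Int.toNat_of_nonneg (hκ i))
  rw [Int.cast_natCast] at e1
  rw [toF_apply, e1]

end GlFam

end Pool.Agent.Lib.MP_a688ad_al
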