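import Pool.Agent.Lib.MP_a688ad_al.HW2

/-!
# Highest weight vectors and alternating sums of weight multiplicities
-/

set_option autoImplicit false

open MvPolynomial Finset

namespace Pool.Agent.Lib.MP_a688ad_al

variable {r : ℕ}

/-- Dominance order (dual form). -/
def Dom (κ' κ : Fin r → ℤ) : Prop := ∀ x : Fin r → ℤ, Antitone x → ∑ i, κ' i * x i ≤ ∑ i, κ i * x i

theorem Dom.refl (κ : Fin r → ℤ) : Dom κ κ := fun _ _ => le_rfl

theorem Dom.trans {a b c : Fin r → ℤ} (h1 : Dom a b) (h2 : Dom b c) : Dom a c :=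
  fun x hx => (h1 x hx).trans (h2 x hx)

theorem sum_add_sg (κ x : Fin r → ℤ) (i j : Fin r) :
    ∑ k, (κ + sg i - sg j) k * x k = ∑ k, κ k * x k + (x i - x j) := by
  have : ∀ k, (κ + sg i - sg j) k * x k
      = κ k * x k + ((if k = i then x k else 0) - (if k = j then x k else 0)) := by
    intro k
    simp only [Pi.sub_apply, Pi.add_apply, sg, Pi.single_apply]
    split_ifs <;> ring
  simp only [this, Finset.sum_add_distrib, Finset.sum_sub_distrib, Finset.sum_ite_eq',
    Finset.mem_univ, if_true]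

theorem dom_add (κ : Fin r → ℤ) {i j : Fin r} (h : i < j) : Dom κ (κ + sg i - sg j) := by
  intro x hx
  rw [sum_add_sg]
  have := hx h.le
  omega

theorem two_sum_rho (κ : Fin r → ℤ) :
    2 * ∑ i, κ i * (rho r i : ℤ)
      = ∑ p ∈ prs r, (κ p.1 - κ p.2) + ((r : ℤ) - 1) * ∑ i, κ i := by
  have h1 : ∑ p ∈ prs r, (κ p.1 - κ p.2)
      = ∑ i, κ i * (((r : ℤ) - 1 - i) - i) := by
    unfold prs
    rw [Finset.sum_filter, Fintype.sum_prod_type]
    have h2 : ∑ i, ∑ j, (if i < j then κ i - κ j else 0)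
        = ∑ i, ∑ j, (if i < j then κ i else 0) - ∑ i, ∑ j, (if j < i then κ i else 0) := by
      rw [Finset.sum_comm (f := fun i j => if j < i then κ i else 0), ← Finset.sum_sub_distrib]
      refine Finset.sum_congr rfl fun i _ => ?_
      rw [← Finset.sum_sub_distrib]
      refine Finset.sum_congr rfl fun j _ => ?_
      split_ifs <;> simp
    rw [h2, ← Finset.sum_sub_distrib]
    refine Finset.sum_congr rfl fun i _ => ?_
    have h3 : ∑ j, (if i < j then κ i else 0) = κ i * ((r : ℤ) - 1 - i) := by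
      rw [← Finset.sum_filter, Finset.sum_const]
      have : (univ.filter (fun j => i < j) : Finset (Fin r)) = Finset.Ioi i := by
        ext j; simp
      have hi := i.2
      have e : ((r - 1 - (i : ℕ) : ℕ) : ℤ) = (r : ℤ) - 1 - i := by omega
      rw [this, Fin.card_Ioi, nsmul_eq_mul, e]
      ring
    have h4 : ∑ j, (if j < i then κ i else 0) = κ i * i := by
      rw [← Finset.sum_filter, Finset.sum_const]
      have : (univ.filter (fun j => j < i) : Finset (Fin r)) = Finset.Iio i := by
        ext j; simp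
      rw [this, Fin.card_Iio, nsmul_eq_mul]
      ring
    rw [h3, h4]
    ring
  rw [h1, Finset.mul_sum, Finset.mul_sum, ← Finset.sum_add_distrib]
  refine Finset.sum_congr rfl fun i _ => ?_
  have : (rho r i : ℤ) = (r : ℤ) - 1 - i := by
    unfold rho
    have := i.2
    omega
  rw [this]
  ring

namespace GlFam

variable {V : Type*} [AddCommGroup V] [Module ℂ V] (S : GlFam r V)

/-- Every weight lies below the weight of a space of highest weight vectors. -/
theorem exists_top {κ' : Fin r → ℤ} (h : S.G κ' ≠ ⊥) :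
    ∃ κ, S.G κ ≠ ⊥ ∧ Dom κ' κ ∧ ∀ i j, i < j → S.G (κ + sg i - sg j) = ⊥ := by
  classical
  by_contra hcon
  push Not at hcon
  have key : ∀ n : ℕ, ∃ κ, S.G κ ≠ ⊥ ∧ Dom κ' κ ∧ (n : ℤ) ≤ ∑ i, κ i * rho r i := by
    intro n
    induction n with
    | zero =>
      refine ⟨κ', h, Dom.refl _, ?_⟩
      apply Finset.sum_nonneg
      intro i _
      apply mul_nonneg _ (by positivity)
      by_contra hneg
      exact h (S.nonneg κ' i (by omega))
    | succ n ih =>
      obtain ⟨κ, h1, h2, h3⟩ := ih
      obtain ⟨i, j, hij, h4⟩ := hcon κ h1 h2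
      refine ⟨_, h4, h2.trans (dom_add κ hij), ?_⟩
      rw [sum_add_sg]
      have : (rho r j : ℤ) < rho r i := by
        unfold rho
        have := i.2
        have := j.2
        have : (i : ℕ) < j := hij
        omega
      push_cast
      omega
  obtain ⟨κ, h1, -, h3⟩ := key (S.d0 * r + 1)
  have h5 : ∑ i, κ i = S.d0 := by
    by_contra h6
    exact h1 (S.deg κ h6)
  have h6 : ∑ i, κ i * rho r i ≤ ∑ i, κ i * r := by
    refine Finset.sum_le_sum fun i _ => ?_
    apply mul_le_mul_of_nonneg_left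
    · unfold rho; omega
    · by_contra hneg
      exact h1 (S.nonneg κ i (by omega))
  rw [← Finset.sum_mul, h5] at h6
  push_cast at h3
  omega

theorem iter_mem {κ : Fin r → ℤ} {v : V} (hv : v ∈ S.G κ) (i j : Fin r) (k : ℕ) :
    (S.E j i)^[k] v ∈ S.G (κ + k • (sg j - sg i)) := by
  induction k with
  | zero => simpa using hv
  | succ k ih =>
    rw [Function.iterate_succ_apply']
    have := S.map _ j i _ ih
    have e : κ + (k + 1) • (sg j - sg i) = κ + k • (sg j - sg i) + sg j - sg i := by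
      rw [succ_nsmul]; abel
    rw [e]
    exact this

/-- `sl_2`: weights of highest weight vectors are dominant. -/
theorem dominant {κ : Fin r → ℤ} {v : V} (hv : v ∈ S.G κ) (h0 : v ≠ 0) {i j : Fin r} (hij : i ≠ j)
    (h : S.E i j v = 0) : κ j ≤ κ i := by
  by_contra hlt
  push Not at hlt
  have e1 : ∀ k : ℕ, (κ + k • (sg j - sg i)) i = κ i - k := by
    intro k; simp [sg, hij]; ring
  have e2 : ∀ k : ℕ, (κ + k • (sg j - sg i)) j = κ j + k := by
    intro k; simp [sg, hij.symm]
  have key : ∀ k : ℕ, S.E i j ((S.E j i)^[k + 1] v)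
      = (((k : ℂ) + 1) * ((κ i : ℂ) - κ j - k)) • (S.E j i)^[k] v := by
    intro k
    induction k with
    | zero =>
      have h1 := S.comm i j j i v
      rw [if_pos rfl, if_pos rfl, h, map_zero, sub_zero, S.diag κ i v hv, S.diag κ j v hv] at h1
      simp only [Function.iterate_succ, Function.iterate_zero, Function.comp_apply, id_eq]
      rw [h1, ← sub_smul]
      congr 1
      push_cast
      ring
    | succ k ih =>
      have hm := S.iter_mem hv i j (k + 1)
      have h1 := S.comm i j j i ((S.E j i)^[k + 1] v)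
      rw [if_pos rfl, if_pos rfl, ih, S.diag _ i _ hm, S.diag _ j _ hm, map_smul] at h1
      rw [Function.iterate_succ_apply']
      rw [sub_eq_iff_eq_add] at h1
      rw [h1, ← sub_smul, e1, e2]
      have h2 : S.E j i ((S.E j i)^[k] v) = (S.E j i)^[k + 1] v :=
        (Function.iterate_succ_apply' _ _ _).symm
      rw [h2, ← add_smul]
      congr 1
      push_cast
      ring
  have hne : ∀ k : ℕ, (S.E j i)^[k] v ≠ 0 := by
    intro k
    induction k with
    | zero => simpa using h0
    | succ k ih =>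
      intro hz
      have := key k
      rw [hz, map_zero] at this
      symm at this
      rw [smul_eq_zero] at this
      rcases this with h1 | h1
      · rw [mul_eq_zero] at h1
        rcases h1 with h1 | h1
        · exact absurd h1 (by exact_mod_cast Nat.succ_ne_zero k)
        · have h2 : ((κ i - κ j - k : ℤ) : ℂ) = 0 := by push_cast; exact h1
          have h3 : κ i - κ j - k = 0 := by exact_mod_cast h2
          omega
      · exact ih h1
  have hm := S.iter_mem hv i j ((κ i).toNat + 1)
  rw [S.nonneg _ i] at hm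
  · exact hne _ ((Submodule.mem_bot ℂ).1 hm)
  · rw [e1]
    omega

/-- The eigenvalue of the Casimir operator. -/
def cval (κ : Fin r → ℤ) : ℤ := ∑ i, κ i ^ 2 + ∑ p ∈ prs r, (κ p.1 - κ p.2)

theorem cval_eq {κ : Fin r → ℤ} {d0 : ℤ} (h : ∑ i, κ i = d0) :
    ∑ i, (κ i + rho r i) ^ 2 = cval κ + ((r : ℤ) - 1) * d0 + ∑ i, (rho r i : ℤ) ^ 2 := by
  have h1 := two_sum_rho κ
  rw [h] at h1
  have h2 : ∑ i, (κ i + rho r i : ℤ) ^ 2
      = ∑ i, κ i ^ 2 + 2 * ∑ i, κ i * (rho r i : ℤ) + ∑ i, (rho r i : ℤ) ^ 2 := by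
    rw [Finset.mul_sum, ← Finset.sum_add_distrib, ← Finset.sum_add_distrib]
    refine Finset.sum_congr rfl fun i _ => ?_
    ring
  rw [h2, h1, cval]
  ring

theorem Cas_hw {κ : Fin r → ℤ} {v : V} (hv : v ∈ S.G κ) (h : ∀ i j, i < j → S.E i j v = 0) :
    S.Cas v = (cval κ : ℂ) • v := by
  rw [Cas_apply]
  have h1 : ∀ i j, S.E i j (S.E j i v)
      = (if i = j then ((κ i : ℂ) ^ 2) • v else 0) + (if i < j then ((κ i : ℂ) - κ j) • v else 0) := by
    intro i j
    rcases lt_trichotomy i j with hij | hij | hij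
    · have h2 := S.comm i j j i v
      rw [if_pos rfl, if_pos rfl, h i j hij, map_zero, sub_zero, S.diag κ i v hv,
        S.diag κ j v hv] at h2
      rw [h2, if_neg hij.ne, if_pos hij, sub_smul, zero_add]
    · subst hij
      rw [S.diag κ i v hv, map_smul, S.diag κ i v hv, smul_smul]
      simp [pow_two]
    · rw [h j i hij]
      simp [hij.ne', not_lt.2 hij.le]
  simp only [h1, Finset.sum_add_distrib, Finset.sum_ite_eq, Finset.mem_univ, if_true]
  rw [cval]
  push_cast
  rw [add_smul, Finset.sum_smul]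
  congr 1
  unfold prs
  rw [Finset.sum_smul, Finset.sum_filter, Fintype.sum_prod_type]

/-- The part of the family on which `Cas - c` is nilpotent. -/
noncomputable def sub (c : ℂ) : GlFam r V where
  E := S.E
  comm := S.comm
  G := fun ν => S.G ν ⊓ Module.End.maxGenEigenspace S.Cas c
  fin := fun ν => inferInstance
  map := by
    intro ν i j v hv
    refine ⟨S.map ν i j v hv.1, ?_⟩
    have hc : Commute S.Cas (S.E i j) := by
      ext v
      exact S.Cas_comm i j v
    exact Module.End.mapsTo_maxGenEigenspace_of_comm hc c hv.2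
  diag := fun ν i v hv => S.diag ν i v hv.1
  d0 := S.d0
  nonneg := fun ν i h => by rw [S.nonneg ν i h, bot_inf_eq]
  deg := fun ν h => by rw [S.deg ν h, bot_inf_eq]

theorem sub_trace (c : ℂ) (ν : Fin r → ℤ) :
    LinearMap.trace ℂ ((S.sub c).G ν)
      ((S.sub c).Cas.restrict (fun _ hv => (S.sub c).Cas_mem hv)) = c * (S.sub c).dd ν := by
  set f := (S.sub c).Cas.restrict (fun _ hv => (S.sub c).Cas_mem (ν := ν) hv) with hf
  have hnil : IsNilpotent (f - c • (1 : Module.End ℂ ((S.sub c).G ν))) := by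
    rw [Module.End.isNilpotent_iff_of_finite]
    intro v
    have h1 : (v : V) ∈ Module.End.maxGenEigenspace S.Cas c := v.2.2
    rw [Module.End.mem_maxGenEigenspace] at h1
    obtain ⟨k, hk⟩ := h1
    refine ⟨k, ?_⟩
    have h2 : ∀ (k : ℕ) (w : (S.sub c).G ν),
        (((f - c • (1 : Module.End ℂ ((S.sub c).G ν))) ^ k) w : V)
          = ((S.Cas - c • (1 : Module.End ℂ V)) ^ k) (w : V) := by
      intro k
      induction k with
      | zero => intro w; simp
      | succ k ih =>
        intro w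
        rw [pow_succ, pow_succ, Module.End.mul_apply, Module.End.mul_apply, ih]
        congr 1
    apply Subtype.ext
    rw [h2, hk]
    rfl
  have h1 := (LinearMap.isNilpotent_trace_of_isNilpotent hnil).eq_zero
  rw [map_sub, map_smul, sub_eq_zero] at h1
  rw [h1]
  have : LinearMap.trace ℂ ((S.sub c).G ν) (1 : Module.End ℂ ((S.sub c).G ν))
      = (S.sub c).dd ν := LinearMap.trace_id ℂ _
  rw [this, smul_eq_mul]

/-- Multiplicities add up. -/
theorem dd_sub (ν : Fin r → ℤ) :
    ∃ s : Finset ℂ, ∀ t : Finset ℂ, s ⊆ t → S.dd ν = ∑ c ∈ t, (S.sub c).dd ν := by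
  classical
  set f := S.Cas.restrict (fun _ hv => S.Cas_mem (ν := ν) hv) with hf
  refine ⟨f.charpoly.roots.toFinset, fun t ht => ?_⟩
  have h1 : ∀ c, (S.sub c).dd ν = (f.charpoly.rootMultiplicity c : ℂ) := by
    intro c
    unfold dd
    rw [← LinearMap.finrank_maxGenEigenspace_eq]
    congr 1
    have e : (Module.End.maxGenEigenspace f c) = Submodule.comap (S.G ν).subtype
        (Module.End.maxGenEigenspace S.Cas c) :=
      Module.End.genEigenspace_restrict S.Cas (S.G ν) ⊤ c (fun _ hv => S.Cas_mem hv)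
    rw [e, ← Submodule.finrank_map_subtype_eq, Submodule.map_comap_subtype]
    rfl
  simp only [h1]
  have h2 : ∀ c, f.charpoly.rootMultiplicity c = f.charpoly.roots.count c := fun c =>
    (Polynomial.count_roots _).symm
  simp only [h2]
  have h3 : ∑ c ∈ t, f.charpoly.roots.count c = f.charpoly.roots.card := by
    rw [← Multiset.toFinset_sum_count_eq]
    symm
    apply Finset.sum_subset ht
    intro c _ hc
    rw [Multiset.mem_toFinset] at hc
    exact Multiset.count_eq_zero.2 hc
  have h4 : f.charpoly.roots.card = Module.finrank ℂ (S.G ν) := by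
    rw [← IsAlgClosed.splits f.charpoly |>.natDegree_eq_card_roots, LinearMap.charpoly_natDegree]
  unfold dd
  rw [← h4, ← h3]
  push_cast
  rfl

/-- The highest weight vectors. -/
def HW (lam : Fin r → ℤ) : Submodule ℂ V where
  carrier := {v | v ∈ S.G lam ∧ ∀ i j, i < j → S.E i j v = 0}
  add_mem' := fun {a b} ha hb => ⟨Submodule.add_mem _ ha.1 hb.1, fun i j h => by
    rw [map_add, ha.2 i j h, hb.2 i j h, add_zero]⟩
  zero_mem' := ⟨Submodule.zero_mem _, fun i j _ => map_zero _⟩
  smul_mem' := fun c a ha => ⟨Submodule.smul_mem _ _ ha.1, fun i j h => by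
    rw [map_smul, ha.2 i j h, smul_zero]⟩

theorem mem_HW {lam : Fin r → ℤ} {v : V} :
    v ∈ S.HW lam ↔ v ∈ S.G lam ∧ ∀ i j, i < j → S.E i j v = 0 := Iff.rfl

/-- No weights above `lam` in the eigenspace of `lam`. -/
theorem no_above {lam : Fin r → ℤ} (hl : Antitone lam) (hd : ∑ i, lam i = S.d0)
    {κ' : Fin r → ℤ} (h1 : Dom lam κ')
    (h2 : 0 < ∑ i, κ' i * (lam i + rho r i) - ∑ i, lam i * (lam i + rho r i)) :
    (S.sub (cval lam)).G κ' = ⊥ := by
  by_contra hne
  obtain ⟨κ, hκ, hdom, htop⟩ := (S.sub (cval lam)).exists_top hne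
  obtain ⟨v, hv, hv0⟩ := Submodule.exists_mem_ne_zero_of_ne_bot hκ
  have hE : ∀ i j, i < j → S.E i j v = 0 := by
    intro i j hij
    have := (S.sub (cval lam)).map κ i j v hv
    rw [htop i j hij] at this
    exact (Submodule.mem_bot ℂ).1 this
  have hanti : Antitone κ := by
    intro i j hij
    rcases hij.lt_or_eq with h | h
    · exact S.dominant hv.1 hv0 h.ne (hE i j h)
    · rw [h]
  have hsum : ∑ i, κ i = S.d0 := by
    by_contra h6
    exact hκ ((S.sub (cval lam)).deg κ h6)
  have hcas := S.Cas_hw hv.1 hE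
  have hc : cval κ = cval lam := by
    have h3 : v ∈ Module.End.maxGenEigenspace S.Cas ((cval lam : ℤ) : ℂ) := hv.2
    rw [Module.End.mem_maxGenEigenspace] at h3
    obtain ⟨k, hk⟩ := h3
    have h4 : ∀ k : ℕ, ((S.Cas - ((cval lam : ℤ) : ℂ) • (1 : Module.End ℂ V)) ^ k) v
        = (((cval κ : ℤ) : ℂ) - cval lam) ^ k • v := by
      intro k
      induction k with
      | zero => simp
      | succ k ih =>
        rw [pow_succ', Module.End.mul_apply, ih, map_smul, LinearMap.sub_apply, hcas,
          LinearMap.smul_apply, Module.End.one_apply, ← sub_smul, smul_smul, pow_succ]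
    rw [h4, smul_eq_zero] at hk
    rcases hk with hk | hk
    · have h6 : ((cval κ : ℤ) : ℂ) - cval lam = 0 := by
        by_contra h7
        exact pow_ne_zero k h7 hk
      have h7 : ((cval κ - cval lam : ℤ) : ℂ) = 0 := by push_cast; exact h6
      have h8 : cval κ - cval lam = 0 := by exact_mod_cast h7
      omega
    · exact absurd hk hv0
  have e1 := cval_eq hsum
  have e2 := cval_eq hd
  rw [hc, ← e2] at e1
  have hr : Antitone (fun i : Fin r => (rho r i : ℤ)) := by
    intro i j hij
    have : (i : ℕ) ≤ j := hij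
    show ((r - 1 - (j : ℕ) : ℕ) : ℤ) ≤ ((r - 1 - (i : ℕ) : ℕ) : ℤ)
    omega
  have a1 := (h1.trans hdom) (fun i => κ i + rho r i) (fun i j h => add_le_add (hanti h) (hr h))
  have a2 := hdom (fun i => lam i + rho r i) (fun i j h => add_le_add (hl h) (hr h))
  have e3 : ∑ i, (κ i + rho r i : ℤ) ^ 2 - ∑ i, (lam i + rho r i : ℤ) ^ 2
      = (∑ i, κ i * (κ i + rho r i) - ∑ i, lam i * (κ i + rho r i))
        + (∑ i, κ i * (lam i + rho r i) - ∑ i, lam i * (lam i + rho r i)) := by
    simp only [← Finset.sum_sub_distrib, ← Finset.sum_add_distrib]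
    refine Finset.sum_congr rfl fun i _ => ?_
    ring
  omega

theorem rearr {lam : Fin r → ℤ} (hl : Antitone lam) (σ : Equiv.Perm (Fin r)) :
    ∑ i, (rho r (σ i) : ℤ) * lam i ≤ ∑ i, (rho r i : ℤ) * lam i := by
  have hm : Monovary (fun i : Fin r => lam i) (fun i : Fin r => (rho r i : ℤ)) := by
    intro i j hij
    apply hl
    by_contra hcon
    push Not at hcon
    have h1 : (i : ℕ) < j := hcon
    have h2 : ((r - 1 - (i : ℕ) : ℕ) : ℤ) < ((r - 1 - (j : ℕ) : ℕ) : ℤ) := hij
    omega
  have := hm.sum_mul_comp_perm_le_sum_mul (σ := σ)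
  simpa [mul_comm] using this

theorem dom_rho {lam : Fin r → ℤ} (σ : Equiv.Perm (Fin r)) :
    Dom lam (fun i => lam i + rho r i - rho r (σ i)) := by
  intro x hx
  have := rearr hx σ
  have e : ∑ i, (lam i + rho r i - rho r (σ i)) * x i
      = ∑ i, lam i * x i + (∑ i, (rho r i : ℤ) * x i - ∑ i, (rho r (σ i) : ℤ) * x i) := by
    simp only [← Finset.sum_sub_distrib, ← Finset.sum_add_distrib]
    refine Finset.sum_congr rfl fun i _ => ?_
    ring
  rw [e]
  omega

theorem rho_strict {lam : Fin r → ℤ} (hl : Antitone lam) {σ : Equiv.Perm (Fin r)} (hσ : σ ≠ 1) :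
    0 < ∑ i, (lam i + rho r i - rho r (σ i)) * (lam i + rho r i)
      - ∑ i, lam i * (lam i + rho r i) := by
  have h1 := rearr hl σ
  have h2 : ∑ i, (rho r (σ i) : ℤ) ^ 2 = ∑ i, (rho r i : ℤ) ^ 2 :=
    Equiv.sum_comp σ (fun i => (rho r i : ℤ) ^ 2)
  have h3 : 0 < ∑ i, ((rho r i : ℤ) - rho r (σ i)) ^ 2 := by
    obtain ⟨i, hi⟩ : ∃ i, σ i ≠ i := by
      by_contra hcon
      push Not at hcon
      exact hσ (Equiv.ext hcon)
    apply Finset.sum_pos'
    · intro i _; positivity
    · refine ⟨i, mem_univ i, ?_⟩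
      have : (rho r i : ℤ) - rho r (σ i) ≠ 0 := by
        intro h
        apply hi
        unfold rho at h
        have h4 := i.2
        have h5 := (σ i).2
        ext
        omega
      positivity
  have e : 2 * (∑ i, (lam i + rho r i - rho r (σ i)) * (lam i + rho r i)
      - ∑ i, lam i * (lam i + rho r i))
      = 2 * (∑ i, (rho r i : ℤ) * lam i - ∑ i, (rho r (σ i) : ℤ) * lam i)
        + ∑ i, ((rho r i : ℤ) - rho r (σ i)) ^ 2
        + (∑ i, (rho r i : ℤ) ^ 2 - ∑ i, (rho r (σ i) : ℤ) ^ 2) := by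
    simp only [← Finset.sum_sub_distrib, ← Finset.sum_add_distrib, Finset.mul_sum]
    refine Finset.sum_congr rfl fun i _ => ?_
    ring
  rw [h2] at e
  omega

/-- The alternating sum for one eigenvalue of the Casimir operator. -/
theorem altc_sub {lam : Fin r → ℤ} (hl : Antitone lam) (h0 : ∀ i, 0 ≤ lam i)
    (hd : ∑ i, lam i = S.d0) (c : ℂ) :
    altc (S.sub c).ch (fun i => lam i + rho r i)
      = if c = (cval lam : ℤ) then (S.sub c).dd lam else 0 := by
  split_ifs with hc
  · subst hc
    unfold altc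
    rw [Finset.sum_eq_single (1 : Equiv.Perm (Fin r))]
    · rw [cf_ch]
      simp
    · intro σ _ hσ
      rw [cf_ch]
      have := S.no_above hl hd (dom_rho σ) (rho_strict hl hσ)
      unfold dd
      rw [this]
      simp
    · intro h; exact absurd (mem_univ _) h
  · by_contra hne
    apply hc
    have h1 := (S.sub c).altc_ch_ne c (S.sub_trace c) (fun i => lam i + rho r i)
      (fun i => add_nonneg (h0 i) (by positivity)) hne
    have h2 := cval_eq hd
    have h3 : ((∑ i, (lam i + rho r i) ^ 2 : ℤ) : ℂ)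
      = ((cval lam + ((r : ℤ) - 1) * S.d0 + ∑ i, (rho r i : ℤ) ^ 2 : ℤ) : ℂ) := by rw [h2]
    push_cast at h1 h3
    rw [h3] at h1
    have h4 : (S.sub c).d0 = S.d0 := rfl
    rw [h4] at h1
    linear_combination - h1

theorem HW_eq {lam : Fin r → ℤ} (hl : Antitone lam) (hd : ∑ i, lam i = S.d0) :
    S.HW lam = (S.sub (cval lam : ℤ)).G lam := by
  ext v
  rw [mem_HW]
  constructor
  · rintro ⟨h1, h2⟩
    refine ⟨h1, ?_⟩
    show v ∈ Module.End.maxGenEigenspace S.Cas ((cval lam : ℤ) : ℂ)
    rw [Module.End.mem_maxGenEigenspace]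
    refine ⟨1, ?_⟩
    rw [pow_one, LinearMap.sub_apply, S.Cas_hw h1 h2]
    simp
  · intro hv
    refine ⟨hv.1, fun i j hij => ?_⟩
    have h1 := (S.sub (cval lam : ℤ)).map lam i j v hv
    rw [S.no_above hl hd (dom_add lam hij)] at h1
    · exact (Submodule.mem_bot ℂ).1 h1
    · rw [sum_add_sg]
      have h2 := hl hij.le
      have h3 : (i : ℕ) < j := hij
      have := j.2
      unfold rho
      omega

/-- **Highest weight vectors**: their number is the alternating sum of weight multiplicities. -/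
theorem finrank_HW {lam : Fin r → ℤ} (hl : Antitone lam) (h0 : ∀ i, 0 ≤ lam i)
    (hd : ∑ i, lam i = S.d0) :
    (Module.finrank ℂ (S.HW lam) : ℂ) = altc S.ch (fun i => lam i + rho r i) := by
  classical
  have h1 : ∀ ν : Fin r → ℤ, ∃ s : Finset ℂ, ∀ t : Finset ℂ, s ⊆ t →
      S.dd ν = ∑ c ∈ t, (S.sub c).dd ν := S.dd_sub
  choose s hs using h1
  set t : Finset ℂ := insert ((cval lam : ℤ) : ℂ) ((univ : Finset (Equiv.Perm (Fin r))).biUnion
    (fun σ => s (fun i => lam i + rho r i - rho r (σ i)))) with ht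
  have h2 : altc S.ch (fun i => lam i + rho r i)
      = ∑ c ∈ t, altc (S.sub c).ch (fun i => lam i + rho r i) := by
    unfold altc
    rw [Finset.sum_comm]
    refine Finset.sum_congr rfl fun σ _ => ?_
    rw [← Finset.mul_sum, cf_ch]
    simp only [cf_ch]
    rw [hs _ t]
    exact (Finset.subset_biUnion_of_mem (fun σ : Equiv.Perm (Fin r) =>
      s (fun i => lam i + rho r i - rho r (σ i))) (mem_univ σ)).trans (Finset.subset_insert _ _)
  rw [h2]
  simp only [S.altc_sub hl h0 hd]
  rw [Finset.sum_ite_eq' t, if_pos (Finset.mem_insert_self _ _)]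
  unfold dd
  rw [S.HW_eq hl hd]

end GlFam

end Pool.Agent.Lib.MP_a688ad_al
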