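import Pool.Agent.Lib.MP_a688ad_al.Lst

/-!
# The coefficients in three variables
-/

set_option autoImplicit false

open MvPolynomial Finset Equiv

namespace Pool.Agent.Lib.MP_a688ad_al

/-- The coefficients of `1`. -/
theorem altc_one {r : ℕ} {κ : Fin r → ℤ} (hκ : StrictAnti κ) :
    altc (1 : MvPolynomial (Fin r) ℤ) κ = if (∀ i, κ i = rho r i) then 1 else 0 := by
  unfold altc
  rw [Finset.sum_eq_single (1 : Perm (Fin r))]
  · rw [cf_one]
    simp only [Perm.sign_one, Units.val_one, Int.cast_one, one_mul, Perm.coe_one, id_eq]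
    congr 1
    apply propext
    constructor
    · intro h i
      have := congrFun h i
      simp only [Pi.zero_apply] at this
      omega
    · intro h
      ext i
      simp [h i]
  · intro σ _ hσ
    rw [cf_one, if_neg, mul_zero]
    intro h
    apply hσ
    have h1 : ∀ i, κ i = rho r (σ i) := by
      intro i
      have := congrFun h i
      simp only [Pi.zero_apply] at this
      omega
    have h2 : StrictMono σ := by
      intro i j hij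
      have h3 := hκ hij
      rw [h1, h1] at h3
      have h4 := (σ i).2
      have h5 := (σ j).2
      unfold rho at h3
      rw [Fin.lt_def]
      omega
    have h3 : (σ : Fin r → Fin r) = id := by
      refine (h2.range_inj strictMono_id).1 ?_
      rw [σ.range_eq_univ, Set.range_id]
    exact Equiv.ext (fun i => congrFun h3 i)
  · intro h; exact absurd (mem_univ _) h

section three

variable {κ : Fin 3 → ℤ}

theorem sub_strictAnti {β : Fin 3 → ℕ} (h : ∀ i j : Fin 3, (i : ℕ) + 1 = j → κ j < κ i - β i) :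
    StrictAnti (fun i => κ i - (β i : ℤ)) := by
  apply strictAnti_of
  intro i j hij
  have := h i j hij
  omega

theorem box_iff {β : Fin 3 → ℕ} : (∀ i j : Fin 3, (i : ℕ) + 1 = j → κ j < κ i - β i)
    ↔ (κ 1 < κ 0 - β 0 ∧ κ 2 < κ 1 - β 1) := by
  constructor
  · intro h
    exact ⟨h 0 1 rfl, h 1 2 rfl⟩
  · rintro ⟨h1, h2⟩ i j hij
    fin_cases i <;> fin_cases j <;> simp_all

/-- The range of summation of the Pieri rule. -/
noncomputable def Bx (κ : Fin 3 → ℤ) (N : ℕ) : Finset (Fin 3 → ℕ) :=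
  (piAntidiag univ N).filter (fun β => ∀ i j : Fin 3, (i : ℕ) + 1 = j → κ j < κ i - β i)

theorem mem_Bx {N : ℕ} {β : Fin 3 → ℕ} :
    β ∈ Bx κ N ↔ (β 0 + β 1 + β 2 = N ∧ κ 1 < κ 0 - β 0 ∧ κ 2 < κ 1 - β 1) := by
  unfold Bx
  rw [Finset.mem_filter, mem_piAntidiag, box_iff, Fin.sum_univ_three]
  simp

theorem strictAnti_three (h : StrictAnti κ) : κ 1 < κ 0 ∧ κ 2 < κ 1 :=
  ⟨h (by decide), h (by decide)⟩

theorem unique_sum {N : ℕ} (f : (Fin 3 → ℕ) → ℤ) (b : Fin 3 → ℤ) (P : Prop) [Decidable P]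
    (h1 : ∀ β ∈ Bx κ N, f β = if (∀ i, (β i : ℤ) = b i) then 1 else 0)
    (h2 : P ↔ (0 ≤ b 0 ∧ 0 ≤ b 1 ∧ 0 ≤ b 2 ∧ b 0 + b 1 + b 2 = N ∧ κ 1 < κ 0 - b 0 ∧ κ 2 < κ 1 - b 1)) :
    ∑ β ∈ Bx κ N, f β = if P then 1 else 0 := by
  rw [Finset.sum_congr rfl h1]
  by_cases hP : P
  · rw [if_pos hP]
    rw [h2] at hP
    obtain ⟨p0, p1, p2, p3, p4, p5⟩ := hP
    have hb : ∀ i, 0 ≤ b i := by
      intro i; fin_cases i
      · exact p0
      · exact p1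
      · exact p2
    rw [Finset.sum_eq_single (fun i => (b i).toNat)]
    · rw [if_pos]
      intro i
      exact Int.toNat_of_nonneg (hb i)
    · intro β _ hβ
      rw [if_neg]
      intro h
      apply hβ
      ext i
      have := h i
      have := hb i
      omega
    · intro h
      exfalso
      apply h
      rw [mem_Bx]
      refine ⟨?_, ?_, ?_⟩ <;> omega
  · rw [if_neg hP]
    apply Finset.sum_eq_zero
    intro β hβ
    rw [if_neg]
    intro h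
    apply hP
    rw [h2]
    rw [mem_Bx] at hβ
    have e0 := h 0
    have e1 := h 1
    have e2 := h 2
    omega

theorem altc_h1 {N : ℕ} (hκ : StrictAnti κ) (hs : κ 0 + κ 1 + κ 2 = N + 3) (h0 : 0 ≤ κ 2) :
    altc (hd 3 1 N * 1) κ = if κ 1 = 1 ∧ κ 2 = 0 then 1 else 0 := by
  rw [pieri anti_one N hκ]
  obtain ⟨a1, a2⟩ := strictAnti_three hκ
  refine unique_sum _ (fun i => κ i - rho 3 i) _ ?_ ?_
  · intro β hβ
    have hβ' := hβ
    unfold Bx at hβ'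
    rw [Finset.mem_filter] at hβ'
    rw [altc_one (sub_strictAnti hβ'.2)]
    congr 1
    apply propext
    refine forall_congr' fun i => ?_
    constructor <;> intro h <;> omega
  · have r0 : (rho 3 0 : ℤ) = 2 := rfl
    have r1 : (rho 3 1 : ℤ) = 1 := rfl
    have r2 : (rho 3 2 : ℤ) = 0 := rfl
    simp only [r0, r1, r2]
    omega

theorem altc_h2 {N : ℕ} (hκ : StrictAnti κ) (hs : κ 0 + κ 1 + κ 2 = 2 * N + 3) (h0 : 0 ≤ κ 2) :
    altc (hd 3 1 N * (hd 3 1 N * 1)) κ = if κ 2 = 0 then 1 else 0 := by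
  rw [pieri (anti_one.hd 1 N) N hκ]
  obtain ⟨a1, a2⟩ := strictAnti_three hκ
  refine unique_sum _ ![N - (κ 1 - 1) - κ 2, κ 1 - 1, κ 2] _ ?_ ?_
  · intro β hβ
    have hβ' := hβ
    unfold Bx at hβ'
    rw [Finset.mem_filter] at hβ'
    rw [mem_Bx] at hβ
    by_cases h2 : 0 ≤ κ 2 - β 2
    · rw [altc_h1 (N := N) (sub_strictAnti hβ'.2) (by
        show κ 0 - (β 0 : ℤ) + (κ 1 - β 1) + (κ 2 - β 2) = N + 3
        omega) h2]
      congr 1
      apply propext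
      rw [Fin.forall_fin_succ, Fin.forall_fin_two]
      simp
      omega
    · rw [altc_neg _ (i := 2) (by simpa using h2), if_neg]
      intro h
      have := h 2
      simp at this
      omega
  · simp
    omega

theorem altc_zero_neg (F : MvPolynomial (Fin 3) ℤ) (h0 : κ 2 < 0) : altc F κ = 0 := altc_neg F h0

/-- The Pieri rule for coefficients supported on partitions with two rows. -/
theorem pieri_two {F : MvPolynomial (Fin 3) ℤ} (hF : Anti (altc F)) {N : ℕ} (w : ℤ → ℤ)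
    (hw : ∀ κ : Fin 3 → ℤ, StrictAnti κ → κ 0 + κ 1 + κ 2 = 2 * N + 3 → 0 ≤ κ 2 →
      altc F κ = if κ 2 = 0 then w (κ 1) else 0)
    (hκ : StrictAnti κ) (hs : κ 0 + κ 1 + κ 2 = 3 * N + 3) (h0 : 0 ≤ κ 2) :
    altc (hd 3 1 N * F) κ
      = ∑ g ∈ Finset.Icc (max (κ 2 + 1) (2 * N + 3 - κ 0)) (min (κ 1) (2 * N + 2 - κ 1)), w g := by
  rw [pieri hF N hκ]
  obtain ⟨a1, a2⟩ := strictAnti_three hκ
  have h1 : ∀ β ∈ Bx κ N, altc F (fun i => κ i - (β i : ℤ))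
      = if κ 2 - (β 2 : ℤ) = 0 then w (κ 1 - β 1) else 0 := by
    intro β hβ
    have hβ' := hβ
    unfold Bx at hβ'
    rw [Finset.mem_filter] at hβ'
    rw [mem_Bx] at hβ
    by_cases h2 : 0 ≤ κ 2 - β 2
    · exact hw _ (sub_strictAnti hβ'.2) (by
        show κ 0 - (β 0 : ℤ) + (κ 1 - β 1) + (κ 2 - β 2) = 2 * N + 3
        omega) h2
    · rw [altc_neg _ (i := 2) (by simpa using h2), if_neg (by omega)]
  have h2 := Finset.sum_congr rfl h1
  unfold Bx at h2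
  rw [h2, ← Finset.sum_filter]
  symm
  refine Finset.sum_bij' (i := fun g _ => (![(N - κ 2 - κ 1 + g).toNat, (κ 1 - g).toNat, (κ 2).toNat] :
    Fin 3 → ℕ)) (j := fun β _ => κ 1 - (β 1 : ℤ)) ?_ ?_ ?_ ?_ ?_
  · intro g hg
    rw [Finset.mem_Icc] at hg
    rw [Finset.mem_filter]
    have e : (![(N - κ 2 - κ 1 + g).toNat, (κ 1 - g).toNat, (κ 2).toNat] : Fin 3 → ℕ) ∈ Bx κ N ↔ _ :=
      mem_Bx
    unfold Bx at e
    rw [e]
    simp
    omega
  · intro β hβ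
    rw [Finset.mem_filter] at hβ
    have e : β ∈ Bx κ N ↔ _ := mem_Bx
    unfold Bx at e
    rw [e] at hβ
    rw [Finset.mem_Icc]
    omega
  · intro g hg
    rw [Finset.mem_Icc] at hg
    simp
    omega
  · intro β hβ
    rw [Finset.mem_filter] at hβ
    have e : β ∈ Bx κ N ↔ _ := mem_Bx
    unfold Bx at e
    rw [e] at hβ
    ext i
    fin_cases i <;> simp <;> omega
  · intro g hg
    rw [Finset.mem_Icc] at hg
    simp
    congr 1
    omega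

theorem altc_h3 {N : ℕ} (hκ : StrictAnti κ) (hs : κ 0 + κ 1 + κ 2 = 3 * N + 3) (h0 : 0 ≤ κ 2) :
    altc (hd 3 1 N * (hd 3 1 N * (hd 3 1 N * 1))) κ = min (κ 0 - κ 1) (κ 1 - κ 2) := by
  rw [pieri_two ((anti_one.hd 1 N).hd 1 N) (fun _ => 1)
    (fun κ h1 h2 h3 => altc_h2 h1 h2 h3) hκ hs h0]
  rw [Finset.sum_const, Int.card_Icc, nsmul_eq_mul, mul_one]
  obtain ⟨a1, a2⟩ := strictAnti_three hκ
  omega

/-- The coefficients of `h_N(x^d)` as a determinant. -/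
theorem altc_hd_det {d : ℕ} (hd0 : 0 < d) {N : ℕ} (κ : Fin 3 → ℤ)
    (hs : κ 0 + κ 1 + κ 2 = d * N + 3) :
    altc (hd 3 d N) κ = Matrix.det (fun j i : Fin 3 =>
      (if 0 ≤ κ i - rho 3 j ∧ (d : ℤ) ∣ κ i - rho 3 j then (1 : ℤ) else 0)) := by
  rw [Matrix.det_apply']
  unfold altc
  refine Finset.sum_congr rfl fun σ _ => ?_
  rw [cf_hd hd0, Finset.prod_boole]
  congr 1
  congr 1
  apply propext
  have h1 : ∑ i, (κ i - (rho 3 (σ i) : ℤ)) = d * N := by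
    rw [Finset.sum_sub_distrib, Equiv.sum_comp σ (fun i => (rho 3 i : ℤ)), Fin.sum_univ_three,
      Fin.sum_univ_three]
    have r0 : (rho 3 0 : ℤ) = 2 := rfl
    have r1 : (rho 3 1 : ℤ) = 1 := rfl
    have r2 : (rho 3 2 : ℤ) = 0 := rfl
    rw [r0, r1, r2]
    omega
  simp [h1]

/-- The coefficients of `h_N(x^2)` in three variables. -/
theorem altc_hd2 {N : ℕ} (hκ : StrictAnti κ) (hs : κ 0 + κ 1 + κ 2 = 2 * N + 3) (h0 : 0 ≤ κ 2) :
    altc (hd 3 2 N) κ = if κ 2 = 0 then (if κ 1 % 2 = 1 then 1 else -1) else 0 := by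
  obtain ⟨a1, a2⟩ := strictAnti_three hκ
  have r0 : (rho 3 0 : ℤ) = 2 := rfl
  have r1 : (rho 3 1 : ℤ) = 1 := rfl
  have r2 : (rho 3 2 : ℤ) = 0 := rfl
  by_cases h2 : κ 2 = 0
  · rw [if_pos h2, altc_hd_det (by norm_num) κ (by exact_mod_cast hs), Matrix.det_fin_three]
    simp only [r0, r1, r2, h2]
    have e1 : ¬ ((0 : ℤ) ≤ 0 - 2 ∧ ((2 : ℕ) : ℤ) ∣ 0 - 2) := by omega
    have e2 : ¬ ((0 : ℤ) ≤ 0 - 1 ∧ ((2 : ℕ) : ℤ) ∣ 0 - 1) := by omega
    have e3 : ((0 : ℤ) ≤ 0 - 0 ∧ ((2 : ℕ) : ℤ) ∣ 0 - 0) := by omega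
    rw [if_neg e1, if_neg e2, if_pos e3]
    by_cases h1 : κ 1 % 2 = 1
    · have f1 : (0 : ℤ) ≤ κ 0 - 2 ∧ ((2 : ℕ) : ℤ) ∣ κ 0 - 2 := by omega
      have f2 : (0 : ℤ) ≤ κ 1 - 1 ∧ ((2 : ℕ) : ℤ) ∣ κ 1 - 1 := by omega
      have f3 : ¬ ((0 : ℤ) ≤ κ 0 - 1 ∧ ((2 : ℕ) : ℤ) ∣ κ 0 - 1) := by omega
      rw [if_pos f1, if_pos f2, if_neg f3, if_pos h1]
      ring
    · have f1 : ¬ ((0 : ℤ) ≤ κ 0 - 2 ∧ ((2 : ℕ) : ℤ) ∣ κ 0 - 2) := by omega
      have f2 : (0 : ℤ) ≤ κ 1 - 2 ∧ ((2 : ℕ) : ℤ) ∣ κ 1 - 2 := by omega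
      have f3 : ((0 : ℤ) ≤ κ 0 - 1 ∧ ((2 : ℕ) : ℤ) ∣ κ 0 - 1) := by omega
      rw [if_neg f1, if_pos f2, if_pos f3, if_neg h1]
      ring
  · rw [if_neg h2]
    apply van_hd (by norm_num) N κ hκ 2 rfl
    show ((0 : ℕ) : ℤ) < κ 2
    push_cast
    omega

/-- The sign of the three core. -/
def t3 (x y z : ℤ) : ℤ :=
  if x % 3 = 2 ∧ y % 3 = 1 ∧ z % 3 = 0 then 1 else
  if x % 3 = 1 ∧ y % 3 = 0 ∧ z % 3 = 2 then 1 else
  if x % 3 = 0 ∧ y % 3 = 2 ∧ z % 3 = 1 then 1 else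
  if x % 3 = 1 ∧ y % 3 = 2 ∧ z % 3 = 0 then -1 else
  if x % 3 = 2 ∧ y % 3 = 0 ∧ z % 3 = 1 then -1 else
  if x % 3 = 0 ∧ y % 3 = 1 ∧ z % 3 = 2 then -1 else 0

theorem altc_hd3 {N : ℕ} (hs : κ 0 + κ 1 + κ 2 = 3 * N + 3) (h0 : ∀ i, 0 ≤ κ i) :
    altc (hd 3 3 N) κ = t3 (κ 0) (κ 1) (κ 2) := by
  have r0 : (rho 3 0 : ℤ) = 2 := rfl
  have r1 : (rho 3 1 : ℤ) = 1 := rfl
  have r2 : (rho 3 2 : ℤ) = 0 := rfl
  rw [altc_hd_det (by norm_num) κ (by exact_mod_cast hs), Matrix.det_fin_three]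
  simp only [r0, r1, r2]
  have key2 : ∀ x : ℤ, 0 ≤ x → ((0 ≤ x - 2 ∧ ((3 : ℕ) : ℤ) ∣ x - 2) ↔ x % 3 = 2) := by
    intro x hx; omega
  have key1 : ∀ x : ℤ, 0 ≤ x → ((0 ≤ x - 1 ∧ ((3 : ℕ) : ℤ) ∣ x - 1) ↔ x % 3 = 1) := by
    intro x hx; omega
  have key0 : ∀ x : ℤ, 0 ≤ x → ((0 ≤ x - 0 ∧ ((3 : ℕ) : ℤ) ∣ x - 0) ↔ x % 3 = 0) := by
    intro x hx; omega
  simp only [key2 _ (h0 _), key1 _ (h0 _), key0 _ (h0 _)]
  unfold t3
  have hm : ∀ x : ℤ, x % 3 = 0 ∨ x % 3 = 1 ∨ x % 3 = 2 := by intro x; omega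
  rcases hm (κ 0) with h | h | h <;> rcases hm (κ 1) with h' | h' | h' <;>
    rcases hm (κ 2) with h'' | h'' | h'' <;> simp [h, h', h'']

/-- Alternating sums of signs. -/
theorem sum_sign (a b : ℤ) (h : a ≤ b + 1) :
    ∑ g ∈ Finset.Icc a b, (if g % 2 = 1 then (1 : ℤ) else -1)
      = if (b - a) % 2 = 0 then (if a % 2 = 1 then 1 else -1) else 0 := by
  obtain ⟨n, hn⟩ : ∃ n : ℕ, b = a - 1 + n := ⟨(b - a + 1).toNat, by omega⟩
  subst hn
  clear h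
  induction n with
  | zero =>
    have : Finset.Icc a (a - 1 + ((0 : ℕ) : ℤ)) = ∅ := by
      rw [Finset.Icc_eq_empty]
      push_cast
      omega
    rw [this, Finset.sum_empty, if_neg]
    push_cast
    omega
  | succ n ih =>
    have e : Finset.Icc a (a - 1 + ((n + 1 : ℕ) : ℤ))
        = insert (a + n) (Finset.Icc a (a - 1 + (n : ℤ))) := by
      ext x
      simp only [Finset.mem_Icc, Finset.mem_insert]
      push_cast
      omega
    rw [e, Finset.sum_insert (by simp), ih]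
    push_cast
    split_ifs <;> omega

theorem altc_hh2 {N : ℕ} (hκ : StrictAnti κ) (hs : κ 0 + κ 1 + κ 2 = 3 * N + 3) (h0 : 0 ≤ κ 2) :
    altc (hd 3 1 N * hd 3 2 N) κ
      = if (min (κ 0 - κ 1) (κ 1 - κ 2)) % 2 = 0 then 0 else
        if κ 1 - κ 2 ≤ κ 0 - κ 1 then (if κ 2 % 2 = 0 then 1 else -1)
          else (if κ 0 % 2 = 0 then 1 else -1) := by
  have ha : Anti (altc (hd 3 2 N)) := by simpa using anti_one.hd 2 N
  rw [pieri_two ha (fun g => if g % 2 = 1 then 1 else -1)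
    (fun κ h1 h2 h3 => altc_hd2 h1 h2 h3) hκ hs h0]
  obtain ⟨a1, a2⟩ := strictAnti_three hκ
  rw [sum_sign _ _ (by omega)]
  split_ifs <;> omega

end three

end Pool.Agent.Lib.MP_a688ad_al
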