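import Pool.Agent.Lib.MP_a688ad_al.Stab

/-!
# Bead lists
-/

set_option autoImplicit false

open MvPolynomial Finset Equiv

namespace Pool.Agent.Lib.MP_a688ad_al

/-- The vector of a list. -/
def vec (r : ℕ) (l : List ℕ) : Fin r → ℤ := fun i => ((l.getD i 0 : ℕ) : ℤ)

/-- Insert a bead into a decreasing list, with a sign (`true` is `-1`). -/
def ins (y : ℕ) : List ℕ → List (Bool × List ℕ)
  | [] => [(false, [y])]
  | z :: zs => if z < y then [(false, y :: z :: zs)] else
      if z = y then [] else (ins y zs).map (fun t => (!t.1, z :: t.2))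

/-- Move one bead down by `k`. -/
def mv (k : ℕ) : List ℕ → List (Bool × List ℕ)
  | [] => []
  | x :: xs => (if k ≤ x then ins (x - k) xs else []) ++ (mv k xs).map (fun t => (t.1, x :: t.2))

/-- Signed sum. -/
def ev (A : List ℕ → ℤ) : List (Bool × List ℕ) → ℤ
  | [] => 0
  | t :: ts => (if t.1 then - A t.2 else A t.2) + ev A ts

theorem ev_append (A : List ℕ → ℤ) (L L' : List (Bool × List ℕ)) :
    ev A (L ++ L') = ev A L + ev A L' := by
  induction L with
  | nil => simp [ev]
  | cons t ts ih => simp only [List.cons_append, ev, ih]; ring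

theorem ev_map (A : List ℕ → ℤ) (f : List ℕ → List ℕ) (L : List (Bool × List ℕ)) :
    ev A (L.map (fun t => (t.1, f t.2))) = ev (fun l => A (f l)) L := by
  induction L with
  | nil => rfl
  | cons t ts ih => simp only [List.map_cons, ev, ih]

theorem ev_map_not (A : List ℕ → ℤ) (f : List ℕ → List ℕ) (L : List (Bool × List ℕ)) :
    ev A (L.map (fun t => (!t.1, f t.2))) = - ev (fun l => A (f l)) L := by
  induction L with
  | nil => rfl
  | cons t ts ih =>
    simp only [List.map_cons, ev, ih]
    cases t.1 <;> simp <;> ring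

theorem ev_congr {A B : List ℕ → ℤ} {L : List (Bool × List ℕ)} (h : ∀ t ∈ L, A t.2 = B t.2) :
    ev A L = ev B L := by
  induction L with
  | nil => rfl
  | cons t ts ih =>
    simp only [ev]
    rw [h t (by simp), ih (fun t' ht' => h t' (by simp [ht']))]

theorem ev_add (A B : List ℕ → ℤ) (L : List (Bool × List ℕ)) :
    ev (fun l => A l + B l) L = ev A L + ev B L := by
  induction L with
  | nil => rfl
  | cons t ts ih =>
    simp only [ev, ih]
    split_ifs <;> ring

theorem ev_mul (c : ℤ) (A : List ℕ → ℤ) (L : List (Bool × List ℕ)) :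
    ev (fun l => c * A l) L = c * ev A L := by
  induction L with
  | nil => simp [ev]
  | cons t ts ih =>
    simp only [ev, ih]
    split_ifs <;> ring

theorem ins_length (y : ℕ) (q : List ℕ) : ∀ t ∈ ins y q, t.2.length = q.length + 1 := by
  induction q with
  | nil => intro t ht; simp [ins] at ht; subst ht; rfl
  | cons z zs ih =>
    intro t ht
    simp only [ins] at ht
    split_ifs at ht with h1 h2
    · simp only [List.mem_singleton] at ht
      subst ht
      simp
    · simp at ht
    · rw [List.mem_map] at ht
      obtain ⟨t', ht', rfl⟩ := ht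
      simp [ih t' ht']

theorem mv_length (k : ℕ) (q : List ℕ) : ∀ t ∈ mv k q, t.2.length = q.length := by
  induction q with
  | nil => intro t ht; simp [mv] at ht
  | cons x xs ih =>
    intro t ht
    simp only [mv, List.mem_append] at ht
    rcases ht with ht | ht
    · split_ifs at ht with h
      · rw [ins_length _ _ t ht]; rfl
      · simp at ht
    · rw [List.mem_map] at ht
      obtain ⟨t', ht', rfl⟩ := ht
      simp [ih t' ht']

theorem vec_swap {r : ℕ} (p q : List ℕ) (y z : ℕ) (h : p.length + 1 < r) :
    vec r (p ++ y :: z :: q) = vec r (p ++ z :: y :: q)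
      ∘ swap ⟨p.length, by omega⟩ ⟨p.length + 1, h⟩ := by
  ext i
  simp only [vec, Function.comp_apply]
  by_cases h1 : i = ⟨p.length, by omega⟩
  · subst h1
    rw [swap_apply_left]
    simp [List.getD_append_right]
  · by_cases h2 : i = ⟨p.length + 1, h⟩
    · subst h2
      rw [swap_apply_right]
      simp [List.getD_append_right]
    · rw [swap_apply_of_ne_of_ne h1 h2]
      have h1' : (i : ℕ) ≠ p.length := fun e => h1 (Fin.ext e)
      have h2' : (i : ℕ) ≠ p.length + 1 := fun e => h2 (Fin.ext e)
      rcases lt_or_ge (i : ℕ) p.length with h3 | h3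
      · rw [List.getD_append _ _ _ _ h3, List.getD_append _ _ _ _ h3]
      · rw [List.getD_append_right _ _ _ _ h3, List.getD_append_right _ _ _ _ h3]
        obtain ⟨m, hm⟩ : ∃ m, (i : ℕ) - p.length = m + 2 := ⟨(i : ℕ) - p.length - 2, by omega⟩
        rw [hm]
        rfl

theorem anti_swap {r : ℕ} {A : (Fin r → ℤ) → ℤ} (hA : Anti A) (p q : List ℕ) (y z : ℕ)
    (h : p.length + 1 < r) : A (vec r (p ++ y :: z :: q)) = - A (vec r (p ++ z :: y :: q)) := by
  rw [vec_swap p q y z h, hA, Perm.sign_swap]
  · simp
  · intro e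
    have := congrArg Fin.val e
    simp at this

theorem ins_spec {r : ℕ} {A : (Fin r → ℤ) → ℤ} (hA : Anti A) (q : List ℕ) :
    ∀ (p : List ℕ) (y : ℕ), p.length + 1 + q.length = r →
      A (vec r (p ++ y :: q)) = ev (fun l => A (vec r (p ++ l))) (ins y q) := by
  induction q with
  | nil => intro p y _; simp [ins, ev]
  | cons z zs ih =>
    intro p y hr
    simp only [List.length_cons] at hr
    simp only [ins]
    split_ifs with h1 h2
    · simp [ev]
    · subst h2
      have h3 := anti_swap hA p zs z z (by omega)
      simp only [ev]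
      omega
    · rw [ev_map_not, anti_swap hA p zs y z (by omega)]
      congr 1
      have h3 := ih (p ++ [z]) y (by simp; omega)
      simpa using h3

theorem vec_cons_sub {r : ℕ} (p xs : List ℕ) (x k : ℕ) (hk : k ≤ x) (h : p.length < r) :
    vec r (p ++ x :: xs) - (k : ℤ) • sg ⟨p.length, h⟩ = vec r (p ++ (x - k) :: xs) := by
  ext i
  simp only [vec, Pi.sub_apply, Pi.smul_apply, sg, Pi.single_apply, smul_eq_mul]
  by_cases h1 : i = ⟨p.length, h⟩
  · subst h1
    simp [List.getD_append_right, Nat.cast_sub hk]
  · have h1' : (i : ℕ) ≠ p.length := fun e => h1 (Fin.ext e)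
    rw [if_neg h1, mul_zero, sub_zero]
    rcases lt_or_ge (i : ℕ) p.length with h3 | h3
    · rw [List.getD_append _ _ _ _ h3, List.getD_append _ _ _ _ h3]
    · rw [List.getD_append_right _ _ _ _ h3, List.getD_append_right _ _ _ _ h3]
      obtain ⟨m, hm⟩ : ∃ m, (i : ℕ) - p.length = m + 1 := ⟨(i : ℕ) - p.length - 1, by omega⟩
      rw [hm]
      rfl

theorem mv_spec {r : ℕ} {A : (Fin r → ℤ) → ℤ} (hA : Anti A)
    (hneg : ∀ (κ : Fin r → ℤ) (i : Fin r), κ i < 0 → A κ = 0) (k : ℕ) (q : List ℕ) :
    ∀ (p : List ℕ), p.length + q.length = r →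
      ∑ i ∈ univ.filter (fun i : Fin r => p.length ≤ (i : ℕ)), A (vec r (p ++ q) - (k : ℤ) • sg i)
        = ev (fun l => A (vec r (p ++ l))) (mv k q) := by
  induction q with
  | nil =>
    intro p hr
    simp only [List.length_nil, add_zero] at hr
    have : univ.filter (fun i : Fin r => p.length ≤ (i : ℕ)) = ∅ := by
      ext i
      have := i.2
      simp
      omega
    rw [this]
    rfl
  | cons x xs ih =>
    intro p hr
    simp only [List.length_cons] at hr
    have hp : p.length < r := by omega
    have h1 : univ.filter (fun i : Fin r => p.length ≤ (i : ℕ))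
        = insert (⟨p.length, hp⟩ : Fin r)
          (univ.filter (fun i : Fin r => (p ++ [x]).length ≤ (i : ℕ))) := by
      ext i
      simp only [Finset.mem_filter, Finset.mem_univ, true_and, Finset.mem_insert,
        List.length_append, List.length_singleton, Fin.ext_iff]
      omega
    rw [h1, Finset.sum_insert (by simp)]
    simp only [mv]
    rw [ev_append, ev_map]
    congr 1
    · split_ifs with hk
      · rw [vec_cons_sub p xs x k hk hp]
        exact ins_spec hA xs p (x - k) (by omega)
      · rw [ev]
        apply hneg _ ⟨p.length, hp⟩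
        simp only [vec, Pi.sub_apply, Pi.smul_apply, sg, Pi.single_apply, smul_eq_mul]
        simp [List.getD_append_right]
        omega
    · have h2 := ih (p ++ [x]) (by simp; omega)
      simpa using h2

/-- The power sum operator on bead lists. -/
theorem altc_psum_vec {r : ℕ} {F : MvPolynomial (Fin r) ℤ} (hF : Anti (altc F)) (k : ℕ)
    {l : List ℕ} (hl : l.length = r) :
    altc (psum (Fin r) ℤ k * F) (vec r l) = ev (fun l' => altc F (vec r l')) (mv k l) := by
  rw [altc_psum]
  have h := mv_spec hF (fun κ i h => altc_neg F h) k l [] (by simpa using hl)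
  simpa using h

/-- Stability on bead lists. -/
theorem altc_st_vec {r : ℕ} (F : MvPolynomial (Fin (r + 1)) ℤ) {l : List ℕ} (hl : l.length = r) :
    altc F (vec (r + 1) (l.map (· + 1) ++ [0])) = altc (st F) (vec r l) := by
  have h := altc_st F (fun i => vec r l i + 1)
  have e1 : (Fin.snoc (α := fun _ => ℤ) (fun i => vec r l i + 1) 0 : Fin (r + 1) → ℤ)
      = vec (r + 1) (l.map (· + 1) ++ [0]) := by
    ext i
    refine Fin.lastCases ?_ (fun j => ?_) i
    · rw [Fin.snoc_last]
      simp only [vec, Fin.val_last]
      rw [List.getD_append_right _ _ _ _ (by simp [hl])]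
      simp [hl]
    · rw [Fin.snoc_castSucc]
      have hj : (j : ℕ) < l.length := by rw [hl]; exact j.2
      simp only [vec, Fin.val_castSucc]
      rw [List.getD_append _ _ _ _ (by simpa using hj)]
      rw [List.getD_eq_getElem _ _ hj, List.getD_eq_getElem _ _ (by simpa using hj)]
      simp
  have e2 : (fun i => vec r l i + 1 - 1) = vec r l := by
    ext i; ring
  rw [e1, e2] at h
  exact h

end Pool.Agent.Lib.MP_a688ad_al
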