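import Pool.Agent.Lib.MP_a688ad_al.Chr

/-!
# Newton's identities for the plethysms and the power sum operators
-/

set_option autoImplicit false

open MvPolynomial Finset

namespace Pool.Agent.Lib.MP_a688ad_al

variable {r : ℕ}

theorem hsymm_monomial {σ : Type*} [Fintype σ] [DecidableEq σ] (n : ℕ) : hsymm σ ℤ n
    = ∑ s : Sym σ n, monomial (Multiset.toFinsupp s.1) 1 := by
  unfold hsymm
  refine Finset.sum_congr rfl fun s _ => ?_
  have h : (s.1.map (X : σ → MvPolynomial σ ℤ)).prod
      = monomial (s.1.map (fun i => Finsupp.single i 1)).sum 1 :=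
    prod_monomial (fun i => Finsupp.single i 1) s.1
  rw [h]
  have : ∀ t : Multiset σ, (t.map (fun i => Finsupp.single i 1)).sum = Multiset.toFinsupp t := by
    intro t
    induction t using Multiset.induction_on with
    | empty => simp
    | cons a t ih =>
      rw [Multiset.map_cons, Multiset.sum_cons, ih, ← Multiset.singleton_add, map_add,
        Multiset.toFinsupp_singleton]
  exact congrArg (fun d => monomial d (1 : ℤ)) (this s.1)

theorem degree_toFinsupp {σ : Type*} [DecidableEq σ] (t : Multiset σ) :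
    (Multiset.toFinsupp t).degree = Multiset.card t := by
  induction t using Multiset.induction_on with
  | empty => simp
  | cons a t ih =>
    rw [← Multiset.singleton_add, map_add, map_add, ih, Multiset.toFinsupp_singleton,
      Finsupp.degree_single, Multiset.card_add, Multiset.card_singleton]

theorem coeff_hsymm {σ : Type*} [Fintype σ] [DecidableEq σ] (n : ℕ) (m : σ →₀ ℕ) :
    coeff m (hsymm σ ℤ n) = if m.degree = n then 1 else 0 := by
  rw [hsymm_monomial, coeff_sum]
  simp only [coeff_monomial]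
  split_ifs with h
  · have hc : Multiset.card (Finsupp.toMultiset m) = n := by
      rw [← h, ← degree_toFinsupp]
      simp
    refine (Finset.sum_eq_single (⟨Finsupp.toMultiset m, hc⟩ : Sym σ n) ?_ ?_).trans ?_
    · intro s _ hs
      rw [if_neg]
      intro h2
      apply hs
      apply Subtype.ext
      show s.1 = Finsupp.toMultiset m
      rw [← h2]
      simp
    · intro h2
      exact absurd (Finset.mem_univ (α := Sym σ n) ⟨Finsupp.toMultiset m, hc⟩) h2
    · rw [if_pos]
      simp
  · apply Finset.sum_eq_zero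
    intro s _
    rw [if_neg]
    intro h2
    apply h
    rw [← h2, degree_toFinsupp]
    exact s.2

theorem X_pow_mul_coeff {σ : Type*} [DecidableEq σ] (i : σ) (k : ℕ) (F : MvPolynomial σ ℤ)
    (m : σ →₀ ℕ) : coeff m (X i ^ k * F) = if k ≤ m i then coeff (m - Finsupp.single i k) F else 0 := by
  rw [X_pow_eq_monomial, mul_comm, coeff_mul_monomial', mul_one]
  have : (Finsupp.single i k ≤ m) ↔ k ≤ m i := by
    rw [Finsupp.single_le_iff]
  simp only [this]

/-- Newton's identity for the complete symmetric polynomials. -/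
theorem newton {σ : Type*} [Fintype σ] [DecidableEq σ] (n : ℕ) :
    (n : MvPolynomial σ ℤ) * hsymm σ ℤ n
      = ∑ k ∈ range n, psum σ ℤ (k + 1) * hsymm σ ℤ (n - (k + 1)) := by
  ext m
  have e0 : (n : MvPolynomial σ ℤ) = C (n : ℤ) := by simp
  rw [e0, coeff_C_mul, coeff_hsymm, coeff_sum]
  have h1 : ∀ k ∈ range n, coeff m (psum σ ℤ (k + 1) * hsymm σ ℤ (n - (k + 1)))
      = if m.degree = n then ∑ i, (if k + 1 ≤ m i then 1 else 0) else 0 := by
    intro k hk
    rw [Finset.mem_range] at hk
    unfold psum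
    rw [Finset.sum_mul, coeff_sum]
    have h2 : ∀ i : σ, coeff m (X i ^ (k + 1) * hsymm σ ℤ (n - (k + 1)))
        = if m.degree = n then (if k + 1 ≤ m i then 1 else 0) else 0 := by
      intro i
      rw [X_pow_mul_coeff]
      by_cases h3 : k + 1 ≤ m i
      · rw [if_pos h3, if_pos h3, coeff_hsymm]
        have h4 : (m - Finsupp.single i (k + 1)) + Finsupp.single i (k + 1) = m := by
          apply tsub_add_cancel_of_le
          rw [Finsupp.single_le_iff]
          exact h3
        have h5 : (m - Finsupp.single i (k + 1)).degree + (k + 1) = m.degree := by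
          have := congrArg Finsupp.degree h4
          rw [map_add, Finsupp.degree_single] at this
          exact this
        congr 1
        apply propext
        omega
      · rw [if_neg h3, if_neg h3]
        split_ifs <;> rfl
    simp only [h2]
    split_ifs <;> simp
  rw [Finset.sum_congr rfl h1]
  split_ifs with h
  · rw [Finset.sum_comm, mul_one]
    have h3 : ∀ i : σ, ∑ k ∈ range n, (if k + 1 ≤ m i then (1 : ℤ) else 0) = (m i : ℤ) := by
      intro i
      rw [← Finset.sum_filter]
      have h4 : (range n).filter (fun k => k + 1 ≤ m i) = range (m i) := by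
        ext k
        have : m i ≤ m.degree := Finsupp.le_degree i m
        simp only [Finset.mem_filter, Finset.mem_range]
        omega
      rw [h4]
      simp
    simp only [h3]
    rw [← h, Finsupp.degree_eq_sum]
    push_cast
    rfl
  · simp

/-- The complete symmetric polynomial `h_N(x^d)`. -/
noncomputable def hd (r d N : ℕ) : MvPolynomial (Fin r) ℤ :=
  aeval (fun i => (X i : MvPolynomial (Fin r) ℤ) ^ d) (hsymm (Fin r) ℤ N)

theorem hd_zero (d : ℕ) : hd r d 0 = 1 := by
  unfold hd
  rw [hsymm_zero, map_one]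

theorem aeval_psum (d k : ℕ) : aeval (fun i => (X i : MvPolynomial (Fin r) ℤ) ^ d)
    (psum (Fin r) ℤ k) = psum (Fin r) ℤ (d * k) := by
  unfold psum
  rw [map_sum]
  refine Finset.sum_congr rfl fun i _ => ?_
  rw [map_pow, aeval_X, ← pow_mul]

theorem newton_hd (d N : ℕ) : (N : MvPolynomial (Fin r) ℤ) * hd r d N
    = ∑ k ∈ range N, psum (Fin r) ℤ (d * (k + 1)) * hd r d (N - (k + 1)) := by
  have h := congrArg (aeval (fun i => (X i : MvPolynomial (Fin r) ℤ) ^ d)) (newton (σ := Fin r) N)
  rw [map_mul, map_natCast, map_sum] at h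
  rw [hd, h]
  refine Finset.sum_congr rfl fun k _ => ?_
  rw [map_mul, aeval_psum]
  rfl

theorem sum_mono_pow (b k : ℕ) :
    ∑ p, mono r b p ^ k = psum (Fin r) ℤ k * hd r k b := by
  unfold mono psum hd hsymm
  rw [Fintype.sum_prod_type, map_sum, Finset.sum_mul]
  refine Finset.sum_congr rfl fun i _ => ?_
  rw [Finset.mul_sum]
  refine Finset.sum_congr rfl fun s _ => ?_
  rw [mul_pow, map_multiset_prod, Multiset.map_map]
  congr 1
  rw [← Multiset.prod_map_pow]
  congr 1
  apply Multiset.map_congr rfl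
  intro j _
  rw [Function.comp_apply, aeval_X]

theorem newton_pleth (n b : ℕ) : (n : MvPolynomial (Fin r) ℤ) * pleth r n b
    = ∑ k ∈ range n, (psum (Fin r) ℤ (k + 1) * hd r (k + 1) (b - 1)) * pleth r (n - (k + 1)) b := by
  have h := congrArg (aeval (mono r (b - 1)))
    (newton (σ := Fin r × Sym (Fin r) (b - 1)) n)
  rw [map_mul, map_natCast, map_sum] at h
  rw [pleth, h]
  refine Finset.sum_congr rfl fun k _ => ?_
  rw [map_mul]
  have h2 : aeval (mono r (b - 1)) (psum (Fin r × Sym (Fin r) (b - 1)) ℤ (k + 1))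
      = psum (Fin r) ℤ (k + 1) * hd r (k + 1) (b - 1) := by
    rw [← sum_mono_pow]
    unfold psum
    rw [map_sum]
    refine Finset.sum_congr rfl fun p _ => ?_
    rw [map_pow, aeval_X]
  rw [h2]
  rfl

theorem pleth_zero (b : ℕ) : pleth r 0 b = 1 := by
  unfold pleth
  rw [hsymm_zero, map_one]

theorem two_hd_two (k : ℕ) : 2 * hd r k 2 = psum (Fin r) ℤ k ^ 2 + psum (Fin r) ℤ (2 * k) := by
  have h2 := newton_hd (r := r) k 2
  have h1 := newton_hd (r := r) k 1
  rw [Finset.sum_range_succ, Finset.sum_range_one] at h2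
  rw [Finset.sum_range_one] at h1
  simp only [zero_add, mul_one, Nat.sub_self, hd_zero, Nat.cast_one, one_mul] at h1 h2
  rw [h1] at h2
  push_cast at h2
  rw [h2, mul_comm k (1 + 1)]
  ring_nf

/-- The recursion for `h_n[h_1 h_2]`. -/
theorem newton_three (n : ℕ) : (2 * n : MvPolynomial (Fin r) ℤ) * pleth r n 3
    = ∑ k ∈ range n, (psum (Fin r) ℤ (k + 1) ^ 3
      + psum (Fin r) ℤ (2 * (k + 1)) * psum (Fin r) ℤ (k + 1)) * pleth r (n - (k + 1)) 3 := by
  rw [mul_assoc, newton_pleth, Finset.mul_sum]
  refine Finset.sum_congr rfl fun k _ => ?_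
  have := two_hd_two (r := r) (k + 1)
  show 2 * (psum (Fin r) ℤ (k + 1) * hd r (k + 1) 2 * pleth r (n - (k + 1)) 3) = _
  linear_combination (psum (Fin r) ℤ (k + 1) * pleth r (n - (k + 1)) 3) * this

/-- The formula for `h_3[h_1 h_{b-1}]`. -/
theorem six_pleth (b : ℕ) : (6 : MvPolynomial (Fin r) ℤ) * pleth r 3 b
    = psum (Fin r) ℤ 1 ^ 3 * hd r 1 (b - 1) ^ 3
      + 3 * (psum (Fin r) ℤ 1 * psum (Fin r) ℤ 2 * (hd r 1 (b - 1) * hd r 2 (b - 1)))
      + 2 * (psum (Fin r) ℤ 3 * hd r 3 (b - 1)) := by
  have h3 := newton_pleth (r := r) 3 b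
  have h2 := newton_pleth (r := r) 2 b
  have h1 := newton_pleth (r := r) 1 b
  simp only [Finset.sum_range_succ, Finset.range_zero, Finset.sum_empty, zero_add, Nat.sub_self,
    Nat.reduceAdd, Nat.reduceSub, pleth_zero, Nat.cast_one, one_mul, mul_one] at h1 h2 h3
  push_cast at h2 h3
  rw [h1] at h2 h3
  linear_combination 2 * h3 + (psum (Fin r) ℤ 1 * hd r 1 (b - 1)) * h2

end Pool.Agent.Lib.MP_a688ad_al
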