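import Pool.Agent.Lib.MP_a688ad_al.Newton

/-!
# Operators on antisymmetric functions
-/

set_option autoImplicit false

open MvPolynomial Finset Equiv

namespace Pool.Agent.Lib.MP_a688ad_al

variable {r : ℕ}

/-- Antisymmetric functions. -/
def Anti (A : (Fin r → ℤ) → ℤ) : Prop :=
  ∀ (κ : Fin r → ℤ) (τ : Perm (Fin r)), A (κ ∘ τ) = (Perm.sign τ : ℤ) * A κ

theorem altc_neg (F : MvPolynomial (Fin r) ℤ) {κ : Fin r → ℤ} {i : Fin r} (h : κ i < 0) :
    altc F κ = 0 := by
  unfold altc
  apply Finset.sum_eq_zero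
  intro σ _
  rw [cf_neg F (i := i) (by omega), mul_zero]

theorem altc_natCast_mul (n : ℕ) (F : MvPolynomial (Fin r) ℤ) (κ : Fin r → ℤ) :
    altc ((n : MvPolynomial (Fin r) ℤ) * F) κ = n * altc F κ := by
  have : (n : MvPolynomial (Fin r) ℤ) = C (n : ℤ) := by simp
  rw [this, altc_C_mul]

theorem altc_psum (k : ℕ) (F : MvPolynomial (Fin r) ℤ) (κ : Fin r → ℤ) :
    altc (psum (Fin r) ℤ k * F) κ = ∑ i, altc F (κ - (k : ℤ) • sg i) := by
  unfold psum
  rw [Finset.sum_mul, altc_sum]
  refine Finset.sum_congr rfl fun i _ => ?_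
  rw [X_pow_eq_monomial, mul_comm, altc_mul_monomial]
  congr 1
  ext j
  simp only [Pi.sub_apply, Pi.smul_apply, sg, Pi.single_apply, Finsupp.single_apply, smul_eq_mul,
    mul_ite, mul_one, mul_zero]
  by_cases h : i = j
  · subst h; simp
  · simp [h, Ne.symm h]

theorem Anti.psum {F : MvPolynomial (Fin r) ℤ} (hF : Anti (altc F)) (k : ℕ) :
    Anti (altc (psum (Fin r) ℤ k * F)) := by
  intro κ τ
  rw [altc_psum, altc_psum, Finset.mul_sum]
  rw [← Equiv.sum_comp τ (fun i => (Perm.sign τ : ℤ) * altc F (κ - (k : ℤ) • sg i))]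
  refine Finset.sum_congr rfl fun i _ => ?_
  rw [← hF]
  congr 1
  ext j
  simp only [Pi.sub_apply, Pi.smul_apply, Function.comp_apply, sg, Pi.single_apply,
    EmbeddingLike.apply_eq_iff_eq]

theorem Anti.sum {ι : Type*} {s : Finset ι} {F : ι → MvPolynomial (Fin r) ℤ}
    (h : ∀ k ∈ s, Anti (altc (F k))) : Anti (altc (∑ k ∈ s, F k)) := by
  intro κ τ
  rw [altc_sum, altc_sum, Finset.mul_sum]
  exact Finset.sum_congr rfl fun k hk => h k hk κ τ

theorem Anti.of_mul {n : ℕ} (hn : n ≠ 0) {F : MvPolynomial (Fin r) ℤ}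
    (h : Anti (altc ((n : MvPolynomial (Fin r) ℤ) * F))) : Anti (altc F) := by
  intro κ τ
  have h1 := h κ τ
  rw [altc_natCast_mul, altc_natCast_mul] at h1
  have h2 : (n : ℤ) ≠ 0 := by exact_mod_cast hn
  apply mul_left_cancel₀ h2
  rw [h1]
  ring

theorem cf_one (ν : Fin r → ℤ) : cf (1 : MvPolynomial (Fin r) ℤ) ν = if ν = 0 then 1 else 0 := by
  unfold cf
  by_cases h : ν = 0
  · rw [if_pos h, if_pos (by intro i; rw [h]; simp)]
    have : toF ν = 0 := by ext i; rw [toF_apply, h]; simp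
    rw [this]
    simp
  · rw [if_neg h]
    split_ifs with h1
    · rw [coeff_one, if_neg]
      intro h2
      apply h
      ext i
      have h3 := DFunLike.congr_fun h2 i
      rw [toF_apply] at h3
      have := h1 i
      simp only [Finsupp.coe_zero, Pi.zero_apply] at h3
      rw [Pi.zero_apply]
      omega
    · rfl

theorem anti_one : Anti (altc (1 : MvPolynomial (Fin r) ℤ)) := by
  intro κ τ
  apply altc_perm
  intro τ ν
  rw [cf_one, cf_one]
  congr 1
  apply propext
  constructor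
  · intro h
    ext i
    have := congrFun h (τ.symm i)
    simpa using this
  · rintro rfl
    rfl

theorem Anti.hd {F : MvPolynomial (Fin r) ℤ} (hF : Anti (altc F)) (d N : ℕ) :
    Anti (altc (hd r d N * F)) := by
  induction N using Nat.strong_induction_on with
  | _ N ih =>
    by_cases hN : N = 0
    · subst hN
      rw [hd_zero, one_mul]
      exact hF
    · apply Anti.of_mul hN
      rw [← mul_assoc, newton_hd, Finset.sum_mul]
      apply Anti.sum
      intro k hk
      rw [Finset.mem_range] at hk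
      rw [mul_assoc]
      exact (ih _ (by omega)).psum _

theorem Anti.pleth (n b : ℕ) : Anti (altc (pleth r n b)) := by
  induction n using Nat.strong_induction_on with
  | _ n ih =>
    by_cases hN : n = 0
    · subst hN
      rw [pleth_zero]
      exact anti_one
    · apply Anti.of_mul hN
      rw [newton_pleth]
      apply Anti.sum
      intro k hk
      rw [Finset.mem_range] at hk
      rw [mul_assoc]
      exact ((ih _ (by omega)).hd _ _).psum _

theorem hd_one_eq (N : ℕ) : hd r 1 N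
    = ∑ β ∈ piAntidiag univ N, monomial (Finsupp.equivFunOnFinite.symm β) 1 := by
  have h : hd r 1 N = hsymm (Fin r) ℤ N := by
    unfold hd
    simp only [pow_one]
    exact aeval_X_left_apply _
  rw [h]
  ext m
  rw [coeff_hsymm, coeff_sum]
  simp only [coeff_monomial]
  split_ifs with h1
  · rw [Finset.sum_eq_single (m : Fin r → ℕ)]
    · rw [if_pos]
      ext i
      rfl
    · intro β _ hβ
      rw [if_neg]
      intro h2
      apply hβ
      rw [← h2]
      rfl
    · intro h2
      exfalso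
      apply h2
      rw [mem_piAntidiag]
      refine ⟨?_, fun i _ => mem_univ i⟩
      rw [← h1, Finsupp.degree_eq_sum]
  · symm
    apply Finset.sum_eq_zero
    intro β hβ
    rw [if_neg]
    intro h2
    apply h1
    rw [← h2, Finsupp.degree_eq_sum]
    rw [mem_piAntidiag] at hβ
    exact hβ.1

theorem altc_hd (N : ℕ) (F : MvPolynomial (Fin r) ℤ) (κ : Fin r → ℤ) :
    altc (hd r 1 N * F) κ = ∑ β ∈ piAntidiag univ N, altc F (fun i => κ i - (β i : ℤ)) := by
  rw [hd_one_eq, Finset.sum_mul, altc_sum]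
  refine Finset.sum_congr rfl fun β _ => ?_
  rw [mul_comm, altc_mul_monomial]
  rfl

/-- The image of `β` under the involution of the Pieri rule. -/
def pinv (κ : Fin r → ℤ) (β : Fin r → ℕ) (i j : Fin r) : Fin r → ℕ := fun l =>
  if l = i then β j + (κ i - κ j).toNat else if l = j then β i - (κ i - κ j).toNat else β l

theorem pinv_sub (κ : Fin r → ℤ) (β : Fin r → ℕ) {i j : Fin r} (hij : i ≠ j) (h : κ j ≤ κ i)
    (hv : κ i - β i ≤ κ j) :
    (fun l => κ l - (pinv κ β i j l : ℤ)) = (fun l => κ l - (β l : ℤ)) ∘ (swap i j) := by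
  ext l
  simp only [Function.comp_apply, pinv]
  by_cases h1 : l = i
  · subst h1
    rw [if_pos rfl, swap_apply_left]
    push_cast
    rw [Int.toNat_of_nonneg (by omega)]
    omega
  · rw [if_neg h1]
    by_cases h2 : l = j
    · subst h2
      rw [if_pos rfl, swap_apply_right, Nat.cast_sub (by omega), Int.toNat_of_nonneg (by omega)]
      omega
    · rw [if_neg h2, swap_apply_of_ne_of_ne h1 h2]

/-- `i` is the smallest violation of the strip condition. -/
def Vio (κ : Fin r → ℤ) (β : Fin r → ℕ) (i j : Fin r) : Prop :=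
  (j : ℕ) = i + 1 ∧ κ i - β i ≤ κ j ∧ ∀ i' j' : Fin r, (j' : ℕ) = i' + 1 → i' < i → κ j' < κ i' - β i'

theorem Vio.unique {κ : Fin r → ℤ} {β : Fin r → ℕ} {i j i' j' : Fin r} (h : Vio κ β i j)
    (h' : Vio κ β i' j') : i = i' ∧ j = j' := by
  have h1 : i = i' := by
    rcases lt_trichotomy i i' with h2 | h2 | h2
    · have := h'.2.2 i j h.1 h2
      have := h.2.1
      omega
    · exact h2
    · have := h.2.2 i' j' h'.1 h2
      have := h'.2.1
      omega
  subst h1
  refine ⟨rfl, ?_⟩
  ext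
  rw [h.1, h'.1]

theorem exists_vio {κ : Fin r → ℤ} {β : Fin r → ℕ}
    (h : ¬ ∀ i j : Fin r, (i : ℕ) + 1 = j → κ j < κ i - β i) : ∃ i j, Vio κ β i j := by
  classical
  have hex : ∃ k : ℕ, ∃ i j : Fin r, (i : ℕ) = k ∧ (j : ℕ) = k + 1 ∧ κ i - β i ≤ κ j := by
    push Not at h
    obtain ⟨i, j, h1, h2⟩ := h
    exact ⟨i, i, j, rfl, h1.symm, h2⟩
  obtain ⟨i, j, h2, h3, h4⟩ := Nat.find_spec hex
  refine ⟨i, j, by omega, h4, ?_⟩
  intro i' j' h5 h6
  by_contra h7
  push Not at h7
  have h8 : (i' : ℕ) < Nat.find hex := by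
    rw [← h2]; exact h6
  exact Nat.find_min hex h8 ⟨i', j', rfl, h5, h7⟩

/-- The Pieri rule (half of it). -/
theorem pieri {F : MvPolynomial (Fin r) ℤ} (hF : Anti (altc F)) (N : ℕ) {κ : Fin r → ℤ}
    (hκ : StrictAnti κ) :
    altc (hd r 1 N * F) κ
      = ∑ β ∈ (piAntidiag univ N).filter (fun β => ∀ i j : Fin r, (i : ℕ) + 1 = j →
          κ j < κ i - β i), altc F (fun i => κ i - (β i : ℤ)) := by
  classical
  rw [altc_hd, ← Finset.sum_filter_add_sum_filter_not (piAntidiag univ N)
    (fun β => ∀ i j : Fin r, (i : ℕ) + 1 = j → κ j < κ i - β i)]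
  rw [add_eq_left]
  set s := (piAntidiag univ N).filter (fun β : Fin r → ℕ => ¬ ∀ i j : Fin r, (i : ℕ) + 1 = j →
    κ j < κ i - β i) with hs
  have hv : ∀ β ∈ s, ∃ p : Fin r × Fin r, Vio κ β p.1 p.2 := by
    intro β hβ
    rw [hs, Finset.mem_filter] at hβ
    obtain ⟨i, j, h⟩ := exists_vio hβ.2
    exact ⟨(i, j), h⟩
  choose p hp using hv
  have hlt : ∀ {β : Fin r → ℕ} {i j : Fin r}, Vio κ β i j → κ j < κ i := by
    intro β i j h
    apply hκ
    have := h.1
    exact Fin.lt_def.2 (by omega)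
  have hne : ∀ {β : Fin r → ℕ} {i j : Fin r}, Vio κ β i j → i ≠ j := by
    intro β i j h e
    have := h.1
    rw [e] at this
    omega
  have hsub : ∀ {β : Fin r → ℕ} {i j : Fin r}, Vio κ β i j →
      (fun l => κ l - (pinv κ β i j l : ℤ)) = (fun l => κ l - (β l : ℤ)) ∘ (swap i j) :=
    fun h => pinv_sub κ _ (hne h) (hlt h).le h.2.1
  have hvio : ∀ {β : Fin r → ℕ} {i j : Fin r}, Vio κ β i j → Vio κ (pinv κ β i j) i j := by
    intro β i j h
    refine ⟨h.1, ?_, ?_⟩
    · have := congrFun (hsub h) i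
      simp only [Function.comp_apply, swap_apply_left] at this
      rw [this]
      omega
    · intro i' j' h1 h2
      have := congrFun (hsub h) i'
      simp only [Function.comp_apply] at this
      have h3 : i' ≠ i := h2.ne
      have h4 : i' ≠ j := by
        intro e
        have := h.1
        have : (i' : ℕ) < i := h2
        rw [e] at this
        omega
      rw [swap_apply_of_ne_of_ne h3 h4] at this
      rw [this]
      exact h.2.2 i' j' h1 h2
  have hmem : ∀ {β : Fin r → ℕ} {i j : Fin r}, Vio κ β i j → β ∈ s → pinv κ β i j ∈ s := by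
    intro β i j h hβ
    rw [hs, Finset.mem_filter] at hβ ⊢
    refine ⟨?_, ?_⟩
    · rw [mem_piAntidiag] at hβ ⊢
      refine ⟨?_, fun i _ => mem_univ i⟩
      have h1 : ∑ l, (κ l - (pinv κ β i j l : ℤ)) = ∑ l, (κ l - (β l : ℤ)) := by
        rw [hsub h]
        exact Equiv.sum_comp (swap _ _) (fun l => κ l - (β l : ℤ))
      rw [Finset.sum_sub_distrib, Finset.sum_sub_distrib] at h1
      have h2 : ((∑ l, pinv κ β i j l : ℕ) : ℤ) = ((∑ l, β l : ℕ) : ℤ) := by
        push_cast
        omega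
      rw [← hβ.1.1]
      exact_mod_cast h2
    · push Not
      exact ⟨_, _, h.1.symm, (hvio h).2.1⟩
  refine Finset.sum_involution (fun β hβ => pinv κ β (p β hβ).1 (p β hβ).2) ?_ ?_ ?_ ?_
  · intro β hβ
    have h := hp β hβ
    rw [hsub h, hF, Perm.sign_swap (hne h)]
    simp
  · intro β hβ hne0 heq
    apply hne0
    have h := hp β hβ
    have h1 := hF (fun l => κ l - (β l : ℤ)) (swap (p β hβ).1 (p β hβ).2)
    rw [← hsub h, heq, Perm.sign_swap (hne h)] at h1
    simp only [Units.val_neg, Units.val_one, neg_mul, one_mul] at h1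
    omega
  · intro β hβ
    exact hmem (hp β hβ) hβ
  · intro β hβ
    have h := hp β hβ
    have h1 := hvio h
    have h2 := hp _ (hmem h hβ)
    obtain ⟨e1, e2⟩ := h1.unique h2
    show pinv κ (pinv κ β (p β hβ).1 (p β hβ).2) (p _ (hmem h hβ)).1 (p _ (hmem h hβ)).2 = β
    rw [← e1, ← e2]
    have h3 := hsub h1
    rw [hsub h] at h3
    ext l
    have h4 := congrFun h3 l
    simp only [Function.comp_apply, swap_apply_self] at h4
    omega

end Pool.Agent.Lib.MP_a688ad_al
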