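import Pool.Agent.Lib.MP_a688ad_al.Leaf

/-!
# Evaluation of `h_3[h_1 h_{n-1}]` on bead lists
-/

set_option autoImplicit false

open MvPolynomial Finset Equiv

namespace Pool.Agent.Lib.MP_a688ad_al

/-- Strictly decreasing lists. -/
def Sd (l : List ℕ) : Prop := l.Pairwise (fun a b => b < a)

theorem sd_cons {x : ℕ} {l : List ℕ} : Sd (x :: l) ↔ (∀ y ∈ l, y < x) ∧ Sd l := List.pairwise_cons

theorem ins_sd (y : ℕ) (q : List ℕ) (hq : Sd q) : ∀ t ∈ ins y q,
    Sd t.2 ∧ t.2.sum = y + q.sum ∧ ∀ z ∈ t.2, z = y ∨ z ∈ q := by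
  induction q with
  | nil =>
    intro t ht
    simp only [ins, List.mem_singleton] at ht
    subst ht
    refine ⟨List.pairwise_singleton _ _, by simp, by simp⟩
  | cons z zs ih =>
    intro t ht
    rw [sd_cons] at hq
    simp only [ins] at ht
    split_ifs at ht with h1 h2
    · simp only [List.mem_singleton] at ht
      subst ht
      refine ⟨?_, by simp, by simp⟩
      show Sd (y :: z :: zs)
      rw [sd_cons, sd_cons]
      refine ⟨?_, hq⟩
      intro w hw
      rcases List.mem_cons.1 hw with rfl | hw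
      · exact h1
      · exact (hq.1 w hw).trans h1
    · simp at ht
    · rw [List.mem_map] at ht
      obtain ⟨t', ht', rfl⟩ := ht
      obtain ⟨g1, g2, g3⟩ := ih hq.2 t' ht'
      refine ⟨?_, ?_, ?_⟩
      · show Sd (z :: t'.2)
        rw [sd_cons]
        refine ⟨?_, g1⟩
        intro w hw
        rcases g3 w hw with rfl | hw
        · omega
        · exact hq.1 w hw
      · simp only [List.sum_cons, g2]
        ring
      · intro w hw
        rcases List.mem_cons.1 hw with rfl | hw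
        · right; simp
        · rcases g3 w hw with h | h
          · left; exact h
          · right; simp [h]

theorem mv_sd (k : ℕ) (q : List ℕ) (hq : Sd q) : ∀ t ∈ mv k q,
    Sd t.2 ∧ t.2.sum + k = q.sum ∧ ∀ z ∈ t.2, ∃ w ∈ q, z ≤ w := by
  induction q with
  | nil => intro t ht; simp [mv] at ht
  | cons x xs ih =>
    intro t ht
    rw [sd_cons] at hq
    simp only [mv, List.mem_append] at ht
    rcases ht with ht | ht
    · split_ifs at ht with h
      · obtain ⟨g1, g2, g3⟩ := ins_sd _ _ hq.2 t ht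
        refine ⟨g1, ?_, ?_⟩
        · simp only [List.sum_cons]
          omega
        · intro z hz
          rcases g3 z hz with h' | h'
          · exact ⟨x, by simp, by omega⟩
          · exact ⟨z, by simp [h'], le_rfl⟩
      · simp at ht
    · rw [List.mem_map] at ht
      obtain ⟨t', ht', rfl⟩ := ht
      obtain ⟨g1, g2, g3⟩ := ih hq.2 t' ht'
      refine ⟨?_, ?_, ?_⟩
      · show Sd (x :: t'.2)
        rw [sd_cons]
        refine ⟨?_, g1⟩
        intro w hw
        obtain ⟨w', hw', hle⟩ := g3 w hw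
        exact lt_of_le_of_lt hle (hq.1 w' hw')
      · simp only [List.sum_cons]
        omega
      · intro z hz
        rcases List.mem_cons.1 hz with rfl | hz
        · exact ⟨z, by simp, le_rfl⟩
        · obtain ⟨w', hw', hle⟩ := g3 z hz
          exact ⟨w', by simp [hw'], hle⟩

/-- The coefficients of `h_N^3`. -/
def LK : List ℕ → ℤ
  | [a, b, c, x, _, _] => if x = 2 then ((min (a - b) (b - c) : ℕ) : ℤ) else 0
  | _ => 0

/-- The coefficients of `h_N h_N(x^2)`. -/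
def L2 : List ℕ → ℤ
  | [a, b, c, x, _, _] => if x = 2 then
      (if (min (a - b) (b - c)) % 2 = 0 then 0 else
        if b - c ≤ a - b then (if c % 2 = 1 then 1 else -1)
          else (if a % 2 = 1 then 1 else -1)) else 0
  | _ => 0

/-- The coefficients of `h_N(x^3)`. -/
def L3 : List ℕ → ℤ
  | [a, b, c, x, _, _] => if x = 2 then
      (if (a % 3 = 2 ∧ b % 3 = 1 ∧ c % 3 = 0) ∨ (a % 3 = 1 ∧ b % 3 = 0 ∧ c % 3 = 2)
        ∨ (a % 3 = 0 ∧ b % 3 = 2 ∧ c % 3 = 1) then 1 else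
      if (a % 3 = 1 ∧ b % 3 = 2 ∧ c % 3 = 0) ∨ (a % 3 = 2 ∧ b % 3 = 0 ∧ c % 3 = 1)
        ∨ (a % 3 = 0 ∧ b % 3 = 1 ∧ c % 3 = 2) then -1 else 0) else 0
  | _ => 0

theorem vec_strictAnti {r : ℕ} {l : List ℕ} (hl : l.length = r) (hs : Sd l) :
    StrictAnti (vec r l) := by
  apply strictAnti_of
  intro i j hij
  have hi : (i : ℕ) < l.length := by rw [hl]; exact i.2
  have hj : (j : ℕ) < l.length := by rw [hl]; exact j.2
  have h := (List.pairwise_iff_getElem.1 hs) i j hi hj (by omega)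
  simp only [vec]
  rw [List.getD_eq_getElem _ _ hi, List.getD_eq_getElem _ _ hj]
  exact_mod_cast h

/-- Reduction of six beads to three. -/
theorem six_to_three (F : MvPolynomial (Fin 6) ℤ) (a b c : ℕ) (ha : 3 ≤ a) (hb : 3 ≤ b) (hc : 3 ≤ c) :
    altc F (vec 6 [a, b, c, 2, 1, 0]) = altc (st (st (st F))) (vec 3 [a - 3, b - 3, c - 3]) := by
  obtain ⟨a, rfl⟩ : ∃ a', a = a' + 3 := ⟨a - 3, by omega⟩
  obtain ⟨b, rfl⟩ : ∃ b', b = b' + 3 := ⟨b - 3, by omega⟩
  obtain ⟨c, rfl⟩ : ∃ c', c = c' + 3 := ⟨c - 3, by omega⟩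
  have h1 := altc_st_vec F (l := [a + 2, b + 2, c + 2, 1, 0]) rfl
  have h2 := altc_st_vec (st F) (l := [a + 1, b + 1, c + 1, 0]) rfl
  have h3 := altc_st_vec (st (st F)) (l := [a, b, c]) rfl
  simp only [List.map_cons, List.map_nil, List.cons_append, List.nil_append] at h1 h2 h3
  rw [Nat.add_sub_cancel, Nat.add_sub_cancel, Nat.add_sub_cancel, ← h3, ← h2, ← h1]

/-- The general leaf lemma. -/
theorem leaf_six (F : MvPolynomial (Fin 6) ℤ) (hv : Van 3 F) {l : List ℕ}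
    (hl : l.length = 6) (hs : Sd l) :
    (∃ a b c : ℕ, l = [a, b, c, 2, 1, 0] ∧ c < b ∧ b < a ∧ 3 ≤ c) ∨
      (altc F (vec 6 l) = 0 ∧ ∀ a b c x y z : ℕ, l = [a, b, c, x, y, z] → x ≠ 2) := by
  match l, hl with
  | [a, b, c, x, y, z], _ =>
    have hs' := hs
    simp only [sd_cons, List.mem_cons, List.not_mem_nil, or_false, forall_eq_or_imp, forall_eq] at hs
    obtain ⟨⟨h1, -⟩, ⟨h2, -⟩, ⟨h3, -⟩, ⟨h4, -⟩, h5, -⟩ := hs
    by_cases hx : x = 2
    · left
      refine ⟨a, b, c, ?_, h2, h1, by omega⟩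
      have : y = 1 := by omega
      have : z = 0 := by omega
      subst x y z
      rfl
    · right
      refine ⟨?_, ?_⟩
      · apply hv _ (vec_strictAnti (r := 6) (l := [a, b, c, x, y, z]) rfl hs') 3 rfl
        show ((2 : ℕ) : ℤ) < (x : ℤ)
        have : 2 ≤ x := by omega
        have : 2 < x := by omega
        exact_mod_cast this
      · intro a' b' c' x' y' z' h
        simp only [List.cons.injEq] at h
        omega

theorem altc_LK {N : ℕ} {l : List ℕ} (hl : l.length = 6) (hs : Sd l) (hsum : l.sum = 3 * N + 15) :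
    altc (hd 6 1 N * (hd 6 1 N * (hd 6 1 N * 1))) (vec 6 l) = LK l := by
  have a0 : Anti (altc (1 : MvPolynomial (Fin 6) ℤ)) := anti_one
  have v : Van 3 (hd 6 1 N * (hd 6 1 N * (hd 6 1 N * 1))) :=
    Van.hd ((a0.hd 1 N).hd 1 N) (Van.hd (a0.hd 1 N) (Van.hd a0 van_one N) N) N
  rcases leaf_six _ v hl hs with ⟨a, b, c, rfl, h1, h2, h3⟩ | ⟨h1, h2⟩
  · rw [six_to_three _ a b c (by omega) (by omega) h3]
    simp only [map_mul, st_hd one_ne_zero, map_one]
    simp only [List.sum_cons, List.sum_nil] at hsum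
    have hs3 : StrictAnti (vec 3 [a - 3, b - 3, c - 3]) := by
      apply vec_strictAnti (r := 3) (l := [a - 3, b - 3, c - 3]) rfl
      simp only [sd_cons, List.mem_cons, List.not_mem_nil, or_false, forall_eq_or_imp, forall_eq]
      exact ⟨⟨by omega, by omega⟩, by omega, by simp, List.Pairwise.nil⟩
    have e0 : vec 3 [a - 3, b - 3, c - 3] 0 = ((a - 3 : ℕ) : ℤ) := rfl
    have e1 : vec 3 [a - 3, b - 3, c - 3] 1 = ((b - 3 : ℕ) : ℤ) := rfl
    have e2 : vec 3 [a - 3, b - 3, c - 3] 2 = ((c - 3 : ℕ) : ℤ) := rfl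
    rw [altc_h3 hs3 (by rw [e0, e1, e2]; omega) (by rw [e2]; omega), e0, e1, e2]
    simp only [LK, if_true]
    omega
  · rw [h1]
    match l, hl with
    | [a, b, c, x, y, z], _ =>
      have := h2 a b c x y z rfl
      simp [LK, this]

theorem altc_L2 {N : ℕ} {l : List ℕ} (hl : l.length = 6) (hs : Sd l) (hsum : l.sum = 3 * N + 15) :
    altc (hd 6 1 N * hd 6 2 N) (vec 6 l) = L2 l := by
  have a0 : Anti (altc (1 : MvPolynomial (Fin 6) ℤ)) := anti_one
  have a2 : Anti (altc (hd 6 2 N)) := by simpa using a0.hd 2 N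
  have v : Van 3 (hd 6 1 N * hd 6 2 N) := Van.hd a2 (van_hd (by norm_num) N) N
  rcases leaf_six _ v hl hs with ⟨a, b, c, rfl, h1, h2, h3⟩ | ⟨h1, h2⟩
  · rw [six_to_three _ a b c (by omega) (by omega) h3]
    simp only [map_mul, st_hd one_ne_zero, st_hd two_ne_zero]
    simp only [List.sum_cons, List.sum_nil] at hsum
    have hs3 : StrictAnti (vec 3 [a - 3, b - 3, c - 3]) := by
      apply vec_strictAnti (r := 3) (l := [a - 3, b - 3, c - 3]) rfl
      simp only [sd_cons, List.mem_cons, List.not_mem_nil, or_false, forall_eq_or_imp, forall_eq]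
      exact ⟨⟨by omega, by omega⟩, by omega, by simp, List.Pairwise.nil⟩
    have e0 : vec 3 [a - 3, b - 3, c - 3] 0 = ((a - 3 : ℕ) : ℤ) := rfl
    have e1 : vec 3 [a - 3, b - 3, c - 3] 1 = ((b - 3 : ℕ) : ℤ) := rfl
    have e2 : vec 3 [a - 3, b - 3, c - 3] 2 = ((c - 3 : ℕ) : ℤ) := rfl
    rw [altc_hh2 hs3 (by rw [e0, e1, e2]; omega) (by rw [e2]; omega), e0, e1, e2]
    simp only [L2, if_true]
    split_ifs <;> omega
  · rw [h1]
    match l, hl with
    | [a, b, c, x, y, z], _ =>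
      have := h2 a b c x y z rfl
      simp [L2, this]

theorem altc_L3 {N : ℕ} {l : List ℕ} (hl : l.length = 6) (hs : Sd l) (hsum : l.sum = 3 * N + 15) :
    altc (hd 6 3 N) (vec 6 l) = L3 l := by
  have v : Van 3 (hd 6 3 N) := van_hd (by norm_num) N
  rcases leaf_six _ v hl hs with ⟨a, b, c, rfl, h1, h2, h3⟩ | ⟨h1, h2⟩
  · rw [six_to_three _ a b c (by omega) (by omega) h3]
    simp only [st_hd three_ne_zero]
    simp only [List.sum_cons, List.sum_nil] at hsum
    have e0 : vec 3 [a - 3, b - 3, c - 3] 0 = ((a - 3 : ℕ) : ℤ) := rfl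
    have e1 : vec 3 [a - 3, b - 3, c - 3] 1 = ((b - 3 : ℕ) : ℤ) := rfl
    have e2 : vec 3 [a - 3, b - 3, c - 3] 2 = ((c - 3 : ℕ) : ℤ) := rfl
    rw [altc_hd3 (by rw [e0, e1, e2]; omega) (by intro i; simp only [vec]; positivity), e0, e1, e2]
    have ea : ((a - 3 : ℕ) : ℤ) % 3 = ((a % 3 : ℕ) : ℤ) := by omega
    have eb : ((b - 3 : ℕ) : ℤ) % 3 = ((b % 3 : ℕ) : ℤ) := by omega
    have ec : ((c - 3 : ℕ) : ℤ) % 3 = ((c % 3 : ℕ) : ℤ) := by omega
    simp only [L3, if_true, t3, ea, eb, ec]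
    have hm : ∀ x : ℕ, x % 3 = 0 ∨ x % 3 = 1 ∨ x % 3 = 2 := by intro x; omega
    rcases hm a with h | h | h <;> rcases hm b with h' | h' | h' <;>
      rcases hm c with h'' | h'' | h'' <;> simp [h, h', h'']
  · rw [h1]
    match l, hl with
    | [a, b, c, x, y, z], _ =>
      have := h2 a b c x y z rfl
      simp [L3, this]

/-- Six times the coefficient of `h_3[h_1 h_{n-1}]`. -/
def M6 (l : List ℕ) : ℤ :=
  ev (fun l1 => ev (fun l2 => ev LK (mv 1 l2)) (mv 1 l1)) (mv 1 l)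
    + 3 * ev (fun l1 => ev L2 (mv 1 l1)) (mv 2 l) + 2 * ev L3 (mv 3 l)

theorem altc_M6 {n : ℕ} (hn : 1 ≤ n) {l : List ℕ} (hl : l.length = 6) (hs : Sd l)
    (hsum : l.sum = 3 * n + 15) : 6 * altc (pleth 6 3 n) (vec 6 l) = M6 l := by
  have a0 : Anti (altc (1 : MvPolynomial (Fin 6) ℤ)) := anti_one
  set N := n - 1 with hN
  have aK : Anti (altc (hd 6 1 N * (hd 6 1 N * (hd 6 1 N * 1)))) := ((a0.hd 1 N).hd 1 N).hd 1 N
  have a22 : Anti (altc (hd 6 2 N)) := by simpa using a0.hd 2 N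
  have a2 : Anti (altc (hd 6 1 N * hd 6 2 N)) := a22.hd 1 N
  have a3 : Anti (altc (hd 6 3 N)) := by simpa using a0.hd 3 N
  have h6 : C 6 * pleth 6 3 n = psum (Fin 6) ℤ 1 * (psum (Fin 6) ℤ 1 * (psum (Fin 6) ℤ 1 *
        (hd 6 1 N * (hd 6 1 N * (hd 6 1 N * 1)))))
      + (C 3 * (psum (Fin 6) ℤ 2 * (psum (Fin 6) ℤ 1 * (hd 6 1 N * hd 6 2 N)))
      + C 2 * (psum (Fin 6) ℤ 3 * hd 6 3 N)) := by
    have := six_pleth (r := 6) n
    simp only [map_ofNat]
    rw [this]
    ring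
  have h7 := congrArg (fun F => altc F (vec 6 l)) h6
  simp only [altc_add, altc_C_mul] at h7
  rw [h7, M6, add_assoc]
  have s1 : ∀ (k : ℕ) (q : List ℕ), q.length = 6 → Sd q → ∀ t ∈ mv k q,
      t.2.length = 6 ∧ Sd t.2 ∧ t.2.sum + k = q.sum := fun k q h1 h2 t ht =>
    ⟨(mv_length k q t ht).trans h1, (mv_sd k q h2 t ht).1, (mv_sd k q h2 t ht).2.1⟩
  congr 1
  · rw [altc_psum_vec ((aK.psum 1).psum 1) 1 hl]
    apply ev_congr
    intro t ht
    obtain ⟨b1, b2, b3⟩ := s1 1 l hl hs t ht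
    rw [altc_psum_vec (aK.psum 1) 1 b1]
    apply ev_congr
    intro t' ht'
    obtain ⟨c1, c2, c3⟩ := s1 1 _ b1 b2 t' ht'
    rw [altc_psum_vec aK 1 c1]
    apply ev_congr
    intro t'' ht''
    obtain ⟨d1, d2, d3⟩ := s1 1 _ c1 c2 t'' ht''
    exact altc_LK d1 d2 (by omega)
  · congr 1
    · congr 1
      rw [altc_psum_vec (a2.psum 1) 2 hl]
      apply ev_congr
      intro t ht
      obtain ⟨b1, b2, b3⟩ := s1 2 l hl hs t ht
      rw [altc_psum_vec a2 1 b1]
      apply ev_congr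
      intro t' ht'
      obtain ⟨c1, c2, c3⟩ := s1 1 _ b1 b2 t' ht'
      exact altc_L2 c1 c2 (by omega)
    · congr 1
      rw [altc_psum_vec a3 3 hl]
      apply ev_congr
      intro t ht
      obtain ⟨b1, b2, b3⟩ := s1 3 l hl hs t ht
      exact altc_L3 b1 b2 (by omega)

end Pool.Agent.Lib.MP_a688ad_al
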