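import Pool.Agent.Lib.MP_a688ad_al.Sem

/-!
# Shifts of bead lists
-/

set_option autoImplicit false

namespace Pool.Agent.Lib.MP_a688ad_al

theorem ins_append (y : ℕ) (p q : List ℕ) (h : ∀ z ∈ q, z < y) :
    ins y (p ++ q) = (ins y p).map (fun t => (t.1, t.2 ++ q)) := by
  induction p with
  | nil =>
    cases q with
    | nil => simp [ins]
    | cons z zs =>
      have : z < y := h z (by simp)
      simp [ins, this]
  | cons w ws ih =>
    simp only [List.cons_append, ins]
    split_ifs with h1 h2
    · simp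
    · simp
    · rw [ih, List.map_map, List.map_map]
      rfl

theorem ev_mv_append (A : List ℕ → ℤ) (k : ℕ) (p q : List ℕ) (h : ∀ x ∈ p, ∀ y ∈ q, y + k < x)
    (hk : ∀ x ∈ p, k ≤ x) :
    ev A (mv k (p ++ q)) = ev (fun p' => A (p' ++ q)) (mv k p) + ev (fun q' => A (p ++ q')) (mv k q) := by
  induction p generalizing A with
  | nil => simp [mv, ev]
  | cons x xs ih =>
    have hx : k ≤ x := hk x (by simp)
    simp only [List.cons_append, mv]
    rw [ev_append, ev_append, ev_map, ev_map, if_pos hx, if_pos hx, ins_append,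
      ev_map A (fun l => l ++ q)]
    · rw [ih (fun l => A (x :: l)) (fun x' hx' => h x' (by simp [hx'])) (fun x' hx' => hk x' (by simp [hx']))]
      simp only [List.cons_append]
      ring
    · intro z hz
      have := h x (by simp) z hz
      omega

theorem ins_shift (y s : ℕ) (q : List ℕ) :
    ins (y + s) (q.map (· + s)) = (ins y q).map (fun t => (t.1, t.2.map (· + s))) := by
  induction q with
  | nil => simp [ins]
  | cons z zs ih =>
    simp only [List.map_cons, ins]
    by_cases h1 : z < y
    · rw [if_pos h1, if_pos (by omega)]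
      simp
    · rw [if_neg h1, if_neg (by omega)]
      by_cases h2 : z = y
      · rw [if_pos h2, if_pos (by omega)]
        simp
      · rw [if_neg h2, if_neg (by omega), ih, List.map_map, List.map_map]
        rfl

theorem mv_shift (k s : ℕ) (p : List ℕ) (h : ∀ x ∈ p, k ≤ x) :
    mv k (p.map (· + s)) = (mv k p).map (fun t => (t.1, t.2.map (· + s))) := by
  induction p with
  | nil => simp [mv]
  | cons x xs ih =>
    have hx : k ≤ x := h x (by simp)
    simp only [List.map_cons, mv]
    rw [if_pos hx, if_pos (by omega), ih (fun y hy => h y (by simp [hy])), List.map_append,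
      List.map_map, List.map_map]
    have e : x + s - k = x - k + s := by omega
    rw [e, ins_shift]
    rfl

theorem ins_lower (y : ℕ) (q : List ℕ) (b : ℕ) (hy : b ≤ y) (hq : ∀ z ∈ q, b ≤ z) :
    ∀ t ∈ ins y q, ∀ z ∈ t.2, b ≤ z := by
  induction q with
  | nil =>
    intro t ht z hz
    simp only [ins, List.mem_singleton] at ht
    subst ht
    simp at hz
    omega
  | cons w ws ih =>
    intro t ht z hz
    simp only [ins] at ht
    split_ifs at ht with h1 h2
    · simp only [List.mem_singleton] at ht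
      subst ht
      rcases List.mem_cons.1 hz with rfl | hz
      · exact hy
      · exact hq z hz
    · simp at ht
    · rw [List.mem_map] at ht
      obtain ⟨t', ht', rfl⟩ := ht
      rcases List.mem_cons.1 hz with rfl | hz
      · exact hq z (by simp)
      · exact ih (fun z' hz' => hq z' (by simp [hz'])) t' ht' z hz

theorem mv_lower (k : ℕ) (q : List ℕ) (b : ℕ) (hq : ∀ z ∈ q, b + k ≤ z) :
    ∀ t ∈ mv k q, ∀ z ∈ t.2, b ≤ z := by
  induction q with
  | nil => intro t ht; simp [mv] at ht
  | cons x xs ih =>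
    intro t ht z hz
    have hx := hq x (by simp)
    simp only [mv, List.mem_append] at ht
    rcases ht with ht | ht
    · split_ifs at ht with h
      · exact ins_lower _ _ b (by omega) (fun z' hz' => by have := hq z' (by simp [hz']); omega) t ht z hz
      · simp at ht
    · rw [List.mem_map] at ht
      obtain ⟨t', ht', rfl⟩ := ht
      rcases List.mem_cons.1 hz with rfl | hz
      · omega
      · exact ih (fun z' hz' => hq z' (by simp [hz'])) t' ht' z hz

/-- Separation by more than `j`. -/
def Sep (j : ℕ) (p q : List ℕ) : Prop := (∀ x ∈ p, ∀ y ∈ q, y + j < x) ∧ ∀ x ∈ p, j ≤ x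

/-- One step of a shift. -/
theorem shift_step {m s k j : ℕ} {F : List ℕ → ℤ} (Q : ℕ → List ℕ → List ℕ → Prop)
    (hQ1 : ∀ p q, Sd p → Q (j + k) p q → ∀ t ∈ mv k p, Q j t.2 q)
    (hQ2 : ∀ p q, Sd q → Q (j + k) p q → ∀ t ∈ mv k q, Q j p t.2)
    (hF : ∀ p q, p.length = m → p.length + q.length = 6 → Sd (p ++ q) → Sep j p q → Q j p q →
      F (p.map (· + s) ++ q) = F (p ++ q)) :
    ∀ p q, p.length = m → p.length + q.length = 6 → Sd (p ++ q) → Sep (j + k) p q → Q (j + k) p q →
      ev F (mv k (p.map (· + s) ++ q)) = ev F (mv k (p ++ q)) := by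
  intro p q hp hl hsd hsep hQ
  have hsd' := List.pairwise_append.1 hsd
  have hk : ∀ x ∈ p, k ≤ x := fun x hx => by have := hsep.2 x hx; omega
  rw [ev_mv_append F k (p.map (· + s)) q, ev_mv_append F k p q, mv_shift k s p hk]
  · congr 1
    · have e1 : ev (fun p' => F (p' ++ q)) ((mv k p).map (fun t => (t.1, t.2.map (· + s))))
          = ev (fun p' => F (p'.map (· + s) ++ q)) (mv k p) :=
        ev_map (fun p' => F (p' ++ q)) (fun l => l.map (· + s)) (mv k p)
      rw [e1]
      apply ev_congr
      intro t ht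
      have h1 := mv_length k p t ht
      refine hF t.2 q (h1.trans hp) (by omega) ?_ ⟨?_, ?_⟩ (hQ1 p q hsd'.1 hQ t ht)
      · refine List.pairwise_append.2 ⟨(mv_sd k p hsd'.1 t ht).1, hsd'.2.1, ?_⟩
        intro x hx y hy
        have := mv_lower k p (y + 1) (fun z hz => by have := hsep.1 z hz y hy; omega) t ht x hx
        omega
      · intro x hx y hy
        have := mv_lower k p (y + j + 1) (fun z hz => by have := hsep.1 z hz y hy; omega) t ht x hx
        omega
      · intro x hx
        exact mv_lower k p j (fun z hz => hsep.2 z hz) t ht x hx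
    · apply ev_congr
      intro t ht
      have h1 := mv_length k q t ht
      refine hF p t.2 hp (by omega) ?_ ⟨?_, ?_⟩ (hQ2 p q hsd'.2.1 hQ t ht)
      · refine List.pairwise_append.2 ⟨hsd'.1, (mv_sd k q hsd'.2.1 t ht).1, ?_⟩
        intro x hx y hy
        obtain ⟨w, hw, hle⟩ := (mv_sd k q hsd'.2.1 t ht).2.2 y hy
        exact lt_of_le_of_lt hle (hsd'.2.2 x hx w hw)
      · intro x hx y hy
        obtain ⟨w, hw, hle⟩ := (mv_sd k q hsd'.2.1 t ht).2.2 y hy
        have := hsep.1 x hx w hw
        omega
      · intro x hx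
        have := hsep.2 x hx
        omega
  · intro x hx y hy
    have := hsep.1 x hx y hy
    omega
  · exact hk
  · intro x hx y hy
    rw [List.mem_map] at hx
    obtain ⟨x', hx', rfl⟩ := hx
    have := hsep.1 x' hx' y hy
    omega
  · intro x hx
    rw [List.mem_map] at hx
    obtain ⟨x', hx', rfl⟩ := hx
    have := hk x' hx'
    omega

/-- Shifts of `M6`. -/
theorem M6_shift {m s : ℕ} (Q : ℕ → List ℕ → List ℕ → Prop)
    (hQ1 : ∀ j k p q, Sd p → Q (j + k) p q → ∀ t ∈ mv k p, Q j t.2 q)
    (hQ2 : ∀ j k p q, Sd q → Q (j + k) p q → ∀ t ∈ mv k q, Q j p t.2)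
    (hK : ∀ p q, p.length = m → p.length + q.length = 6 → Sd (p ++ q) → Sep 0 p q → Q 0 p q →
      LK (p.map (· + s) ++ q) = LK (p ++ q))
    (h2 : ∀ p q, p.length = m → p.length + q.length = 6 → Sd (p ++ q) → Sep 0 p q → Q 0 p q →
      L2 (p.map (· + s) ++ q) = L2 (p ++ q))
    (h3 : ∀ p q, p.length = m → p.length + q.length = 6 → Sd (p ++ q) → Sep 0 p q → Q 0 p q →
      L3 (p.map (· + s) ++ q) = L3 (p ++ q)) :
    ∀ p q, p.length = m → p.length + q.length = 6 → Sd (p ++ q) → Sep 3 p q → Q 3 p q →
      M6 (p.map (· + s) ++ q) = M6 (p ++ q) := by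
  intro p q hp hl hsd hsep hQ
  have a1 := shift_step (k := 1) Q (hQ1 0 1) (hQ2 0 1) hK
  have a2 := shift_step (F := fun l => ev LK (mv 1 l)) (k := 1) Q (hQ1 1 1) (hQ2 1 1) a1
  have a3 := shift_step (F := fun l => ev (fun l => ev LK (mv 1 l)) (mv 1 l)) (k := 1) Q (hQ1 2 1)
    (hQ2 2 1) a2
  have b1 := shift_step (k := 1) Q (hQ1 0 1) (hQ2 0 1) h2
  have b2 := shift_step (F := fun l => ev L2 (mv 1 l)) (k := 2) Q (hQ1 1 2) (hQ2 1 2) b1
  have c1 := shift_step (k := 3) Q (hQ1 0 3) (hQ2 0 3) h3
  unfold M6
  rw [a3 p q hp hl hsd hsep hQ, b2 p q hp hl hsd hsep hQ, c1 p q hp hl hsd hsep hQ]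

/-- Shift by 2,2,2. -/
theorem M6_shift_a {a b c x y z : ℕ} (h : Sd [a, b, c, x, y, z]) (hc : x + 4 ≤ c) :
    M6 [a + 2, b + 2, c + 2, x, y, z] = M6 [a, b, c, x, y, z] := by
  have hS := h
  simp only [sd_cons, List.mem_cons, List.not_mem_nil, or_false, forall_eq_or_imp, forall_eq] at hS
  obtain ⟨⟨s1, -⟩, ⟨s2, -⟩, ⟨s3, -⟩, ⟨s4, -⟩, s5, -⟩ := hS
  refine M6_shift (m := 3) (s := 2) (fun _ _ _ => True) (fun _ _ _ _ _ _ _ _ => trivial)
    (fun _ _ _ _ _ _ _ _ => trivial) ?_ ?_ ?_ [a, b, c] [x, y, z] rfl rfl h ⟨?_, ?_⟩ trivial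
  · intro p q hp hl _ _ _
    have hq : q.length = 3 := by omega
    match p, hp, q, hq with
    | [a, b, c], _, [x, y, z], _ =>
      simp only [List.map_cons, List.map_nil, List.cons_append, List.nil_append, LK]
      have e1 : a + 2 - (b + 2) = a - b := by omega
      have e2 : b + 2 - (c + 2) = b - c := by omega
      rw [e1, e2]
  · intro p q hp hl _ _ _
    have hq : q.length = 3 := by omega
    match p, hp, q, hq with
    | [a, b, c], _, [x, y, z], _ =>
      simp only [List.map_cons, List.map_nil, List.cons_append, List.nil_append, L2]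
      have e1 : a + 2 - (b + 2) = a - b := by omega
      have e2 : b + 2 - (c + 2) = b - c := by omega
      have e3 : (c + 2) % 2 = c % 2 := by omega
      have e4 : (a + 2) % 2 = a % 2 := by omega
      rw [e1, e2, e3, e4]
  · intro p q hp hl _ _ _
    have hq : q.length = 3 := by omega
    match p, hp, q, hq with
    | [a, b, c], _, [x, y, z], _ =>
      simp only [List.map_cons, List.map_nil, List.cons_append, List.nil_append, L3]
      congr 1
      have hm : ∀ x : ℕ, x % 3 = 0 ∨ x % 3 = 1 ∨ x % 3 = 2 := by intro x; omega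
      have hm2 : ∀ x : ℕ, (x + 2) % 3 = (x % 3 + 2) % 3 := by intro x; omega
      rw [hm2 a, hm2 b, hm2 c]
      rcases hm a with h | h | h <;> rcases hm b with h' | h' | h' <;>
        rcases hm c with h'' | h'' | h'' <;> simp [h, h', h'']
  · simp only [List.mem_cons, List.not_mem_nil, or_false, forall_eq_or_imp, forall_eq]
    omega
  · simp only [List.mem_cons, List.not_mem_nil, or_false, forall_eq_or_imp, forall_eq]
    omega

/-- Shift by 3. -/
theorem M6_shift_b {a b c x y z : ℕ} (h : Sd [a, b, c, x, y, z]) (hab : b + 4 ≤ a)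
    (hs : 3 * b + 6 ≤ a + b + c + x + y + z) :
    M6 [a + 3, b, c, x, y, z] = M6 [a, b, c, x, y, z] := by
  have hS := h
  simp only [sd_cons, List.mem_cons, List.not_mem_nil, or_false, forall_eq_or_imp, forall_eq] at hS
  obtain ⟨⟨s1, -⟩, ⟨s2, -⟩, ⟨s3, -⟩, ⟨s4, -⟩, s5, -⟩ := hS
  refine M6_shift (m := 1) (s := 3) (fun j p q => ∀ y ∈ q, 3 * y + 3 + j ≤ p.sum + q.sum) ?_ ?_ ?_ ?_ ?_
    [a] [b, c, x, y, z] rfl rfl h ⟨?_, ?_⟩ ?_
  · intro j k p q hp hQ t ht y hy
    have h1 := (mv_sd k p hp t ht).2.1
    have h2 := hQ y hy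
    omega
  · intro j k p q hq hQ t ht y hy
    have h1 := (mv_sd k q hq t ht).2.1
    obtain ⟨w, hw, hle⟩ := (mv_sd k q hq t ht).2.2 y hy
    have h2 := hQ w hw
    omega
  · intro p q hp hl hsd hsep hQ
    have hq : q.length = 5 := by omega
    match p, hp, q, hq with
    | [a], _, [b, c, x, y, z], _ =>
      simp only [List.singleton_append, sd_cons, List.mem_cons, List.not_mem_nil, or_false,
        forall_eq_or_imp, forall_eq] at hsd
      obtain ⟨⟨s1, -⟩, ⟨s2, -⟩, ⟨s3, -⟩, ⟨s4, -⟩, s5, -⟩ := hsd
      have hQb := hQ b (by simp)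
      simp only [List.sum_cons, List.sum_nil] at hQb
      simp only [List.map_cons, List.map_nil, List.cons_append, List.nil_append, LK]
      split_ifs with hx
      · congr 1
        omega
      · rfl
  · intro p q hp hl hsd hsep hQ
    have hq : q.length = 5 := by omega
    match p, hp, q, hq with
    | [a], _, [b, c, x, y, z], _ =>
      simp only [List.singleton_append, sd_cons, List.mem_cons, List.not_mem_nil, or_false,
        forall_eq_or_imp, forall_eq] at hsd
      obtain ⟨⟨s1, -⟩, ⟨s2, -⟩, ⟨s3, -⟩, ⟨s4, -⟩, s5, -⟩ := hsd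
      have hQb := hQ b (by simp)
      simp only [List.sum_cons, List.sum_nil] at hQb
      simp only [List.map_cons, List.map_nil, List.cons_append, List.nil_append, L2]
      by_cases hx : x = 2
      · have e1 : b - c ≤ a + 3 - b := by omega
        have e2 : b - c ≤ a - b := by omega
        rw [if_pos hx, if_pos hx, if_pos e1, if_pos e2, min_eq_right e1, min_eq_right e2]
      · rw [if_neg hx, if_neg hx]
  · intro p q hp hl hsd hsep hQ
    have hq : q.length = 5 := by omega
    match p, hp, q, hq with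
    | [a], _, [b, c, x, y, z], _ =>
      simp only [List.map_cons, List.map_nil, List.cons_append, List.nil_append, L3]
      have e : (a + 3) % 3 = a % 3 := by omega
      rw [e]
  · simp only [List.mem_cons, List.not_mem_nil, or_false, forall_eq_or_imp, forall_eq]
    omega
  · simp only [List.mem_cons, List.not_mem_nil, or_false, forall_eq]
    omega
  · simp only [List.mem_cons, List.not_mem_nil, or_false, forall_eq_or_imp, forall_eq,
      List.sum_cons, List.sum_nil]
    omega

/-- Shift by 6,6. -/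
theorem M6_shift_c {a b c x y z : ℕ} (h : Sd [a, b, c, x, y, z]) (hbc : c + 4 ≤ b)
    (hs : a + b + c + x + y + z + 6 ≤ 3 * b + 3) :
    M6 [a + 6, b + 6, c, x, y, z] = M6 [a, b, c, x, y, z] := by
  have hS := h
  simp only [sd_cons, List.mem_cons, List.not_mem_nil, or_false, forall_eq_or_imp, forall_eq] at hS
  obtain ⟨⟨s1, -⟩, ⟨s2, -⟩, ⟨s3, -⟩, ⟨s4, -⟩, s5, -⟩ := hS
  refine M6_shift (m := 2) (s := 6) (fun j p q => ∀ x ∈ p, p.sum + q.sum + 2 * j ≤ 3 * x + 3)
    ?_ ?_ ?_ ?_ ?_ [a, b] [c, x, y, z] rfl rfl h ⟨?_, ?_⟩ ?_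
  · intro j k p q hp hQ t ht x hx
    have h1 := (mv_sd k p hp t ht).2.1
    by_contra hcon
    push Not at hcon
    have h3 := mv_lower k p (x + 1) (fun z hz => by have := hQ z hz; omega) t ht x hx
    omega
  · intro j k p q hq hQ t ht x hx
    have h1 := (mv_sd k q hq t ht).2.1
    have h2 := hQ x hx
    omega
  · intro p q hp hl hsd hsep hQ
    have hq : q.length = 4 := by omega
    match p, hp, q, hq with
    | [a, b], _, [c, x, y, z], _ =>
      simp only [List.cons_append, List.nil_append, sd_cons, List.mem_cons, List.not_mem_nil,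
        or_false, forall_eq_or_imp, forall_eq] at hsd
      obtain ⟨⟨s1, -⟩, ⟨s2, -⟩, ⟨s3, -⟩, ⟨s4, -⟩, s5, -⟩ := hsd
      have hQb := hQ b (by simp)
      simp only [List.sum_cons, List.sum_nil] at hQb
      simp only [List.map_cons, List.map_nil, List.cons_append, List.nil_append, LK]
      split_ifs with hx
      · congr 1
        omega
      · rfl
  · intro p q hp hl hsd hsep hQ
    have hq : q.length = 4 := by omega
    match p, hp, q, hq with
    | [a, b], _, [c, x, y, z], _ =>
      simp only [List.cons_append, List.nil_append, sd_cons, List.mem_cons, List.not_mem_nil,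
        or_false, forall_eq_or_imp, forall_eq] at hsd
      obtain ⟨⟨s1, -⟩, ⟨s2, -⟩, ⟨s3, -⟩, ⟨s4, -⟩, s5, -⟩ := hsd
      have hQb := hQ b (by simp)
      simp only [List.sum_cons, List.sum_nil] at hQb
      simp only [List.map_cons, List.map_nil, List.cons_append, List.nil_append, L2]
      by_cases hx : x = 2
      · have e0 : a + 6 - (b + 6) = a - b := by omega
        have e1 : ¬ (b + 6 - c ≤ a - b) := by omega
        have e3 : (a + 6) % 2 = a % 2 := by omega
        rw [if_pos hx, if_pos hx, e0, if_neg e1, e3, min_eq_left (by omega : a - b ≤ b + 6 - c)]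
        by_cases e2 : b - c ≤ a - b
        · have e4 : a - b = b - c := by omega
          have e5 : c % 2 = a % 2 := by omega
          rw [if_pos e2, e5, min_eq_left (by omega : a - b ≤ b - c)]
        · rw [if_neg e2, min_eq_left (by omega : a - b ≤ b - c)]
      · rw [if_neg hx, if_neg hx]
  · intro p q hp hl hsd hsep hQ
    have hq : q.length = 4 := by omega
    match p, hp, q, hq with
    | [a, b], _, [c, x, y, z], _ =>
      simp only [List.map_cons, List.map_nil, List.cons_append, List.nil_append, L3]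
      have e : (a + 6) % 3 = a % 3 := by omega
      have e' : (b + 6) % 3 = b % 3 := by omega
      rw [e, e']
  · simp only [List.mem_cons, List.not_mem_nil, or_false, forall_eq_or_imp, forall_eq]
    omega
  · simp only [List.mem_cons, List.not_mem_nil, or_false, forall_eq_or_imp, forall_eq]
    omega
  · simp only [List.mem_cons, List.not_mem_nil, or_false, forall_eq_or_imp, forall_eq,
      List.sum_cons, List.sum_nil]
    omega

end Pool.Agent.Lib.MP_a688ad_al
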