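import Pool.Agent.Lib.MP_a688ad_al.Van

/-!
# Stability in the number of variables, and vanishing beyond six rows
-/

set_option autoImplicit false

open MvPolynomial Finset Equiv

namespace Pool.Agent.Lib.MP_a688ad_al

variable {r : ℕ}

/-- Setting the last variable to `0`. -/
noncomputable def st : MvPolynomial (Fin (r + 1)) ℤ →ₐ[ℤ] MvPolynomial (Fin r) ℤ :=
  aeval (Fin.snoc (α := fun _ => MvPolynomial (Fin r) ℤ) X 0)

theorem st_X_castSucc (i : Fin r) : st (X i.castSucc) = (X i : MvPolynomial (Fin r) ℤ) := by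
  unfold st
  rw [aeval_X, Fin.snoc_castSucc]

theorem st_X_last : st (X (Fin.last r)) = (0 : MvPolynomial (Fin r) ℤ) := by
  unfold st
  rw [aeval_X, Fin.snoc_last]

theorem cf_monomial {s : ℕ} (u : Fin s →₀ ℕ) (a : ℤ) (ν : Fin s → ℤ) :
    cf (monomial u a) ν = if (∀ i, ν i = u i) then a else 0 := by
  have e : (monomial u a : MvPolynomial (Fin s) ℤ) = C a * (1 * monomial u 1) := by
    rw [one_mul, C_mul_monomial, mul_one]
  rw [e, cf_C_mul, cf_mul_monomial, cf_one]
  have : ((fun i => ν i - (u i : ℤ)) = 0) ↔ ∀ i, ν i = u i := by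
    constructor
    · intro h i
      have := congrFun h i
      simp only [Pi.zero_apply] at this
      omega
    · intro h
      ext i
      rw [h i]
      simp
  simp only [this]
  split_ifs <;> simp

theorem cf_st (F : MvPolynomial (Fin (r + 1)) ℤ) (ν : Fin r → ℤ) :
    cf (st F) ν = cf F (Fin.snoc (α := fun _ => ℤ) ν 0) := by
  induction F using MvPolynomial.induction_on' with
  | add p q hp hq => rw [map_add, cf_add, cf_add, hp, hq]
  | monomial u a =>
    rw [cf_monomial]
    have h1 : st (monomial u a) = if u (Fin.last r) = 0 then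
        monomial (Finsupp.equivFunOnFinite.symm (fun i : Fin r => u i.castSucc)) a else 0 := by
      have h2 : st (monomial u a) = C a * ∏ i, (Fin.snoc (α := fun _ => MvPolynomial (Fin r) ℤ) X 0
          : Fin (r + 1) → _) i ^ u i := by
        unfold st
        rw [aeval_monomial, Finsupp.prod_fintype _ _ (by simp)]
        rfl
      rw [h2, Fin.prod_univ_castSucc]
      simp only [Fin.snoc_castSucc, Fin.snoc_last]
      split_ifs with h
      · rw [h, pow_zero, mul_one, monomial_eq, Finsupp.prod_fintype _ _ (by simp)]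
        rfl
      · rw [zero_pow h, mul_zero, mul_zero]
    rw [h1]
    by_cases h : u (Fin.last r) = 0
    · rw [if_pos h, cf_monomial]
      congr 1
      apply propext
      rw [Fin.forall_fin_succ' (P := fun i => (Fin.snoc (α := fun _ => ℤ) ν 0 : Fin (r + 1) → ℤ) i
        = (u i : ℤ))]
      simp only [Fin.snoc_castSucc, Fin.snoc_last]
      simp [h]
    · rw [if_neg h, cf_zero, if_neg]
      intro h3
      apply h
      have := h3 (Fin.last r)
      rw [Fin.snoc_last] at this
      exact_mod_cast this.symm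

theorem vdm_double (R : Type*) [CommRing R] (s : ℕ) : vdm R s
    = ∏ i : Fin s, ∏ j : Fin s, (if i < j then (X i - X j : MvPolynomial (Fin s) R) else 1) := by
  unfold vdm prs
  rw [Finset.prod_filter, Fintype.prod_prod_type]

theorem st_vdm : st (vdm ℤ (r + 1)) = vdm ℤ r * monomial (Finsupp.equivFunOnFinite.symm (fun _ => 1)) 1 := by
  rw [vdm_double, vdm_double, map_prod, Fin.prod_univ_castSucc]
  simp only [map_prod, Fin.prod_univ_castSucc, Fin.castSucc_lt_castSucc_iff, Fin.castSucc_lt_last,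
    if_true, lt_irrefl, if_false, mul_one]
  have h1 : ∀ i j : Fin r, st (if i < j then (X i.castSucc - X j.castSucc :
      MvPolynomial (Fin (r + 1)) ℤ) else 1) = if i < j then (X i - X j) else 1 := by
    intro i j
    split_ifs
    · rw [map_sub, st_X_castSucc, st_X_castSucc]
    · rw [map_one]
  have h2 : ∀ j : Fin r, st (if Fin.last r < j.castSucc then (X (Fin.last r) - X j.castSucc :
      MvPolynomial (Fin (r + 1)) ℤ) else 1) = 1 := by
    intro j
    rw [if_neg (not_lt.2 (Fin.le_last _)), map_one]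
  have h3 : ∀ i : Fin r, st ((∏ j : Fin r, if i < j then (X i.castSucc - X j.castSucc :
      MvPolynomial (Fin (r + 1)) ℤ) else 1) * (X i.castSucc - X (Fin.last r)))
      = (∏ j : Fin r, if i < j then (X i - X j) else 1) * X i := by
    intro i
    rw [map_mul, map_prod, map_sub, st_X_castSucc, st_X_last, sub_zero]
    simp only [h1]
  simp only [h3, h2, Finset.prod_const_one, mul_one]
  rw [Finset.prod_mul_distrib]
  congr 1
  rw [monomial_eq, Finsupp.prod_fintype _ _ (by simp)]
  simp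

theorem altc_st (F : MvPolynomial (Fin (r + 1)) ℤ) (κ : Fin r → ℤ) :
    altc F (Fin.snoc (α := fun _ => ℤ) κ 0) = altc (st F) (fun i => κ i - 1) := by
  rw [← coeff_vdm_mul, ← cf_st, map_mul, st_vdm, mul_assoc, mul_comm (monomial _ _), ← mul_assoc,
    cf_mul_monomial, coeff_vdm_mul]
  rfl

theorem st_psum {k : ℕ} (hk : k ≠ 0) : st (psum (Fin (r + 1)) ℤ k) = psum (Fin r) ℤ k := by
  unfold psum
  rw [map_sum, Fin.sum_univ_castSucc]
  simp only [map_pow, st_X_castSucc, st_X_last, zero_pow hk, add_zero]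

theorem st_hd {d : ℕ} (hd0 : d ≠ 0) (N : ℕ) : st (hd (r + 1) d N) = hd r d N := by
  induction N using Nat.strong_induction_on with
  | _ N ih =>
    by_cases hN : N = 0
    · subst hN
      rw [hd_zero, hd_zero, map_one]
    · have h : (N : MvPolynomial (Fin r) ℤ) ≠ 0 := by exact_mod_cast hN
      apply mul_left_cancel₀ h
      rw [newton_hd]
      have h2 := congrArg st (newton_hd (r := r + 1) d N)
      rw [map_mul, map_natCast, map_sum] at h2
      rw [h2]
      refine Finset.sum_congr rfl fun k hk => ?_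
      rw [Finset.mem_range] at hk
      rw [map_mul, st_psum (by positivity), ih _ (by omega)]

theorem st_pleth (n b : ℕ) : st (pleth (r + 1) n b) = pleth r n b := by
  induction n using Nat.strong_induction_on with
  | _ n ih =>
    by_cases hN : n = 0
    · subst hN
      rw [pleth_zero, pleth_zero, map_one]
    · have h : (n : MvPolynomial (Fin r) ℤ) ≠ 0 := by exact_mod_cast hN
      apply mul_left_cancel₀ h
      rw [newton_pleth]
      have h2 := congrArg st (newton_pleth (r := r + 1) n b)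
      rw [map_mul, map_natCast, map_sum] at h2
      rw [h2]
      refine Finset.sum_congr rfl fun k hk => ?_
      rw [Finset.mem_range] at hk
      rw [map_mul, map_mul, st_psum (by positivity), st_hd (by positivity), ih _ (by omega)]

/-- `6 h_3[h_1 h_{b-1}]` in terms of products of complete symmetric polynomials. -/
theorem six_pleth_h (b : ℕ) : C 6 * pleth r 3 b
    = hd r 1 1 * (hd r 1 1 * (hd r 1 1 * (hd r 1 (b - 1) * (hd r 1 (b - 1) * (hd r 1 (b - 1) * 1)))))
      + (C 6 * (hd r 1 1 * (hd r 1 2 * (hd r 1 (b - 1) * hd r 2 (b - 1))))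
      + (C (-3) * (hd r 1 1 * (hd r 1 1 * (hd r 1 1 * (hd r 1 (b - 1) * hd r 2 (b - 1)))))
      + (C 6 * (hd r 1 3 * hd r 3 (b - 1)) + (C (-6) * (hd r 1 1 * (hd r 1 2 * hd r 3 (b - 1)))
      + C 2 * (hd r 1 1 * (hd r 1 1 * (hd r 1 1 * hd r 3 (b - 1)))))))) := by
  have h0 := six_pleth (r := r) b
  have h3 := newton_hd (r := r) 1 3
  have h2 := newton_hd (r := r) 1 2
  have h1 := newton_hd (r := r) 1 1
  simp only [Finset.sum_range_succ, Finset.range_zero, Finset.sum_empty, zero_add, Nat.sub_self,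
    Nat.reduceAdd, Nat.reduceSub, hd_zero, Nat.cast_one, one_mul, mul_one] at h1 h2 h3
  push_cast at h2 h3
  have e1 : psum (Fin r) ℤ 1 = hd r 1 1 := h1.symm
  have e2 : psum (Fin r) ℤ 2 = 2 * hd r 1 2 - hd r 1 1 ^ 2 := by
    rw [e1] at h2
    linear_combination -h2
  have e3 : psum (Fin r) ℤ 3 = 3 * hd r 1 3 - 3 * hd r 1 1 * hd r 1 2 + hd r 1 1 ^ 3 := by
    rw [e1, e2] at h3
    linear_combination -h3
  rw [e1, e2, e3] at h0
  simp only [map_neg, map_ofNat]
  rw [h0]
  ring

theorem van_six (b : ℕ) : Van 6 (C 6 * pleth r 3 b) := by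
  rw [six_pleth_h]
  have a0 : Anti (altc (1 : MvPolynomial (Fin r) ℤ)) := anti_one
  have a2 : ∀ N, Anti (altc (hd r 2 N)) := fun N => by simpa using a0.hd 2 N
  have a3 : ∀ N, Anti (altc (hd r 3 N)) := fun N => by simpa using a0.hd 3 N
  have v0 : Van 0 (1 : MvPolynomial (Fin r) ℤ) := van_one
  have v2 : ∀ N, Van 2 (hd r 2 N) := fun N => van_hd (by norm_num) N
  have v3 : ∀ N, Van 3 (hd r 3 N) := fun N => van_hd (by norm_num) N
  have k1 : ∀ N, Anti (altc (hd r 1 N * 1)) ∧ Van 1 (hd r 1 N * 1) :=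
    fun N => ⟨a0.hd 1 N, v0.hd a0 N⟩
  have kk : ∀ (m N : ℕ) (F : MvPolynomial (Fin r) ℤ), (Anti (altc F) ∧ Van m F) →
      (Anti (altc (hd r 1 N * F)) ∧ Van (m + 1) (hd r 1 N * F)) :=
    fun m N F h => ⟨h.1.hd 1 N, h.2.hd h.1 N⟩
  have t1 := kk _ 1 _ (kk _ 1 _ (kk _ 1 _ (kk _ (b - 1) _ (kk _ (b - 1) _ (kk _ (b - 1) _ ⟨a0, v0⟩)))))
  have t2 := kk _ 1 _ (kk _ 2 _ (kk _ (b - 1) _ ⟨a2 (b - 1), v2 (b - 1)⟩))
  have t3 := kk _ 1 _ (kk _ 1 _ (kk _ 1 _ (kk _ (b - 1) _ ⟨a2 (b - 1), v2 (b - 1)⟩)))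
  have t4 := kk _ 3 _ ⟨a3 (b - 1), v3 (b - 1)⟩
  have t5 := kk _ 1 _ (kk _ 2 _ ⟨a3 (b - 1), v3 (b - 1)⟩)
  have t6 := kk _ 1 _ (kk _ 1 _ (kk _ 1 _ ⟨a3 (b - 1), v3 (b - 1)⟩))
  exact t1.2.add ((t2.2.mono.C_mul 6).add ((t3.2.C_mul (-3)).add ((t4.2.mono.mono.C_mul 6).add
    ((t5.2.mono.C_mul (-6)).add (t6.2.C_mul 2)))))

/-- The coefficients of `h_3[h_1 h_{b-1}]` at partitions with more than six rows vanish. -/
theorem altc_pleth_zero (b : ℕ) {κ : Fin r → ℤ} (hκ : StrictAnti κ) {i : Fin r} (hi : (i : ℕ) = 6)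
    (h : (rho r i : ℤ) < κ i) : altc (pleth r 3 b) κ = 0 := by
  have := van_six b κ hκ i hi h
  rw [altc_C_mul] at this
  omega

end Pool.Agent.Lib.MP_a688ad_al
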