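import Pool.Agent.Lib.MP_a688ad_al.Sem

/-!
# Tables of coefficients of `h_n[h_1 h_2]`
-/

set_option autoImplicit false

open MvPolynomial Finset Equiv

namespace Pool.Agent.Lib.MP_a688ad_al

/-- Search trees. -/
inductive Tr where
  | nil : Tr
  | node : Tr → ℕ → ℕ → Tr → Tr

/-- Look up a key. -/
def Tr.look : Tr → ℕ → Option ℕ
  | .nil, _ => none
  | .node l k v r, x => if x = k then some v else if x < k then l.look x else r.look x

/-- Check all the entries. -/
def Tr.allb (f : ℕ → ℕ → Bool) : Tr → Bool
  | .nil => true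
  | .node l k v r => f k v && l.allb f && r.allb f

theorem Tr.look_allb {f : ℕ → ℕ → Bool} {t : Tr} (h : t.allb f = true) {x v : ℕ}
    (hx : t.look x = some v) : f x v = true := by
  induction t with
  | nil => simp [Tr.look] at hx
  | node l k w r ihl ihr =>
    simp only [Tr.allb, Bool.and_eq_true] at h
    simp only [Tr.look] at hx
    split_ifs at hx with h1 h2
    · simp only [Option.some.injEq] at hx
      subst h1
      subst hx
      exact h.1.1
    · exact ihl h.1.2 hx
    · exact ihr h.2 hx

/-- Key of a bead list. -/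
def enc : List ℕ → ℕ
  | [] => 0
  | x :: xs => x + 64 * enc xs

/-- Bead list of a key. -/
def dec : ℕ → ℕ → List ℕ
  | 0, _ => []
  | n + 1, x => x % 64 :: dec n (x / 64)

theorem dec_enc (l : List ℕ) (h : ∀ x ∈ l, x < 64) : dec l.length (enc l) = l := by
  induction l with
  | nil => rfl
  | cons x xs ih =>
    have h1 : x < 64 := h x (by simp)
    have h2 := ih (fun y hy => h y (by simp [hy]))
    simp only [List.length_cons, dec, enc]
    have e1 : (x + 64 * enc xs) % 64 = x := by omega
    have e2 : (x + 64 * enc xs) / 64 = enc xs := by omega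
    rw [e1, e2, h2]

/-- Signed sum with failure. -/
def evO (f : List ℕ → Option ℤ) : List (Bool × List ℕ) → Option ℤ
  | [] => some 0
  | t :: ts => match f t.2 with
    | none => none
    | some a => match evO f ts with
      | none => none
      | some b => some (if t.1 then b - a else b + a)

theorem evO_spec {f : List ℕ → Option ℤ} {A : List ℕ → ℤ} {L : List (Bool × List ℕ)} {v : ℤ}
    (h : evO f L = some v) (hA : ∀ t ∈ L, ∀ w, f t.2 = some w → A t.2 = w) : ev A L = v := by
  induction L generalizing v with
  | nil =>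
    simp only [evO, Option.some.injEq] at h
    simp [ev, ← h]
  | cons t ts ih =>
    simp only [evO] at h
    cases ha : f t.2 with
    | none => rw [ha] at h; simp at h
    | some a =>
      rw [ha] at h
      cases hb : evO f ts with
      | none => rw [hb] at h; simp at h
      | some b =>
        rw [hb] at h
        simp only [Option.some.injEq] at h
        have h1 := hA t (by simp) a ha
        have h2 := ih hb (fun t' ht' => hA t' (by simp [ht']))
        simp only [ev, h1, h2]
        rw [← h]
        split_ifs <;> ring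

/-- Look up a bead list. -/
def lk (T : Tr) (l : List ℕ) : Option ℤ := match T.look (enc l) with
  | none => none
  | some v => some (v : ℤ)

/-- The right hand side of the recursion. -/
def rhs : ℕ → List Tr → List ℕ → Option ℤ
  | _, [], _ => some 0
  | k, T :: Ts, l =>
    match evO (fun l1 => evO (fun l2 => evO (lk T) (mv k l2)) (mv k l1)) (mv k l) with
    | none => none
    | some a => match evO (fun l1 => evO (lk T) (mv k l1)) (mv (2 * k) l) with
      | none => none
      | some b => match rhs (k + 1) Ts l with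
        | none => none
        | some c => some (a + b + c)

/-- Check of one table entry. -/
def chk (r n : ℕ) (Ts : List Tr) (x v : ℕ) : Bool :=
  match rhs 1 Ts (dec r x) with
  | none => false
  | some c => c == ((2 * n * v : ℕ) : ℤ)

/-- The coefficient of `h_n[h_1 h_2]` at a bead list. -/
noncomputable def co (r n : ℕ) (l : List ℕ) : ℤ := altc (pleth r n 3) (vec r l)

/-- A correct table. -/
def Good (r n : ℕ) (T : Tr) : Prop :=
  ∀ l : List ℕ, l.length = r → Sd l → (∀ x ∈ l, x < 64) → ∀ v, T.look (enc l) = some v → co r n l = v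

/-- Correct tables for `n-1, n-2, ..., 0`. -/
def Goods (r : ℕ) : ℕ → List Tr → Prop
  | n, [] => n = 0
  | n, T :: Ts => ∃ m, n = m + 1 ∧ Good r m T ∧ Goods r m Ts

theorem co_rec {r : ℕ} (n : ℕ) {l : List ℕ} (hl : l.length = r) (hs : Sd l) :
    (2 * n : ℤ) * co r n l = ∑ k ∈ range n,
      (ev (fun l1 => ev (fun l2 => ev (co r (n - (k + 1))) (mv (k + 1) l2)) (mv (k + 1) l1))
        (mv (k + 1) l)
      + ev (fun l1 => ev (co r (n - (k + 1))) (mv (k + 1) l1)) (mv (2 * (k + 1)) l)) := by
  have h := congrArg (fun F => altc F (vec r l)) (newton_three (r := r) n)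
  have e1 : (2 * n : MvPolynomial (Fin r) ℤ) = ((2 * n : ℕ) : MvPolynomial (Fin r) ℤ) := by push_cast; rfl
  rw [e1, altc_natCast_mul, altc_sum] at h
  have e2 : ((2 * n : ℕ) : ℤ) = 2 * (n : ℤ) := by push_cast; rfl
  rw [e2] at h
  show (2 * n : ℤ) * altc (pleth r n 3) (vec r l) = _
  rw [h]
  refine Finset.sum_congr rfl fun k _ => ?_
  have hF : Anti (altc (pleth r (n - (k + 1)) 3)) := Anti.pleth _ _
  have e3 : (psum (Fin r) ℤ (k + 1) ^ 3 + psum (Fin r) ℤ (2 * (k + 1)) * psum (Fin r) ℤ (k + 1))
      * pleth r (n - (k + 1)) 3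
      = psum (Fin r) ℤ (k + 1) * (psum (Fin r) ℤ (k + 1) * (psum (Fin r) ℤ (k + 1)
        * pleth r (n - (k + 1)) 3))
      + psum (Fin r) ℤ (2 * (k + 1)) * (psum (Fin r) ℤ (k + 1) * pleth r (n - (k + 1)) 3) := by ring
  rw [e3, altc_add]
  congr 1
  · rw [altc_psum_vec ((hF.psum _).psum _) _ hl]
    apply ev_congr
    intro t ht
    have b1 := (mv_length _ _ t ht).trans hl
    rw [altc_psum_vec (hF.psum _) _ b1]
    apply ev_congr
    intro t' ht'
    have c1 := (mv_length _ _ t' ht').trans b1
    rw [altc_psum_vec hF _ c1]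
    rfl
  · rw [altc_psum_vec (hF.psum _) _ hl]
    apply ev_congr
    intro t ht
    have b1 := (mv_length _ _ t ht).trans hl
    rw [altc_psum_vec hF _ b1]
    rfl

/-- Valid bead lists. -/
def Vd (r : ℕ) (l : List ℕ) : Prop := l.length = r ∧ Sd l ∧ ∀ x ∈ l, x < 64

theorem Vd.mv {r k : ℕ} {l : List ℕ} (h : Vd r l) : ∀ t ∈ mv k l, Vd r t.2 := by
  intro t ht
  refine ⟨(mv_length _ _ t ht).trans h.1, (mv_sd k l h.2.1 t ht).1, ?_⟩
  intro x hx
  obtain ⟨w, hw, hle⟩ := (mv_sd k l h.2.1 t ht).2.2 x hx
  exact lt_of_le_of_lt hle (h.2.2 w hw)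

theorem lk_spec {r n : ℕ} {T : Tr} (hT : Good r n T) {l : List ℕ} (hl : Vd r l) {w : ℤ}
    (h : lk T l = some w) : co r n l = w := by
  unfold lk at h
  cases hx : T.look (enc l) with
  | none => rw [hx] at h; simp at h
  | some v =>
    rw [hx] at h
    simp only [Option.some.injEq] at h
    rw [← h]
    exact hT l hl.1 hl.2.1 hl.2.2 v hx

theorem rhs_spec {r : ℕ} (Ts : List Tr) : ∀ (n k : ℕ) (l : List ℕ), Goods r n Ts → Vd r l →
    ∀ v, rhs (k + 1) Ts l = some v →
    ∑ j ∈ range n,
      (ev (fun l1 => ev (fun l2 => ev (co r (n - (j + 1))) (mv (k + j + 1) l2)) (mv (k + j + 1) l1))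
        (mv (k + j + 1) l)
      + ev (fun l1 => ev (co r (n - (j + 1))) (mv (k + j + 1) l1)) (mv (2 * (k + j + 1)) l)) = v := by
  induction Ts with
  | nil =>
    intro n k l hG hl v hv
    have : n = 0 := hG
    subst this
    simp only [rhs, Option.some.injEq] at hv
    simp [hv]
  | cons T Ts ih =>
    intro n k l hG hl v hv
    obtain ⟨m, rfl, hT, hTs⟩ := hG
    simp only [rhs] at hv
    cases ha : evO (fun l1 => evO (fun l2 => evO (lk T) (mv (k + 1) l2)) (mv (k + 1) l1))
      (mv (k + 1) l) with
    | none => rw [ha] at hv; simp at hv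
    | some a =>
      rw [ha] at hv
      cases hb : evO (fun l1 => evO (lk T) (mv (k + 1) l1)) (mv (2 * (k + 1)) l) with
      | none => rw [hb] at hv; simp at hv
      | some b =>
        rw [hb] at hv
        cases hc : rhs (k + 1 + 1) Ts l with
        | none => rw [hc] at hv; simp at hv
        | some c =>
          rw [hc] at hv
          simp only [Option.some.injEq] at hv
          rw [Finset.sum_range_succ']
          have h1 := ih m (k + 1) l hTs hl c hc
          have h2 : ∀ j ∈ range m, (ev (fun l1 => ev (fun l2 => ev (co r (m + 1 - (j + 1 + 1)))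
              (mv (k + (j + 1) + 1) l2)) (mv (k + (j + 1) + 1) l1)) (mv (k + (j + 1) + 1) l)
              + ev (fun l1 => ev (co r (m + 1 - (j + 1 + 1))) (mv (k + (j + 1) + 1) l1))
                (mv (2 * (k + (j + 1) + 1)) l))
              = (ev (fun l1 => ev (fun l2 => ev (co r (m - (j + 1)))
              (mv (k + 1 + j + 1) l2)) (mv (k + 1 + j + 1) l1)) (mv (k + 1 + j + 1) l)
              + ev (fun l1 => ev (co r (m - (j + 1))) (mv (k + 1 + j + 1) l1))
                (mv (2 * (k + 1 + j + 1)) l)) := by
            intro j _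
            have e1 : m + 1 - (j + 1 + 1) = m - (j + 1) := by omega
            have e2 : k + (j + 1) + 1 = k + 1 + j + 1 := by omega
            rw [e1, e2]
          rw [Finset.sum_congr rfl h2, h1]
          simp only [zero_add, add_zero, Nat.add_sub_cancel]
          have h3 : ev (fun l1 => ev (fun l2 => ev (co r m) (mv (k + 1) l2)) (mv (k + 1) l1))
              (mv (k + 1) l) = a := by
            apply evO_spec ha
            intro t ht w hw
            apply evO_spec hw
            intro t' ht' w' hw'
            apply evO_spec hw'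
            intro t'' ht'' w'' hw''
            exact lk_spec hT ((((hl.mv t ht)).mv t' ht').mv t'' ht'') hw''
          have h4 : ev (fun l1 => ev (co r m) (mv (k + 1) l1)) (mv (2 * (k + 1)) l) = b := by
            apply evO_spec hb
            intro t ht w hw
            apply evO_spec hw
            intro t' ht' w' hw'
            exact lk_spec hT ((hl.mv t ht).mv t' ht') hw'
          rw [h3, h4, ← hv]
          ring

theorem good_of_chk {r n : ℕ} (hn : n ≠ 0) {Ts : List Tr} (hG : Goods r n Ts) {T : Tr}
    (h : T.allb (chk r n Ts) = true) : Good r n T := by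
  intro l hl hs hlt v hv
  have h1 := Tr.look_allb h hv
  unfold chk at h1
  rw [← hl, dec_enc l hlt] at h1
  cases hc : rhs 1 Ts l with
  | none => rw [hc] at h1; simp at h1
  | some c =>
    rw [hc] at h1
    simp only [beq_iff_eq] at h1
    have h2 := rhs_spec Ts n 0 l hG ⟨hl, hs, hlt⟩ c hc
    simp only [zero_add] at h2
    have h3 := co_rec n hl hs
    rw [h2, h1] at h3
    have h4 : (2 * n : ℤ) ≠ 0 := by
      have : (n : ℤ) ≠ 0 := by exact_mod_cast hn
      positivity
    apply mul_left_cancel₀ h4
    rw [h3]
    push_cast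
    ring

theorem co_zero {r : ℕ} {l : List ℕ} (hl : l.length = r) (hs : Sd l) :
    co r 0 l = if (∀ i : Fin r, vec r l i = rho r i) then 1 else 0 := by
  unfold co
  rw [pleth_zero, altc_one (vec_strictAnti hl hs)]

/-- The table for `n = 0`. -/
theorem good_zero {r x : ℕ} (h : ∀ i : Fin r, vec r (dec r x) i = rho r i) :
    Good r 0 (.node .nil x 1 .nil) := by
  intro l hl hs hlt v hv
  simp only [Tr.look] at hv
  split_ifs at hv with h1 h2
  · simp only [Option.some.injEq] at hv
    subst hv
    have h3 := dec_enc l hlt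
    rw [hl, h1] at h3
    rw [co_zero hl hs, if_pos]
    · simp
    · rw [← h3]
      exact h

end Pool.Agent.Lib.MP_a688ad_al
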