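import Pool.Agent.Lib.MP_a688ad_al.Tab

/-!
# Tables of coefficients of `h_n[h_1 h_2]`: data
-/

set_option autoImplicit false
set_option maxRecDepth 100000
set_option linter.style.longLine false

namespace Pool.Agent.Lib.MP_a688ad_al

/-- Table for `n = 0`, `r = 6`. -/
def tS0 : Tr := (.node .nil 17314053 1 .nil)

/-- Table for `n = 1`, `r = 6`. -/
def tS1 : Tr := (.node (.node .nil 17314056 1 .nil) 17314119 1 (.node .nil 17318214 0 .nil))

/-- Table for `n = 2`, `r = 6`. -/
def tS2 : Tr := (.node (.node (.node (.node .nil 17314059 1 .nil) 17314122 1 .nil) 17314185 3 (.node (.node .nil 17314248 0 .nil) 17318217 1 .nil)) 17318280 2 (.node (.node (.node .nil 17322375 1 .nil) 17580360 1 .nil) 17580423 0 (.node (.node .nil 34357575 0 .nil) 1108099398 0 .nil)))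

/-- Table for `n = 3`, `r = 6`. -/
def tS3 : Tr := (.node (.node (.node (.node (.node .nil 17314062 1 .nil) 17314125 1 (.node .nil 17314188 3 .nil)) 17314251 4 (.node (.node .nil 17314314 2 .nil) 17318220 1 .nil)) 17318283 4 (.node (.node (.node .nil 17318346 5 .nil) 17318409 4 (.node .nil 17322378 6 .nil)) 17322441 4 (.node (.node .nil 17326536 1 .nil) 17580363 1 .nil))) 17580426 4 (.node (.node (.node (.node .nil 17580489 4 .nil) 17584521 5 (.node .nil 17584584 2 .nil)) 17846664 2 (.node (.node .nil 34357578 1 .nil) 34357641 2 .nil)) 34357704 2 (.node (.node (.node .nil 34361736 1 .nil) 34623879 0 .nil) 1108099401 1 (.node (.node .nil 1108099464 0 .nil) 1108103559 0 .nil))))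

/-- Table for `n = 4`, `r = 6`. -/
def tS4 : Tr := (.node (.node (.node (.node (.node (.node .nil 17314065 1 .nil) 17314128 1 (.node .nil 17314191 3 .nil)) 17314254 4 (.node (.node .nil 17314317 7 .nil) 17314380 3 .nil)) 17314443 3 (.node (.node (.node .nil 17318223 1 .nil) 17318286 4 (.node .nil 17318349 8 .nil)) 17318412 12 (.node (.node .nil 17318475 8 .nil) 17322381 7 .nil))) 17322444 14 (.node (.node (.node (.node .nil 17322507 18 .nil) 17322570 5 (.node .nil 17326539 7 .nil)) 17326602 10 (.node (.node .nil 17330697 4 .nil) 17580366 1 .nil)) 17580429 4 (.node (.node (.node .nil 17580492 11 .nil) 17580555 11 .nil) 17580618 7 (.node (.node .nil 17584524 10 .nil) 17584587 22 .nil)))) 17584650 22 (.node (.node (.node (.node (.node .nil 17588682 13 .nil) 17588745 7 (.node .nil 17846667 12 .nil)) 17846730 13 (.node (.node .nil 17846793 10 .nil) 17850825 6 .nil)) 18112968 1 (.node (.node (.node .nil 34357581 1 .nil) 34357644 4 .nil) 34357707 9 (.node (.node .nil 34357770 9 .nil) 34361739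 9 .nil))) 34361802 18 (.node (.node (.node (.node .nil 34361865 9 .nil) 34365897 8 (.node .nil 34623882 10 .nil)) 34623945 10 (.node (.node .nil 34628040 3 .nil) 1108099404 1 .nil)) 1108099467 4 (.node (.node (.node .nil 1108099530 5 .nil) 1108099593 4 .nil) 1108103562 5 (.node (.node .nil 1108103625 7 .nil) 1108107720 1 .nil)))))

/-- Table for `n = 5`, `r = 6`. -/
def tS5 : Tr := (.node (.node (.node (.node (.node (.node (.node .nil 17314068 1 .nil) 17314131 1 .nil) 17314194 3 (.node (.node .nil 17314257 4 .nil) 17314320 7 .nil)) 17314383 9 (.node (.node (.node .nil 17314446 7 .nil) 17314509 4 .nil) 17318226 1 (.node .nil 17318289 4 .nil))) 17318352 8 (.node (.node (.node (.node .nil 17318415 16 .nil) 17318478 19 .nil) 17318541 18 (.node (.node .nil 17318604 5 .nil) 17322384 7 .nil)) 17322447 16 (.node (.node (.node .nil 17322510 33 .nil) 17322573 36 .nil) 17322636 25 (.node .nil 17326542 12 .nil)))) 17326605 34 (.node (.node (.node (.node (.node .nil 17326668 33 .nil) 17326731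 17 .nil) 17330700 22 (.node (.node .nil 17330763 20 .nil) 17334858 2 .nil)) 17580369 1 (.node (.node (.node .nil 17580432 4 .nil) 17580495 11 .nil) 17580558 21 (.node .nil 17580621 25 .nil))) 17580684 18 (.node (.node (.node (.node .nil 17584527 10 .nil) 17584590 32 .nil) 17584653 63 (.node (.node .nil 17584716 64 .nil) 17584779 29 .nil)) 17588685 33 (.node (.node (.node .nil 17588748 72 .nil) 17588811 59 .nil) 17592843 39 (.node .nil 17592906 22 .nil))))) 17846670 14 (.node (.node (.node (.node (.node (.node .nil 17846733 38 .nil) 17846796 62 .nil) 17846859 48 (.node (.node .nil 17850828 38 .nil) 17850891 70 .nil)) 17850954 34 (.node (.node (.node .nil 17854986 32 .nil) 18112971 15 .nil) 18113034 22 (.node .nil 18117129 6 .nil))) 34357584 1 (.node (.node (.node (.node .nil 34357647 4 .nil) 34357710 12 .nil) 34357773 21 (.node (.node .nil 34357836 25 .nil) 34357899 9 .nil)) 34361742 10 (.node (.node (.node .nil 34361805 40 .nil) 34361868 67 .nil) 34361931 57 (.node .nil 34365900 44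 .nil)))) 34365963 72 (.node (.node (.node (.node (.node .nil 34366026 43 .nil) 34370058 27 .nil) 34623885 20 (.node (.node .nil 34623948 59 .nil) 34624011 82 .nil)) 34624074 37 (.node (.node (.node .nil 34628043 59 .nil) 34628106 75 .nil) 34632201 17 (.node .nil 1108099407 1 .nil))) 1108099470 4 (.node (.node (.node (.node .nil 1108099533 12 .nil) 1108099596 18 .nil) 1108099659 16 (.node (.node .nil 1108103565 10 .nil) 1108103628 35 .nil)) 1108103691 49 (.node (.node (.node .nil 1108103754 27 .nil) 1108107723 34 .nil) 1108107786 42 (.node .nil 1108111881 7 .nil))))))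

/-- Table for `n = 6`, `r = 6`. -/
def tS6 : Tr := (.node (.node (.node (.node (.node (.node (.node (.node .nil 17314071 1 .nil) 17314134 1 .nil) 17314197 3 (.node .nil 17314260 4 .nil)) 17314323 7 (.node (.node .nil 17314386 9 .nil) 17314449 14 (.node .nil 17314512 9 .nil))) 17314575 9 (.node (.node (.node .nil 17314638 1 .nil) 17318229 1 (.node .nil 17318292 4 .nil)) 17318355 8 (.node (.node .nil 17318418 16 .nil) 17318481 24 (.node .nil 17318544 32 .nil)))) 17318607 29 (.node (.node (.node (.node (.node .nil 17318670 16 .nil) 17322387 7 .nil) 17322450 16 (.node .nil 17322513 36 .nil)) 17322576 56 (.node (.node .nil 17322639 69 .nil) 17322702 51 (.node .nil 17322765 25 .nil))) 17326545 13 (.node (.node (.node .nil 17326608 44 .nil) 17326671 75 (.node .nil 17326734 88 .nil)) 17326797 54 (.node (.node .nil 17330703 43 .nil) 17330766 71 (.node .nil 17330829 82 .nil))))) 17330892 29 (.node (.node (.node (.node (.node (.node .nil 17334861 34 .nil) 17334924 36 .nil) 17339019 11 (.node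 .nil 17580372 1 .nil)) 17580435 4 (.node (.node .nil 17580498 11 .nil) 17580561 21 (.node .nil 17580624 38 .nil))) 17580687 43 (.node (.node (.node .nil 17580750 39 .nil) 17580813 12 (.node .nil 17584530 10 .nil)) 17584593 32 (.node (.node .nil 17584656 78 .nil) 17584719 126 (.node .nil 17584782 141 .nil)))) 17584845 94 (.node (.node (.node (.node (.node .nil 17588688 38 .nil) 17588751 121 .nil) 17588814 203 (.node .nil 17588877 196 .nil)) 17588940 85 (.node (.node .nil 17592846 110 .nil) 17592909 192 (.node .nil 17592972 157 .nil))) 17597004 82 (.node (.node (.node .nil 17597067 49 .nil) 17846673 14 (.node .nil 17846736 42 .nil)) 17846799 105 (.node (.node .nil 17846862 148 .nil) 17846925 151 (.node .nil 17846988 52 .nil)))))) 17850831 58 (.node (.node (.node (.node (.node (.node (.node .nil 17850894 190 .nil) 17850957 272 .nil) 17851020 210 (.node .nil 17854989 172 .nil)) 17855052 239 (.node (.node .nil 17855115 128 .nil) 17859147 77 (.node .nil 18112974 40 .nil))) 18113037 113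 (.node (.node (.node .nil 18113100 151 .nil) 18113163 64 (.node .nil 18117132 118 .nil)) 18117195 132 (.node (.node .nil 18121290 30 .nil) 34357587 1 (.node .nil 34357650 4 .nil)))) 34357713 12 (.node (.node (.node (.node (.node .nil 34357776 25 .nil) 34357839 42 .nil) 34357902 48 (.node .nil 34357965 32 .nil)) 34361745 10 (.node (.node .nil 34361808 42 .nil) 34361871 103 (.node .nil 34361934 165 .nil))) 34361997 160 (.node (.node (.node .nil 34362060 70 .nil) 34365903 61 (.node .nil 34365966 183 .nil)) 34366029 277 (.node (.node .nil 34366092 213 .nil) 34370061 147 (.node .nil 34370124 237 .nil))))) 34370187 112 (.node (.node (.node (.node (.node (.node .nil 34374219 81 .nil) 34623888 20 .nil) 34623951 82 (.node .nil 34624014 195 .nil)) 34624077 265 (.node (.node .nil 34624140 202 .nil) 34628046 135 (.node .nil 34628109 379 .nil))) 34628172 463 (.node (.node (.node .nil 34628235 214 .nil) 34632204 284 (.node .nil 34632267 328 .nil)) 34636362 63 (.node (.node .nil 1108099410 1 .nil)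 1108099473 4 (.node .nil 1108099536 12 .nil)))) 1108099599 28 (.node (.node (.node (.node .nil 1108099662 39 .nil) 1108099725 42 (.node .nil 1108099788 16 .nil)) 1108103568 10 (.node (.node .nil 1108103631 45 .nil) 1108103694 108 (.node .nil 1108103757 158 .nil))) 1108103820 120 (.node (.node (.node .nil 1108107726 70 .nil) 1108107789 191 (.node .nil 1108107852 240 .nil)) 1108107915 118 (.node (.node .nil 1108111884 135 .nil) 1108111947 162 (.node .nil 1108116042 37 .nil)))))))

/-- Table for `n = 0`, `r = 2`. -/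
def tD0 : Tr := (.node .nil 1 1 .nil)

/-- Table for `n = 1`, `r = 2`. -/
def tD1 : Tr := (.node (.node .nil 4 1 .nil) 67 1 .nil)

/-- Table for `n = 2`, `r = 2`. -/
def tD2 : Tr := (.node (.node (.node .nil 7 1 .nil) 70 1 .nil) 133 3 (.node .nil 196 0 .nil))

/-- Table for `n = 3`, `r = 2`. -/
def tD3 : Tr := (.node (.node (.node .nil 10 1 .nil) 73 1 .nil) 136 3 (.node (.node .nil 199 4 .nil) 262 2 .nil))

/-- Table for `n = 4`, `r = 2`. -/
def tD4 : Tr := (.node (.node (.node .nil 13 1 .nil) 76 1 (.node .nil 139 3 .nil)) 202 4 (.node (.node .nil 265 7 .nil) 328 3 (.node .nil 391 3 .nil)))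

/-- Table for `n = 5`, `r = 2`. -/
def tD5 : Tr := (.node (.node (.node (.node .nil 16 1 .nil) 79 1 .nil) 142 3 (.node .nil 205 4 .nil)) 268 7 (.node (.node .nil 331 9 .nil) 394 7 (.node .nil 457 4 .nil)))

/-- Table for `n = 6`, `r = 2`. -/
def tD6 : Tr := (.node (.node (.node (.node .nil 19 1 .nil) 82 1 .nil) 145 3 (.node (.node .nil 208 4 .nil) 271 7 .nil)) 334 9 (.node (.node (.node .nil 397 14 .nil) 460 9 .nil) 523 9 (.node .nil 586 1 .nil)))

/-- Table for `n = 7`, `r = 2`. -/
def tD7 : Tr := (.node (.node (.node (.node .nil 22 1 .nil) 85 1 .nil) 148 3 (.node (.node .nil 211 4 .nil) 274 7 .nil)) 337 9 (.node (.node (.node .nil 400 14 .nil) 463 17 .nil) 526 15 (.node (.node .nil 589 12 .nil) 652 6 .nil)))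

/-- Table for `n = 8`, `r = 2`. -/
def tD8 : Tr := (.node (.node (.node (.node .nil 25 1 .nil) 88 1 (.node .nil 151 3 .nil)) 214 4 (.node (.node .nil 277 7 .nil) 340 9 .nil)) 403 14 (.node (.node (.node .nil 466 17 .nil) 529 24 (.node .nil 592 19 .nil)) 655 19 (.node (.node .nil 718 9 .nil) 781 6 .nil)))

/-- Table for `n = 9`, `r = 2`. -/
def tD9 : Tr := (.node (.node (.node (.node .nil 28 1 .nil) 91 1 (.node .nil 154 3 .nil)) 217 4 (.node (.node .nil 280 7 .nil) 343 9 (.node .nil 406 14 .nil))) 469 17 (.node (.node (.node .nil 532 24 .nil) 595 29 (.node .nil 658 27 .nil)) 721 24 (.node (.node .nil 784 17 .nil) 847 9 .nil)))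

/-- Table for `n = 10`, `r = 2`. -/
def tD10 : Tr := (.node (.node (.node (.node (.node .nil 31 1 .nil) 94 1 .nil) 157 3 (.node .nil 220 4 .nil)) 283 7 (.node (.node .nil 346 9 .nil) 409 14 (.node .nil 472 17 .nil))) 535 24 (.node (.node (.node .nil 598 29 .nil) 661 38 (.node .nil 724 33 .nil)) 787 34 (.node (.node .nil 850 22 .nil) 913 18 (.node .nil 976 3 .nil))))

/-- Table for `n = 11`, `r = 2`. -/
def tD11 : Tr := (.node (.node (.node (.node (.node .nil 34 1 .nil) 97 1 .nil) 160 3 (.node .nil 223 4 .nil)) 286 7 (.node (.node .nil 349 9 .nil) 412 14 (.node .nil 475 17 .nil))) 538 24 (.node (.node (.node (.node .nil 601 29 .nil) 664 38 .nil) 727 45 (.node .nil 790 44 .nil)) 853 41 (.node (.node .nil 916 33 .nil) 979 24 (.node .nil 1042 12 .nil))))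

/-- Table for `n = 12`, `r = 2`. -/
def tD12 : Tr := (.node (.node (.node (.node (.node .nil 37 1 .nil) 100 1 .nil) 163 3 (.node .nil 226 4 .nil)) 289 7 (.node (.node (.node .nil 352 9 .nil) 415 14 .nil) 478 17 (.node .nil 541 24 .nil))) 604 29 (.node (.node (.node (.node .nil 667 38 .nil) 730 45 .nil) 793 57 (.node .nil 856 52 .nil)) 919 54 (.node (.node (.node .nil 982 41 .nil) 1045 36 .nil) 1108 18 (.node .nil 1171 10 .nil))))

theorem good_tS0 : Good 6 0 tS0 := good_zero (by decide)

theorem chk_tS1 : tS1.allb (chk 6 1 [tS0]) = true := by decide +kernel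

theorem goods_tS1 : Goods 6 1 [tS0] := ⟨0, rfl, good_tS0, rfl⟩

theorem good_tS1 : Good 6 1 tS1 := good_of_chk (by norm_num) goods_tS1 chk_tS1

theorem chk_tS2 : tS2.allb (chk 6 2 [tS1, tS0]) = true := by decide +kernel

theorem goods_tS2 : Goods 6 2 [tS1, tS0] := ⟨1, rfl, good_tS1, goods_tS1⟩

theorem good_tS2 : Good 6 2 tS2 := good_of_chk (by norm_num) goods_tS2 chk_tS2

theorem chk_tS3 : tS3.allb (chk 6 3 [tS2, tS1, tS0]) = true := by decide +kernel

theorem goods_tS3 : Goods 6 3 [tS2, tS1, tS0] := ⟨2, rfl, good_tS2, goods_tS2⟩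

theorem good_tS3 : Good 6 3 tS3 := good_of_chk (by norm_num) goods_tS3 chk_tS3

theorem chk_tS4 : tS4.allb (chk 6 4 [tS3, tS2, tS1, tS0]) = true := by decide +kernel

theorem goods_tS4 : Goods 6 4 [tS3, tS2, tS1, tS0] := ⟨3, rfl, good_tS3, goods_tS3⟩

theorem good_tS4 : Good 6 4 tS4 := good_of_chk (by norm_num) goods_tS4 chk_tS4

theorem chk_tS5 : tS5.allb (chk 6 5 [tS4, tS3, tS2, tS1, tS0]) = true := by decide +kernel

theorem goods_tS5 : Goods 6 5 [tS4, tS3, tS2, tS1, tS0] := ⟨4, rfl, good_tS4, goods_tS4⟩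

theorem good_tS5 : Good 6 5 tS5 := good_of_chk (by norm_num) goods_tS5 chk_tS5

theorem chk_tS6 : tS6.allb (chk 6 6 [tS5, tS4, tS3, tS2, tS1, tS0]) = true := by decide +kernel

theorem goods_tS6 : Goods 6 6 [tS5, tS4, tS3, tS2, tS1, tS0] := ⟨5, rfl, good_tS5, goods_tS5⟩

theorem good_tS6 : Good 6 6 tS6 := good_of_chk (by norm_num) goods_tS6 chk_tS6

theorem good_tD0 : Good 2 0 tD0 := good_zero (by decide)

theorem chk_tD1 : tD1.allb (chk 2 1 [tD0]) = true := by decide +kernel

theorem goods_tD1 : Goods 2 1 [tD0] := ⟨0, rfl, good_tD0, rfl⟩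

theorem good_tD1 : Good 2 1 tD1 := good_of_chk (by norm_num) goods_tD1 chk_tD1

theorem chk_tD2 : tD2.allb (chk 2 2 [tD1, tD0]) = true := by decide +kernel

theorem goods_tD2 : Goods 2 2 [tD1, tD0] := ⟨1, rfl, good_tD1, goods_tD1⟩

theorem good_tD2 : Good 2 2 tD2 := good_of_chk (by norm_num) goods_tD2 chk_tD2

theorem chk_tD3 : tD3.allb (chk 2 3 [tD2, tD1, tD0]) = true := by decide +kernel

theorem goods_tD3 : Goods 2 3 [tD2, tD1, tD0] := ⟨2, rfl, good_tD2, goods_tD2⟩

theorem good_tD3 : Good 2 3 tD3 := good_of_chk (by norm_num) goods_tD3 chk_tD3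

theorem chk_tD4 : tD4.allb (chk 2 4 [tD3, tD2, tD1, tD0]) = true := by decide +kernel

theorem goods_tD4 : Goods 2 4 [tD3, tD2, tD1, tD0] := ⟨3, rfl, good_tD3, goods_tD3⟩

theorem good_tD4 : Good 2 4 tD4 := good_of_chk (by norm_num) goods_tD4 chk_tD4

theorem chk_tD5 : tD5.allb (chk 2 5 [tD4, tD3, tD2, tD1, tD0]) = true := by decide +kernel

theorem goods_tD5 : Goods 2 5 [tD4, tD3, tD2, tD1, tD0] := ⟨4, rfl, good_tD4, goods_tD4⟩

theorem good_tD5 : Good 2 5 tD5 := good_of_chk (by norm_num) goods_tD5 chk_tD5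

theorem chk_tD6 : tD6.allb (chk 2 6 [tD5, tD4, tD3, tD2, tD1, tD0]) = true := by decide +kernel

theorem goods_tD6 : Goods 2 6 [tD5, tD4, tD3, tD2, tD1, tD0] := ⟨5, rfl, good_tD5, goods_tD5⟩

theorem good_tD6 : Good 2 6 tD6 := good_of_chk (by norm_num) goods_tD6 chk_tD6

theorem chk_tD7 : tD7.allb (chk 2 7 [tD6, tD5, tD4, tD3, tD2, tD1, tD0]) = true := by decide +kernel

theorem goods_tD7 : Goods 2 7 [tD6, tD5, tD4, tD3, tD2, tD1, tD0] := ⟨6, rfl, good_tD6, goods_tD6⟩

theorem good_tD7 : Good 2 7 tD7 := good_of_chk (by norm_num) goods_tD7 chk_tD7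

theorem chk_tD8 : tD8.allb (chk 2 8 [tD7, tD6, tD5, tD4, tD3, tD2, tD1, tD0]) = true := by decide +kernel

theorem goods_tD8 : Goods 2 8 [tD7, tD6, tD5, tD4, tD3, tD2, tD1, tD0] := ⟨7, rfl, good_tD7, goods_tD7⟩

theorem good_tD8 : Good 2 8 tD8 := good_of_chk (by norm_num) goods_tD8 chk_tD8

theorem chk_tD9 : tD9.allb (chk 2 9 [tD8, tD7, tD6, tD5, tD4, tD3, tD2, tD1, tD0]) = true := by decide +kernel

theorem goods_tD9 : Goods 2 9 [tD8, tD7, tD6, tD5, tD4, tD3, tD2, tD1, tD0] := ⟨8, rfl, good_tD8, goods_tD8⟩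

theorem good_tD9 : Good 2 9 tD9 := good_of_chk (by norm_num) goods_tD9 chk_tD9

theorem chk_tD10 : tD10.allb (chk 2 10 [tD9, tD8, tD7, tD6, tD5, tD4, tD3, tD2, tD1, tD0]) = true := by decide +kernel

theorem goods_tD10 : Goods 2 10 [tD9, tD8, tD7, tD6, tD5, tD4, tD3, tD2, tD1, tD0] := ⟨9, rfl, good_tD9, goods_tD9⟩

theorem good_tD10 : Good 2 10 tD10 := good_of_chk (by norm_num) goods_tD10 chk_tD10

theorem chk_tD11 : tD11.allb (chk 2 11 [tD10, tD9, tD8, tD7, tD6, tD5, tD4, tD3, tD2, tD1, tD0]) = true := by decide +kernel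

theorem goods_tD11 : Goods 2 11 [tD10, tD9, tD8, tD7, tD6, tD5, tD4, tD3, tD2, tD1, tD0] := ⟨10, rfl, good_tD10, goods_tD10⟩

theorem good_tD11 : Good 2 11 tD11 := good_of_chk (by norm_num) goods_tD11 chk_tD11

theorem chk_tD12 : tD12.allb (chk 2 12 [tD11, tD10, tD9, tD8, tD7, tD6, tD5, tD4, tD3, tD2, tD1, tD0]) = true := by decide +kernel

theorem goods_tD12 : Goods 2 12 [tD11, tD10, tD9, tD8, tD7, tD6, tD5, tD4, tD3, tD2, tD1, tD0] := ⟨11, rfl, good_tD11, goods_tD11⟩

theorem good_tD12 : Good 2 12 tD12 := good_of_chk (by norm_num) goods_tD12 chk_tD12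

end Pool.Agent.Lib.MP_a688ad_al
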