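import Pool.Agent.Lib.MP_a688ad_al.Oper

/-!
# Vanishing for partitions with many rows
-/

set_option autoImplicit false

open MvPolynomial Finset Equiv

namespace Pool.Agent.Lib.MP_a688ad_al

variable {r : ℕ}

theorem strictAnti_of {f : Fin r → ℤ} (h : ∀ i j : Fin r, (i : ℕ) + 1 = j → f j < f i) :
    StrictAnti f := by
  cases r with
  | zero => intro i; exact i.elim0
  | succ n =>
    rw [Fin.strictAnti_iff_succ_lt]
    intro i
    exact h _ _ (by simp)

/-- The coefficients at partitions with more than `m` rows vanish. -/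
def Van (m : ℕ) (F : MvPolynomial (Fin r) ℤ) : Prop :=
  ∀ κ : Fin r → ℤ, StrictAnti κ → ∀ i : Fin r, (i : ℕ) = m → (rho r i : ℤ) < κ i → altc F κ = 0

theorem Van.mono {m : ℕ} {F : MvPolynomial (Fin r) ℤ} (h : Van m F) : Van (m + 1) F := by
  intro κ hκ i hi hlt
  have h1 := i.2
  refine h κ hκ ⟨m, by omega⟩ rfl ?_
  have h2 : κ i < κ ⟨m, by omega⟩ := hκ (Fin.lt_def.2 (by show m < i; omega))
  have h3 : rho r ⟨m, by omega⟩ = rho r i + 1 := by unfold rho; simp only; omega
  rw [h3]
  push_cast
  omega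

theorem Van.add {m : ℕ} {F G : MvPolynomial (Fin r) ℤ} (h : Van m F) (h' : Van m G) :
    Van m (F + G) := by
  intro κ hκ i hi hlt
  rw [altc_add, h κ hκ i hi hlt, h' κ hκ i hi hlt, add_zero]

theorem Van.C_mul {m : ℕ} {F : MvPolynomial (Fin r) ℤ} (h : Van m F) (c : ℤ) :
    Van m (C c * F) := by
  intro κ hκ i hi hlt
  rw [altc_C_mul, h κ hκ i hi hlt, mul_zero]

theorem Van.hd {m : ℕ} {F : MvPolynomial (Fin r) ℤ} (hF : Anti (altc F)) (h : Van m F) (N : ℕ) :
    Van (m + 1) (hd r 1 N * F) := by
  intro κ hκ i hi hlt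
  rw [pieri hF N hκ]
  apply Finset.sum_eq_zero
  intro β hβ
  rw [Finset.mem_filter] at hβ
  have h1 := i.2
  refine h _ ?_ ⟨m, by omega⟩ rfl ?_
  · apply strictAnti_of
    intro i' j' hij
    have := hβ.2 i' j' hij
    omega
  · have h2 := hβ.2 ⟨m, by omega⟩ i (by show m + 1 = i; omega)
    have h3 : rho r ⟨m, by omega⟩ = rho r i + 1 := by unfold rho; simp only; omega
    rw [h3]
    push_cast
    omega

theorem van_one : Van 0 (1 : MvPolynomial (Fin r) ℤ) := by
  intro κ hκ i hi hlt
  unfold altc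
  apply Finset.sum_eq_zero
  intro σ _
  rw [cf_one, if_neg, mul_zero]
  intro h
  have h1 := congrFun h i
  simp only [Pi.zero_apply] at h1
  have h2 : rho r (σ i) ≤ rho r i := by
    unfold rho
    omega
  omega

theorem monomial_hd (d N : ℕ) : hd r d N
    = ∑ β ∈ piAntidiag univ N, monomial (d • Finsupp.equivFunOnFinite.symm β) 1 := by
  have h : hsymm (Fin r) ℤ N = hd r 1 N := by
    unfold hd
    simp only [pow_one]
    exact (aeval_X_left_apply _).symm
  rw [hd, h, hd_one_eq, map_sum]
  refine Finset.sum_congr rfl fun β _ => ?_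
  rw [aeval_monomial, map_one, one_mul, Finsupp.prod_fintype _ _ (by simp), monomial_eq,
    Finsupp.prod_fintype _ _ (by simp)]
  simp only [← pow_mul, map_one, one_mul, Finsupp.smul_apply, smul_eq_mul]

theorem cf_hd {d : ℕ} (hd0 : 0 < d) (N : ℕ) (ν : Fin r → ℤ) :
    cf (hd r d N) ν = if (∀ i, 0 ≤ ν i ∧ (d : ℤ) ∣ ν i) ∧ ∑ i, ν i = d * N then 1 else 0 := by
  rw [monomial_hd, cf_sum]
  have h1 : ∀ β : Fin r → ℕ, cf (monomial (d • Finsupp.equivFunOnFinite.symm β) (1 : ℤ)) ν
      = if (∀ i, ν i = d * β i) then 1 else 0 := by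
    intro β
    have h := cf_mul_monomial (1 : MvPolynomial (Fin r) ℤ) (d • Finsupp.equivFunOnFinite.symm β) ν
    rw [one_mul] at h
    rw [h, cf_one]
    congr 1
    apply propext
    constructor
    · intro h2 i
      have h3 := congrFun h2 i
      simp only [Finsupp.smul_apply, Finsupp.equivFunOnFinite_symm_apply_apply, smul_eq_mul,
        Nat.cast_mul, Pi.zero_apply] at h3
      omega
    · intro h2
      ext i
      simp only [Finsupp.smul_apply, Finsupp.equivFunOnFinite_symm_apply_apply, smul_eq_mul,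
        Nat.cast_mul, Pi.zero_apply]
      rw [h2 i]
      ring
  simp only [h1]
  split_ifs with h
  · have h2 : ∀ i, ∃ b : ℕ, ν i = d * b := by
      intro i
      obtain ⟨h3, c, h4⟩ := h.1 i
      have h5 : 0 ≤ c := by
        rw [h4] at h3
        exact nonneg_of_mul_nonneg_right h3 (by exact_mod_cast hd0)
      exact ⟨c.toNat, by rw [Int.toNat_of_nonneg h5, h4]⟩
    choose b hb using h2
    rw [Finset.sum_eq_single b]
    · rw [if_pos hb]
    · intro β _ hβ
      rw [if_neg]
      intro h3
      apply hβ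
      ext i
      have h4 := h3 i
      rw [hb i] at h4
      have h5 : (d : ℤ) ≠ 0 := by exact_mod_cast hd0.ne'
      exact_mod_cast (mul_left_cancel₀ h5 h4).symm
    · intro h3
      exfalso
      apply h3
      rw [mem_piAntidiag]
      refine ⟨?_, fun i _ => mem_univ i⟩
      have h4 := h.2
      simp only [hb] at h4
      rw [← Finset.mul_sum] at h4
      have h5 : (d : ℤ) ≠ 0 := by exact_mod_cast hd0.ne'
      exact_mod_cast mul_left_cancel₀ h5 h4
  · apply Finset.sum_eq_zero
    intro β hβ
    rw [if_neg]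
    intro h3
    apply h
    refine ⟨fun i => ⟨?_, ?_⟩, ?_⟩
    · rw [h3 i]; positivity
    · rw [h3 i]; exact dvd_mul_right _ _
    · simp only [h3]
      rw [← Finset.mul_sum]
      rw [mem_piAntidiag] at hβ
      rw [← hβ.1]
      push_cast
      rfl

/-- Two beads in the same residue class kill the coefficient of `h_N(x^d)`. -/
theorem altc_hd_zero {d : ℕ} (hd0 : 0 < d) (N : ℕ) {κ : Fin r → ℤ} {i1 i2 : Fin r} (hne : i1 ≠ i2)
    (h1 : (r : ℤ) - d ≤ κ i1) (h2 : (r : ℤ) - d ≤ κ i2) (h12 : (d : ℤ) ∣ κ i1 - κ i2) :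
    altc (hd r d N) κ = 0 := by
  have key : altc (hd r d N) κ = - altc (hd r d N) κ := by
    conv_lhs => unfold altc
    rw [← Equiv.sum_comp (Equiv.mulRight (swap i1 i2))]
    unfold altc
    rw [← Finset.sum_neg_distrib]
    refine Finset.sum_congr rfl fun σ _ => ?_
    rw [Equiv.coe_mulRight, Perm.sign_mul, Perm.sign_swap hne]
    have e : cf (hd r d N) (fun i => κ i - (rho r ((σ * swap i1 i2) i) : ℤ))
        = cf (hd r d N) (fun i => κ i - (rho r (σ i) : ℤ)) := by
      rw [cf_hd hd0, cf_hd hd0]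
      have hs : ∑ i, (κ i - (rho r ((σ * swap i1 i2) i) : ℤ)) = ∑ i, (κ i - (rho r (σ i) : ℤ)) := by
        rw [Finset.sum_sub_distrib, Finset.sum_sub_distrib]
        congr 1
        rw [Equiv.sum_comp (σ * swap i1 i2) (fun i => (rho r i : ℤ)),
          Equiv.sum_comp σ (fun i => (rho r i : ℤ))]
      rw [hs]
      congr 1
      apply propext
      refine and_congr_left fun _ => ?_
      have hr : ∀ j : Fin r, (rho r j : ℤ) ≤ r - 1 := by
        intro j
        have := j.2
        unfold rho
        omega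
      -- nonnegativity is automatic at `i1` and `i2`
      have hnn : ∀ (x : ℤ) (j : Fin r), (r : ℤ) - d ≤ x → (d : ℤ) ∣ x - rho r j →
          0 ≤ x - rho r j := by
        intro x j hx hdv
        obtain ⟨c, hc⟩ := hdv
        have h3 := hr j
        by_contra hlt
        push Not at hlt
        have hc0 : c < 0 := by
          by_contra hc1
          push Not at hc1
          have : 0 ≤ (d : ℤ) * c := mul_nonneg (by positivity) hc1
          omega
        have : (d : ℤ) * c ≤ (d : ℤ) * (-1) := mul_le_mul_of_nonneg_left (by omega) (by positivity)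
        omega
      have hsym : ∀ σ : Perm (Fin r), (∀ i, 0 ≤ κ i - (rho r (σ i) : ℤ) ∧
          (d : ℤ) ∣ κ i - (rho r (σ i) : ℤ)) →
          (∀ i, 0 ≤ κ i - (rho r ((σ * swap i1 i2) i) : ℤ) ∧
          (d : ℤ) ∣ κ i - (rho r ((σ * swap i1 i2) i) : ℤ)) := by
        intro σ h i
        rw [Perm.mul_apply]
        by_cases hi1 : i = i1
        · subst hi1
          rw [swap_apply_left]
          have h3 : (d : ℤ) ∣ κ i - (rho r (σ i2) : ℤ) := by
            have := dvd_add h12 (h i2).2
            have e : κ i - κ i2 + (κ i2 - (rho r (σ i2) : ℤ)) = κ i - (rho r (σ i2) : ℤ) := by ring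
            rwa [e] at this
          exact ⟨hnn _ _ h1 h3, h3⟩
        · by_cases hi2 : i = i2
          · subst hi2
            rw [swap_apply_right]
            have h3 : (d : ℤ) ∣ κ i - (rho r (σ i1) : ℤ) := by
              have := dvd_sub (h i1).2 h12
              have e : κ i1 - (rho r (σ i1) : ℤ) - (κ i1 - κ i) = κ i - (rho r (σ i1) : ℤ) := by ring
              rwa [e] at this
            exact ⟨hnn _ _ h2 h3, h3⟩
          · rw [swap_apply_of_ne_of_ne hi1 hi2]
            exact h i
      constructor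
      · intro h
        have := hsym _ h
        rw [mul_assoc, swap_mul_self, mul_one] at this
        exact this
      · exact hsym σ
    rw [e]
    push_cast
    ring
  omega

theorem van_hd {d : ℕ} (hd0 : 0 < d) (N : ℕ) : Van d (hd r d N) := by
  intro κ hκ i hi hlt
  have hmem : ∀ j ∈ (univ.filter (fun j : Fin r => j ≤ i)), (κ j % d).toNat ∈ range d := by
    intro j _
    have h1 := Int.emod_nonneg (κ j) (show (d : ℤ) ≠ 0 by exact_mod_cast hd0.ne')
    have h2 := Int.emod_lt_of_pos (κ j) (show (0 : ℤ) < d by exact_mod_cast hd0)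
    rw [Finset.mem_range]
    omega
  have hcard : (range d).card < (univ.filter (fun j : Fin r => j ≤ i)).card := by
    have : (univ.filter (fun j : Fin r => j ≤ i)) = Finset.Iic i := by ext j; simp
    rw [this, Fin.card_Iic, Finset.card_range]
    omega
  obtain ⟨i1, hi1, i2, hi2, hne, heq⟩ := Finset.exists_ne_map_eq_of_card_lt_of_maps_to hcard hmem
  have hb : ∀ j : Fin r, j ≤ i → (r : ℤ) - d ≤ κ j := by
    intro j hj
    have h1 : κ i ≤ κ j := hκ.antitone hj
    have h2 : (rho r i : ℤ) = (r : ℤ) - 1 - d := by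
      have := i.2
      unfold rho
      omega
    omega
  rw [Finset.mem_filter] at hi1 hi2
  refine altc_hd_zero hd0 N hne (hb _ hi1.2) (hb _ hi2.2) ?_
  have h1 := Int.emod_nonneg (κ i1) (show (d : ℤ) ≠ 0 by exact_mod_cast hd0.ne')
  have h2 := Int.emod_nonneg (κ i2) (show (d : ℤ) ≠ 0 by exact_mod_cast hd0.ne')
  have h3 : κ i1 % d = κ i2 % d := by omega
  exact Int.ModEq.dvd (show κ i2 ≡ κ i1 [ZMOD d] from h3.symm)

end Pool.Agent.Lib.MP_a688ad_al
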